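import Pool.Agent.Lib.MP_570bef_nt.Basic

/-!
# Ascent: adding one `k`-th power at a time
-/

set_option autoImplicit false

namespace Pool.Agent.Lib.MP_570bef_nt

theorem pow_sub_pow_le {a b : ℝ} (hb : 0 ≤ b) (hab : b ≤ a) {k : ℕ} (hk : 1 ≤ k) :
    a ^ k - b ^ k ≤ k * (a - b) * a ^ (k - 1) := by
  rcases eq_or_lt_of_le (hb.trans hab) with h0 | h0
  · have hb0 : b = 0 := le_antisymm (by rw [h0]; exact hab) hb
    rw [← h0, hb0]
    have : k ≠ 0 := by omega
    simp [this]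
  · obtain ⟨m, rfl⟩ := Nat.exists_eq_add_of_le hk
    have h1 := one_add_mul_le_pow (a := b / a - 1) (by
      have : 0 ≤ b / a := by positivity
      linarith) (1 + m)
    have h2 : (1 + (b / a - 1)) ^ (1 + m) * a ^ (1 + m) = b ^ (1 + m) := by
      rw [← mul_pow]
      congr 1
      field_simp
      ring
    have h3 : (1 + ((1 + m : ℕ) : ℝ) * (b / a - 1)) * a ^ (1 + m) ≤ b ^ (1 + m) := by
      rw [← h2]
      exact mul_le_mul_of_nonneg_right h1 (by positivity)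
    have h4 : (1 + ((1 + m : ℕ) : ℝ) * (b / a - 1)) * a ^ (1 + m) =
        a ^ (1 + m) - ((1 + m : ℕ) : ℝ) * (a - b) * a ^ m := by
      have h5 : a ^ (1 + m) = a * a ^ m := by ring
      rw [h5]
      field_simp
      ring
    have h6 : 1 + m - 1 = m := by omega
    rw [h6]
    linarith

theorem ascent_step {k g S U : ℕ} {R : ℝ} (hk : 1 ≤ k) (hg : 1 ≤ g)
    (h : ∀ v : ℕ, g ∣ v → (v : ℝ) ≤ R → IsSum k S (U + v)) :
    ∀ v : ℕ, g ∣ v → (k * g : ℝ) * (v : ℝ) ^ (1 - 1 / (k : ℝ)) ≤ R →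
      IsSum k (S + 1) (U + v) := by
  intro v hv hvR
  have hk0 : (0 : ℝ) < k := by exact_mod_cast hk
  have hg0 : (0 : ℝ) < g := by exact_mod_cast hg
  have hv0 : (0 : ℝ) ≤ v := Nat.cast_nonneg v
  set a : ℝ := (v : ℝ) ^ (1 / (k : ℝ)) with ha
  have ha0 : 0 ≤ a := Real.rpow_nonneg hv0 _
  have hak : a ^ k = v := by
    rw [ha, ← Real.rpow_natCast, ← Real.rpow_mul hv0]
    rw [one_div, inv_mul_cancel₀ hk0.ne', Real.rpow_one]
  have hak1 : a ^ (k - 1) = (v : ℝ) ^ (1 - 1 / (k : ℝ)) := by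
    rw [ha, ← Real.rpow_natCast, ← Real.rpow_mul hv0]
    congr 1
    rw [Nat.cast_sub hk]
    field_simp
    simp
  set y := ⌊a / g⌋₊ with hy
  have hy1 : (g : ℝ) * y ≤ a := by
    have h1 := Nat.floor_le (show 0 ≤ a / g by positivity)
    rw [le_div_iff₀ hg0] at h1
    linarith
  have hy2 : a < g * y + g := by
    have h1 := Nat.lt_floor_add_one (a / g)
    rw [div_lt_iff₀ hg0] at h1
    linarith
  have hyk : ((g * y : ℕ) : ℝ) ^ k ≤ v := by
    rw [← hak]
    push_cast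
    exact pow_le_pow_left₀ (by positivity) hy1 k
  have hyk' : (g * y) ^ k ≤ v := by exact_mod_cast hyk
  have hle : ((v - (g * y) ^ k : ℕ) : ℝ) ≤ R := by
    rw [Nat.cast_sub hyk']
    refine le_trans ?_ hvR
    rw [← hak1]
    have h1 := pow_sub_pow_le (show 0 ≤ (g : ℝ) * y by positivity) hy1 hk
    rw [hak] at h1
    push_cast
    refine h1.trans ?_
    have h2 : 0 ≤ a ^ (k - 1) := pow_nonneg ha0 _
    have h3 : (k : ℝ) * (a - g * y) ≤ k * g := by
      apply mul_le_mul_of_nonneg_left _ hk0.le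
      linarith
    exact mul_le_mul_of_nonneg_right h3 h2
  have hdvd : g ∣ v - (g * y) ^ k := by
    apply Nat.dvd_sub hv
    exact dvd_pow (dvd_mul_right g y) (by omega)
  have h1 := (h _ hdvd hle).add (isSum_pow k (g * y))
  rwa [show U + (v - (g * y) ^ k) + (g * y) ^ k = U + v by omega] at h1

theorem ascent {k g S U : ℕ} {R : ℝ} (hk : 2 ≤ k) (hg : 1 ≤ g) (hR : 0 ≤ R)
    (h : ∀ v : ℕ, g ∣ v → (v : ℝ) ≤ R → IsSum k S (U + v)) (j : ℕ) :
    ∀ v : ℕ, g ∣ v → (v : ℝ) ≤ (k * g : ℝ) ^ k *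
      (R / (k * g : ℝ) ^ k) ^ (((k : ℝ) / (k - 1)) ^ j) → IsSum k (S + j) (U + v) := by
  have hk0 : (0 : ℝ) < k := by
    have : 0 < k := by omega
    exact_mod_cast this
  have hk1 : (0 : ℝ) < (k : ℝ) - 1 := by
    have : (2 : ℝ) ≤ k := by exact_mod_cast hk
    linarith
  have hg0 : (0 : ℝ) < g := by exact_mod_cast hg
  set κ : ℝ := (k * g : ℝ) with hκ
  have hκ0 : 0 < κ := by positivity
  set q : ℝ := (k : ℝ) / (k - 1) with hq
  have hq0 : 0 < q := by positivity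
  induction j with
  | zero =>
    intro v hv hvR
    rw [pow_zero, Real.rpow_one] at hvR
    rw [mul_div_cancel₀ _ (pow_pos hκ0 k).ne'] at hvR
    exact h v hv hvR
  | succ j ih =>
    intro v hv hvR
    have hbase : 0 ≤ R / κ ^ k := by positivity
    refine ascent_step (by omega) hg ih v hv ?_
    have h1 : (v : ℝ) ^ (1 - 1 / (k : ℝ)) ≤
        (κ ^ k * (R / κ ^ k) ^ (q ^ (j + 1))) ^ (1 - 1 / (k : ℝ)) := by
      apply Real.rpow_le_rpow (Nat.cast_nonneg v) hvR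
      rw [sub_nonneg, div_le_one hk0]
      linarith
    have h2 : (κ ^ k * (R / κ ^ k) ^ (q ^ (j + 1))) ^ (1 - 1 / (k : ℝ)) =
        κ ^ (k - 1) * (R / κ ^ k) ^ (q ^ j) := by
      rw [Real.mul_rpow (by positivity) (by positivity)]
      congr 1
      · rw [← Real.rpow_natCast κ k, ← Real.rpow_mul hκ0.le, ← Real.rpow_natCast κ (k - 1)]
        congr 1
        rw [Nat.cast_sub (by omega)]
        field_simp
        simp
      · rw [← Real.rpow_mul hbase]
        congr 1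
        rw [pow_succ, hq]
        field_simp
    have h3 : κ * (v : ℝ) ^ (1 - 1 / (k : ℝ)) ≤ κ * (κ ^ (k - 1) * (R / κ ^ k) ^ (q ^ j)) := by
      apply mul_le_mul_of_nonneg_left _ hκ0.le
      rw [← h2]
      exact h1
    refine h3.trans (le_of_eq ?_)
    rw [← mul_assoc]
    congr 1
    rw [← pow_succ']
    congr 1
    omega

/-- The exponent doubles after `k` steps. -/
theorem two_pow_le {k : ℕ} (hk : 2 ≤ k) (J : ℕ) :
    (2 : ℝ) ^ J ≤ ((k : ℝ) / (k - 1)) ^ (k * J) := by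
  have hk1 : (0 : ℝ) < (k : ℝ) - 1 := by
    have : (2 : ℝ) ≤ k := by exact_mod_cast hk
    linarith
  rw [pow_mul]
  apply pow_le_pow_left₀ (by norm_num)
  have h1 := one_add_mul_le_pow (a := 1 / ((k : ℝ) - 1)) (by
    have : 0 ≤ 1 / ((k : ℝ) - 1) := by positivity
    linarith) k
  have h2 : 1 + 1 / ((k : ℝ) - 1) = (k : ℝ) / (k - 1) := by
    field_simp
    ring
  rw [h2] at h1
  refine le_trans ?_ h1
  have h3 : (1 : ℝ) ≤ k * (1 / (k - 1)) := by
    rw [mul_one_div, le_div_iff₀ hk1]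
    linarith
  linarith

end Pool.Agent.Lib.MP_570bef_nt
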