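import Pool.Agent.Lib.MP_570bef_nt.Defs

/-!
# Sums of `k`-th powers: basic definitions and lemmas
-/

set_option autoImplicit false

namespace Pool.Agent.Lib.MP_570bef_nt

theorem IsSum.add {k s t m n : ℕ} (h1 : IsSum k s m) (h2 : IsSum k t n) :
    IsSum k (s + t) (m + n) := by
  obtain ⟨x, rfl⟩ := h1
  obtain ⟨y, rfl⟩ := h2
  refine ⟨Fin.append x y, ?_⟩
  rw [Fin.sum_univ_add]
  simp

theorem isSum_zero {k : ℕ} (hk : 1 ≤ k) (s : ℕ) : IsSum k s 0 := by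
  refine ⟨fun _ => 0, ?_⟩
  simp [Nat.zero_pow hk]

theorem IsSum.mono {k s t n : ℕ} (hk : 1 ≤ k) (h : IsSum k s n) (hst : s ≤ t) :
    IsSum k t n := by
  obtain ⟨u, rfl⟩ := Nat.exists_eq_add_of_le hst
  exact h.add (isSum_zero hk u)

theorem isSum_pow (k a : ℕ) : IsSum k 1 (a ^ k) := ⟨fun _ => a, by simp⟩

theorem isSum_self (k n : ℕ) : IsSum k n n := ⟨fun _ => 1, by simp⟩

theorem IsSum.mul_pow {k s n : ℕ} (h : IsSum k s n) (a : ℕ) : IsSum k s (a ^ k * n) := by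
  obtain ⟨x, rfl⟩ := h
  refine ⟨fun i => a * x i, ?_⟩
  rw [Finset.mul_sum]
  exact Finset.sum_congr rfl fun i _ => (Nat.mul_pow a (x i) k).symm

end Pool.Agent.Lib.MP_570bef_nt
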