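import Pool.Agent.Lib.MP_570bef_nt.Stage

/-!
# The cyclic system
-/

set_option autoImplicit false

namespace Pool.Agent.Lib.MP_570bef_nt

open Finset RealInnerProductSpace

theorem congr_apply {N : ℕ} [NeZero N] (s : ZMod N) (v : EuclideanSpace ℝ (ZMod N))
    (n : ZMod N) :
    (LinearIsometryEquiv.piLpCongrLeft 2 ℝ ℝ (Equiv.addRight s) v).ofLp n = v.ofLp (n - s) := by
  have h : (LinearIsometryEquiv.piLpCongrLeft 2 ℝ ℝ (Equiv.addRight s) v).ofLp n =
    v.ofLp ((Equiv.addRight s).symm n) := rfl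
  have h2 : (Equiv.addRight s).symm n = n - s := by
    rw [Equiv.symm_apply_eq]
    simp
  rw [h, h2]

/-- Translations of functions on `ZMod N`. -/
noncomputable def cyc (N : ℕ) [NeZero N] : Sys where
  E := EuclideanSpace ℝ (ZMod N)
  U s := (LinearIsometryEquiv.piLpCongrLeft 2 ℝ ℝ
    (Equiv.addRight ((s : ℤ) : ZMod N))).toLinearIsometry
  U_zero v := by
    ext n
    rw [LinearIsometryEquiv.coe_toLinearIsometry, congr_apply]
    simp
  U_add s t v := by
    ext n
    rw [LinearIsometryEquiv.coe_toLinearIsometry, LinearIsometryEquiv.coe_toLinearIsometry,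
      LinearIsometryEquiv.coe_toLinearIsometry, congr_apply, congr_apply, congr_apply]
    rw [show n - ((s + t : ℤ) : ZMod N) = n - (s : ZMod N) - (t : ZMod N) by push_cast; ring]

variable {N : ℕ} [NeZero N]

/-- Evaluation. -/
noncomputable def ev : (cyc N).E →ₗ[ℝ] (ZMod N → ℝ) where
  toFun v := fun n => (show EuclideanSpace ℝ (ZMod N) from v).ofLp n
  map_add' _ _ := rfl
  map_smul' _ _ := rfl

/-- The vector of a function. -/
noncomputable def mk (f : ZMod N → ℝ) : (cyc N).E :=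
  (show EuclideanSpace ℝ (ZMod N) from WithLp.toLp 2 f)

theorem ev_mk (f : ZMod N → ℝ) : ev (mk f) = f := rfl

theorem ev_U (s : ℤ) (v : (cyc N).E) (n : ZMod N) : ev ((cyc N).U s v) n = ev v (n - s) :=
  congr_apply (s : ZMod N) v n

theorem inner_ev (v w : (cyc N).E) : ⟪v, w⟫ = ∑ n, ev v n * ev w n := by
  have h : ⟪v, w⟫ = ∑ n, ⟪ev v n, ev w n⟫ := rfl
  rw [h]
  apply sum_congr rfl
  intro n _
  simp [mul_comm]

theorem norm_sq_ev (v : (cyc N).E) : ‖v‖ ^ 2 = ∑ n, ev v n ^ 2 := by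
  rw [← real_inner_self_eq_norm_sq, inner_ev]
  apply sum_congr rfl
  intro n _
  ring

theorem ev_A (f : ℕ → ℤ) (Y : ℕ) (v : (cyc N).E) (n : ZMod N) :
    ev ((cyc N).A f Y v) n = (Y : ℝ)⁻¹ * ∑ y ∈ range Y, ev v (n - f y) := by
  rw [Sys.A_apply, map_smul, map_sum, Pi.smul_apply, smul_eq_mul, Finset.sum_apply]
  simp_rw [ev_U]

end Pool.Agent.Lib.MP_570bef_nt
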