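import Mathlib

/-!
# Sums of `k`-th powers: definitions
-/

set_option autoImplicit false

namespace Pool.Agent.Lib.MP_570bef_nt

/-- `n` is a sum of `s` `k`-th powers of nonnegative integers. -/
def IsSum (k s n : ℕ) : Prop := ∃ x : Fin s → ℕ, n = ∑ i, x i ^ k

/-- The number of the integers `n` with `x ≤ n < x + L` which are sums of `s` `k`-th powers. -/
noncomputable def countSums (k s x L : ℕ) : ℕ :=
  Set.ncard {n : ℕ | x ≤ n ∧ n < x + L ∧ IsSum k s n}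

/-- The residue class of `r` modulo `M ^ k` contains a sum of `s` `k`-th powers of nonnegative
integers less than `M`. -/
def IsSumMod (k s M r : ℕ) : Prop :=
  ∃ x : Fin s → ℕ, (∀ i, x i < M) ∧ ∑ i, x i ^ k ≡ r [MOD M ^ k]

/-- The number of the residue classes modulo `M ^ k` which contain a sum of `s` `k`-th powers of
nonnegative integers less than `M`. -/
noncomputable def countResidues (k s M : ℕ) : ℕ :=
  Set.ncard {r : ℕ | r < M ^ k ∧ IsSumMod k s M r}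

/-- `G(k) = O(k)`. -/
def Linear : Prop := ∃ C : ℕ, ∀ k ≥ 1, ∃ n₀, ∀ n ≥ n₀, IsSum k (C * k) n

/-- Sums of `O(k)` `k`-th powers have density at least `1 / ω`. -/
def Density (ω : ℕ → ℕ → ℕ) : Prop :=
  ∃ C : ℕ, ∀ k ≥ 1, ∃ N₀, ∀ N ≥ N₀, N ≤ ω k N * countSums k (C * k) 0 N

/-- Sums of `O(k)` `k`-th powers have density at least `1 / ω` in some short intervals. -/
def ShortIntervals (ω : ℕ → ℕ → ℕ) : Prop :=
  ∃ C : ℕ, ∀ k ≥ 1, ∃ X₀, ∀ X ≥ X₀, ∃ x L, X ≤ L ∧ x + L ≤ X ^ C ∧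
    L ≤ ω k L * countSums k (C * k) x L

/-- Sums of `O(k)` `k`-th powers of integers less than `M` cover all residues modulo `M ^ k`, for
all large `M`. -/
def AllResidues : Prop :=
  ∃ C : ℕ, ∀ k ≥ 1, ∃ M₀, ∀ M ≥ M₀, ∀ r, IsSumMod k (C * k) M r

/-- Sums of `O(k)` `k`-th powers of integers less than `2 ^ j` cover a proportion at least `1 / ω`
of the residues modulo `2 ^ (j k)`, for all large `j`. -/
def BinaryResidues (ω : ℕ → ℕ → ℕ) : Prop :=
  ∃ C : ℕ, ∀ k ≥ 1, ∃ j₀, ∀ j ≥ j₀,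
    (2 ^ j) ^ k ≤ ω k ((2 ^ j) ^ k) * countResidues k (C * k) (2 ^ j)

/-- Sums of `O(k)` `k`-th powers of integers less than `M` cover a proportion at least `1 / ω` of
the residues modulo `M ^ k`, for a sparse sequence of `M`. -/
def SomeResidues (ω : ℕ → ℕ → ℕ) : Prop :=
  ∃ C : ℕ, ∀ k ≥ 1, ∃ X₀, ∀ X ≥ X₀, ∃ M, X ≤ M ∧ M ≤ X ^ C ∧
    M ^ k ≤ ω k (M ^ k) * countResidues k (C * k) M

end Pool.Agent.Lib.MP_570bef_nt
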