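import Pool.Agent.Lib.MP_570bef_nt.Omega

/-!
# The equivalences
-/

set_option autoImplicit false

namespace Pool.Agent.Lib.MP_570bef_nt

open Filter

/-- Residues give sums. -/
theorem countResidues_le {k s M : ℕ} :
    countResidues k s M ≤ countSums k s 0 (s * M ^ k + 1) := by
  have h : ∀ r : ℕ, ∃ n, IsSumMod k s M r → (IsSum k s n ∧ n ≤ s * M ^ k ∧ n ≡ r [MOD M ^ k]) := by
    intro r
    by_cases hr : IsSumMod k s M r
    · obtain ⟨x, hx, hxs⟩ := hr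
      refine ⟨∑ i, x i ^ k, fun _ => ⟨⟨x, rfl⟩, ?_, hxs⟩⟩
      calc ∑ i, x i ^ k ≤ ∑ _i : Fin s, M ^ k :=
            Finset.sum_le_sum fun i _ => Nat.pow_le_pow_left (hx i).le k
        _ = s * M ^ k := by simp
    · exact ⟨0, fun h => absurd h hr⟩
  choose F hF using h
  unfold countResidues countSums
  refine Set.ncard_le_ncard_of_injOn F ?_ ?_ (finite_window k s 0 _)
  · intro r hr
    obtain ⟨h1, h2, _⟩ := hF r hr.2
    exact ⟨Nat.zero_le _, by omega, h1⟩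
  · intro r hr r' hr' hrr
    obtain ⟨_, _, h1⟩ := hF r hr.2
    obtain ⟨_, _, h2⟩ := hF r' hr'.2
    rw [← hrr] at h2
    have h3 : r ≡ r' [MOD M ^ k] := h1.symm.trans h2
    have h4 : r % M ^ k = r' % M ^ k := h3
    rwa [Nat.mod_eq_of_lt hr.1, Nat.mod_eq_of_lt hr'.1] at h4

theorem countResidues_mono {k s t M : ℕ} (hk : 1 ≤ k) (hM : 1 ≤ M) (hst : s ≤ t) :
    countResidues k s M ≤ countResidues k t M := by
  apply Set.ncard_le_ncard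
  · exact fun r hr => ⟨hr.1, hr.2.mono hk hM hst⟩
  · exact (Set.finite_Iio (M ^ k)).subset fun r hr => hr.1

/-- **Residues.** -/
theorem residues_short {ω Ω : ℕ → ℕ → ℕ} (hmono : ∀ k, Monotone (ω k))
    (hΩt : ∀ k, Tendsto (Ω k) atTop atTop) (hΩ : ∀ k N, Ω k N * Ω k N ≤ ω k N)
    (c k s : ℕ) (hk : 1 ≤ k) (hs : 1 ≤ s)
    (h : ∃ X₀, ∀ X ≥ X₀, ∃ M, X ≤ M ∧ M ≤ X ^ c ∧
      M ^ k ≤ Ω k (M ^ k) * countResidues k s M) :
    ∃ X₀, ∀ X ≥ X₀, ∃ x L, X ≤ L ∧ x + L ≤ X ^ (c + 1) ∧ L ≤ ω k L * countSums k s x L := by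
  obtain ⟨X₀, hX₀⟩ := h
  obtain ⟨N₀, hN₀⟩ := tendsto_atTop_atTop.1 (hΩt k) (2 * s)
  refine ⟨(X₀ + N₀ + 2) ^ k + 2 * s * 2 ^ (c * k) + 1, fun Y hY => ?_⟩
  have hex : ∃ X, Y ≤ X ^ k := ⟨Y, Nat.le_self_pow (by omega) Y⟩
  classical
  set X := Nat.find hex with hX
  have hYX : Y ≤ X ^ k := Nat.find_spec hex
  have hXlow : X₀ + N₀ + 2 < X := by
    by_contra hlt
    push Not at hlt
    have := Nat.pow_le_pow_left hlt k
    omega
  have hXY : (X - 1) ^ k < Y := by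
    by_contra hlt
    push Not at hlt
    have := Nat.find_min' hex hlt
    omega
  have hX2 : X ^ k ≤ 2 ^ k * Y := by
    calc X ^ k ≤ (2 * (X - 1)) ^ k := Nat.pow_le_pow_left (by omega) k
      _ = 2 ^ k * (X - 1) ^ k := Nat.mul_pow _ _ _
      _ ≤ 2 ^ k * Y := Nat.mul_le_mul_left _ hXY.le
  obtain ⟨M, hXM, hMX, hcount⟩ := hX₀ X (by omega)
  have hMk : M ≤ M ^ k := Nat.le_self_pow (by omega) M
  have hMk1 : 1 ≤ M ^ k := by omega
  have hsM : M ^ k ≤ s * M ^ k := Nat.le_mul_of_pos_left _ hs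
  refine ⟨0, s * M ^ k + 1, ?_, ?_, ?_⟩
  · have h1 := Nat.pow_le_pow_left hXM k
    omega
  · calc 0 + (s * M ^ k + 1) ≤ 2 * s * M ^ k := by
          have : 2 * s * M ^ k = s * M ^ k + s * M ^ k := by ring
          omega
      _ ≤ 2 * s * (X ^ c) ^ k := Nat.mul_le_mul_left _ (Nat.pow_le_pow_left hMX k)
      _ = 2 * s * (X ^ k) ^ c := by rw [← pow_mul, ← pow_mul, mul_comm c k]
      _ ≤ 2 * s * (2 ^ k * Y) ^ c := Nat.mul_le_mul_left _ (Nat.pow_le_pow_left hX2 c)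
      _ = 2 * s * 2 ^ (c * k) * Y ^ c := by
          rw [Nat.mul_pow, ← pow_mul, mul_comm k c]
          ring
      _ ≤ Y * Y ^ c := Nat.mul_le_mul_right _ (by omega)
      _ = Y ^ (c + 1) := by ring
  · have h1 : 2 * s ≤ Ω k (M ^ k) := hN₀ _ (by omega)
    calc s * M ^ k + 1 ≤ 2 * s * M ^ k := by
          have : 2 * s * M ^ k = s * M ^ k + s * M ^ k := by ring
          omega
      _ ≤ Ω k (M ^ k) * (Ω k (M ^ k) * countResidues k s M) := Nat.mul_le_mul h1 hcount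
      _ = Ω k (M ^ k) * Ω k (M ^ k) * countResidues k s M := by ring
      _ ≤ ω k (M ^ k) * countResidues k s M := Nat.mul_le_mul_right _ (hΩ _ _)
      _ ≤ ω k (s * M ^ k + 1) * countSums k s 0 (s * M ^ k + 1) :=
          Nat.mul_le_mul (hmono k (by omega)) countResidues_le

theorem linear_density {ω : ℕ → ℕ → ℕ} (hω : ∀ k, Tendsto (ω k) atTop atTop) (h : Linear) :
    Density ω := by
  obtain ⟨C, hC⟩ := h
  refine ⟨C, fun k hk => ?_⟩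
  obtain ⟨n₀, hn₀⟩ := hC k hk
  obtain ⟨N₁, hN₁⟩ := tendsto_atTop_atTop.1 (hω k) 2
  refine ⟨2 * n₀ + N₁, fun N hN => ?_⟩
  have h1 : N - n₀ ≤ countSums k (C * k) 0 N := by
    have h2 : Set.Ico n₀ (n₀ + (N - n₀)) ⊆
        {n : ℕ | 0 ≤ n ∧ n < 0 + N ∧ IsSum k (C * k) n} := by
      intro n hn
      refine ⟨Nat.zero_le n, ?_, hn₀ n hn.1⟩
      have := hn.2
      omega
    have h3 := Set.ncard_le_ncard h2 (finite_window k _ 0 N)
    rwa [ncard_Ico] at h3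
  calc N ≤ 2 * (N - n₀) := by omega
    _ ≤ ω k N * countSums k (C * k) 0 N := Nat.mul_le_mul (hN₁ N (by omega)) h1

theorem density_short {ω : ℕ → ℕ → ℕ} (h : Density ω) : ShortIntervals ω := by
  obtain ⟨C, hC⟩ := h
  refine ⟨C + 1, fun k hk => ?_⟩
  obtain ⟨N₀, hN₀⟩ := hC k hk
  refine ⟨N₀, fun X hX => ⟨0, X, le_rfl, ?_, ?_⟩⟩
  · rw [zero_add]
    exact Nat.le_self_pow (by omega) X
  · exact (hN₀ X hX).trans
      (Nat.mul_le_mul_left _ (countSums_mono hk (Nat.mul_le_mul_right k (by omega)) 0 X))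

theorem linear_residues (h : Linear) : AllResidues := by
  obtain ⟨C, hC⟩ := h
  refine ⟨C + 1, fun k hk => ?_⟩
  obtain ⟨n₀, hn₀⟩ := hC k hk
  refine ⟨n₀ + 1, fun M hM => ?_⟩
  exact residues_of_linear hk (Nat.mul_pos (by omega) hk)
    (fun n hn => (hn₀ n hn).mono hk (Nat.mul_le_mul_right k (by omega))) M (by omega)

theorem residues_binary {ω : ℕ → ℕ → ℕ} (hω : ∀ k, Tendsto (ω k) atTop atTop)
    (h : AllResidues) : BinaryResidues ω := by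
  obtain ⟨C, hC⟩ := h
  refine ⟨C, fun k hk => ?_⟩
  obtain ⟨M₀, hM₀⟩ := hC k hk
  obtain ⟨N₁, hN₁⟩ := tendsto_atTop_atTop.1 (hω k) 1
  refine ⟨M₀ + N₁, fun j hj => ?_⟩
  have hjX : j < 2 ^ j := Nat.lt_two_pow_self
  set X := 2 ^ j with hX
  have h1 : countResidues k (C * k) X = X ^ k := by
    have h2 : {r : ℕ | r < X ^ k ∧ IsSumMod k (C * k) X r} = Set.Ico 0 (0 + X ^ k) := by
      ext r
      constructor
      · exact fun hr => ⟨Nat.zero_le r, by simpa using hr.1⟩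
      · intro hr
        exact ⟨by simpa using hr.2, hM₀ X (by omega) r⟩
    unfold countResidues
    rw [h2, ncard_Ico]
  rw [h1]
  have h3 : X ≤ X ^ k := Nat.le_self_pow (by omega) X
  exact Nat.le_mul_of_pos_left _ (hN₁ _ (by omega))

theorem binary_some {ω : ℕ → ℕ → ℕ} (h : BinaryResidues ω) : SomeResidues ω := by
  obtain ⟨C, hC⟩ := h
  refine ⟨C + 2, fun k hk => ?_⟩
  obtain ⟨j₀, hj₀⟩ := hC k hk
  refine ⟨2 ^ j₀ + 2, fun X hX => ?_⟩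
  have hp : 0 < 2 ^ j₀ := pow_pos (by norm_num) _
  set j := Nat.log 2 X + 1 with hj
  have h1 : X < 2 ^ j := Nat.lt_pow_succ_log_self (by norm_num) X
  have h2 : 2 ^ j ≤ 2 * X := by
    rw [hj, pow_succ, mul_comm]
    exact Nat.mul_le_mul_left 2 (Nat.pow_log_le_self 2 (by omega))
  have h3 : j₀ ≤ j := by
    by_contra hno
    push Not at hno
    have : 2 ^ j ≤ 2 ^ j₀ := Nat.pow_le_pow_right (by norm_num) hno.le
    omega
  refine ⟨2 ^ j, h1.le, ?_, ?_⟩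
  · calc 2 ^ j ≤ 2 * X := h2
      _ ≤ X * X := Nat.mul_le_mul_right X (by omega)
      _ = X ^ 2 := by ring
      _ ≤ X ^ (C + 2) := Nat.pow_le_pow_right (by omega) (by omega)
  · refine (hj₀ j h3).trans (Nat.mul_le_mul_left _ ?_)
    exact countResidues_mono hk (by omega) (Nat.mul_le_mul_right k (by omega))

/-- The main theorem. -/
theorem main : ∃ Ω : ℕ → ℕ → ℕ, (∀ k, Tendsto (Ω k) atTop atTop) ∧
    (∀ k s : ℕ, 1 ≤ k → (∃ N₀, ∀ N ≥ N₀, N ≤ Ω k N * countSums k s 0 N) →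
      ∃ n₀, ∀ n ≥ n₀, IsSum k (2 * s + 4 * k + 2) n) ∧
    (∀ c k s : ℕ, 1 ≤ k →
      (∃ X₀, ∀ X ≥ X₀, ∃ x L, X ≤ L ∧ x + L ≤ X ^ c ∧ L ≤ Ω k L * countSums k s x L) →
      ∃ n₀, ∀ n ≥ n₀, IsSum k (2 * s + (10 + Nat.log 2 (c + 1)) * k) n) ∧
    (∀ c k s : ℕ, 1 ≤ k → 1 ≤ s →
      (∃ X₀, ∀ X ≥ X₀, ∃ M, X ≤ M ∧ M ≤ X ^ c ∧
        M ^ k ≤ Ω k (M ^ k) * countResidues k s M) →
      ∃ n₀, ∀ n ≥ n₀, IsSum k (2 * s + (10 + Nat.log 2 (c + 2)) * k) n) ∧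
    List.TFAE [Linear, Density Ω, ShortIntervals Ω, AllResidues, BinaryResidues Ω,
      SomeResidues Ω] := by
  obtain ⟨ω, hmono, htend, hω⟩ := exists_omega
  set Ω : ℕ → ℕ → ℕ := fun k N => Nat.sqrt (ω k N) with hΩ
  have hΩt : ∀ k, Tendsto (Ω k) atTop atTop := by
    intro k
    rw [tendsto_atTop_atTop]
    intro m
    obtain ⟨N₀, hN₀⟩ := tendsto_atTop_atTop.1 (htend k) (m * m)
    refine ⟨N₀, fun N hN => ?_⟩
    show m ≤ Nat.sqrt (ω k N)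
    rw [Nat.le_sqrt]
    exact hN₀ N hN
  have hΩsq : ∀ k N, Ω k N * Ω k N ≤ ω k N := fun k N => Nat.sqrt_le (ω k N)
  have hΩle : ∀ k N, Ω k N ≤ ω k N := fun k N => Nat.sqrt_le_self (ω k N)
  have hB : ∀ k s : ℕ, 1 ≤ k → (∃ N₀, ∀ N ≥ N₀, N ≤ Ω k N * countSums k s 0 N) →
      ∃ n₀, ∀ n ≥ n₀, IsSum k (2 * s + 4 * k + 2) n := by
    rintro k s hk ⟨N₀, hN₀⟩
    exact density_omega hmono hω k s hk
      ⟨N₀, fun N hN => (hN₀ N hN).trans (Nat.mul_le_mul_right _ (hΩle k N))⟩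
  have hA : ∀ c k s : ℕ, 1 ≤ k →
      (∃ X₀, ∀ X ≥ X₀, ∃ x L, X ≤ L ∧ x + L ≤ X ^ c ∧ L ≤ Ω k L * countSums k s x L) →
      ∃ n₀, ∀ n ≥ n₀, IsSum k (2 * s + (10 + Nat.log 2 (c + 1)) * k) n := by
    rintro c k s hk ⟨X₀, hX₀⟩
    apply short_omega hω c k s hk
    refine ⟨X₀, fun X hX => ?_⟩
    obtain ⟨x, L, h1, h2, h3⟩ := hX₀ X hX
    exact ⟨x, L, h1, h2, h3.trans (Nat.mul_le_mul_right _ (hΩle k L))⟩
  have hD : ∀ c k s : ℕ, 1 ≤ k → 1 ≤ s →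
      (∃ X₀, ∀ X ≥ X₀, ∃ M, X ≤ M ∧ M ≤ X ^ c ∧
        M ^ k ≤ Ω k (M ^ k) * countResidues k s M) →
      ∃ n₀, ∀ n ≥ n₀, IsSum k (2 * s + (10 + Nat.log 2 (c + 2)) * k) n := by
    intro c k s hk hs h
    exact short_omega hω (c + 1) k s hk (residues_short hmono hΩt hΩsq c k s hk hs h)
  refine ⟨Ω, hΩt, hB, hA, hD, ?_⟩
  tfae_have 1 → 2 := linear_density hΩt
  tfae_have 2 → 3 := density_short
  tfae_have 3 → 1 := by
    rintro ⟨C, hC⟩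
    refine ⟨2 * C + (10 + Nat.log 2 (C + 1)), fun k hk => ?_⟩
    obtain ⟨n₀, hn₀⟩ := hA C k (C * k) hk (hC k hk)
    refine ⟨n₀, fun n hn => ?_⟩
    have h1 := hn₀ n hn
    rwa [show 2 * (C * k) + (10 + Nat.log 2 (C + 1)) * k =
      (2 * C + (10 + Nat.log 2 (C + 1))) * k by ring] at h1
  tfae_have 1 → 4 := linear_residues
  tfae_have 4 → 5 := residues_binary hΩt
  tfae_have 5 → 6 := binary_some
  tfae_have 6 → 1 := by
    rintro ⟨C, hC⟩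
    have hC1 : 1 ≤ C := by
      by_contra hc
      have : C = 0 := by omega
      subst this
      obtain ⟨X₀, h⟩ := hC 1 le_rfl
      obtain ⟨M, h1, h2, _⟩ := h (X₀ + 2) (by omega)
      rw [pow_zero] at h2
      omega
    refine ⟨2 * C + (10 + Nat.log 2 (C + 2)), fun k hk => ?_⟩
    obtain ⟨n₀, hn₀⟩ := hD C k (C * k) hk (Nat.mul_pos hC1 hk) (hC k hk)
    refine ⟨n₀, fun n hn => ?_⟩
    have h1 := hn₀ n hn
    rwa [show 2 * (C * k) + (10 + Nat.log 2 (C + 2)) * k =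
      (2 * C + (10 + Nat.log 2 (C + 2))) * k by ring] at h1
  tfae_finish

end Pool.Agent.Lib.MP_570bef_nt
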