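import Pool.Agent.Lib.MP_570bef_nt.Basic

/-!
# Sums of `k`-th powers modulo `q`
-/

set_option autoImplicit false

namespace Pool.Agent.Lib.MP_570bef_nt

open Finset
open scoped Pointwise

/-- Chowla's theorem. -/
theorem chowla {n : ℕ} [NeZero n] : ∀ (m : ℕ) (A B : Finset (ZMod n)), B.card ≤ m → A.Nonempty →
    0 ∈ B → (∀ b ∈ B, b ≠ 0 → IsUnit b) → min n (A.card + B.card - 1) ≤ (A + B).card := by
  intro m
  induction m with
  | zero =>
    intro A B hB _ h0 _
    have : B = ∅ := card_eq_zero.1 (by omega)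
    rw [this] at h0
    exact absurd h0 (notMem_empty _)
  | succ m ih =>
    intro A B hB hA h0 hu
    by_cases hcl : ∀ a ∈ A, ∀ b ∈ B, a + b ∈ A
    · have hsub : A ⊆ A + B := fun a ha => by
        rw [mem_add]
        exact ⟨a, ha, 0, h0, add_zero a⟩
      have hAB := card_le_card hsub
      by_cases hB1 : B = {0}
      · have hBc : B.card = 1 := by rw [hB1, card_singleton]
        omega
      · obtain ⟨b, hb, hb0⟩ : ∃ b ∈ B, b ≠ 0 := by
          by_contra hno
          push Not at hno
          apply hB1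
          ext x
          rw [mem_singleton]
          exact ⟨hno x, fun h => h ▸ h0⟩
        have hbu := hu b hb hb0
        obtain ⟨a, ha⟩ := hA
        have h1 : ∀ j : ℕ, a + j * b ∈ A := by
          intro j
          induction j with
          | zero => simpa using ha
          | succ j ihj =>
            have := hcl _ ihj b hb
            rwa [show a + ((j + 1 : ℕ) : ZMod n) * b = a + j * b + b by push_cast; ring]
        have h2 : A = univ := by
          rw [eq_univ_iff_forall]
          intro x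
          obtain ⟨u, hu'⟩ := hbu
          have h3 := h1 ((x - a) * ↑u⁻¹).val
          rw [ZMod.natCast_zmod_val, ← hu', mul_assoc, Units.inv_mul, mul_one] at h3
          rwa [add_sub_cancel] at h3
        have h3 : A.card = n := by
          rw [h2, card_univ, ZMod.card]
        omega
    · push Not at hcl
      obtain ⟨a, ha, b, hb, hab⟩ := hcl
      set P := addDysonETransform a (A, B) with hP
      have hcard : P.1.card + P.2.card = A.card + B.card := addDysonETransform.card a (A, B)
      have hsubset : P.1 + P.2 ⊆ A + B := addDysonETransform.subset a (A, B)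
      have hP1 : P.1 = A ∪ (a +ᵥ B) := rfl
      have hP2 : P.2 = B ∩ (-a +ᵥ A) := rfl
      have hP2sub : P.2 ⊆ B := by
        rw [hP2]
        exact inter_subset_left
      have hb2 : b ∉ P.2 := by
        rw [hP2, mem_inter]
        rintro ⟨_, h2⟩
        rw [mem_vadd_finset] at h2
        obtain ⟨c, hc, hcb⟩ := h2
        apply hab
        rw [← hcb, vadd_eq_add]
        rwa [show a + (-a + c) = c by ring]
      have hlt : P.2.card < B.card := by
        apply card_lt_card
        rw [ssubset_iff_of_subset hP2sub]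
        exact ⟨b, hb, hb2⟩
      have h02 : 0 ∈ P.2 := by
        rw [hP2, mem_inter]
        refine ⟨h0, ?_⟩
        rw [mem_vadd_finset]
        exact ⟨a, ha, by rw [vadd_eq_add]; ring⟩
      have h1 := ih P.1 P.2 (by omega) (by
        rw [hP1]
        exact hA.mono subset_union_left) h02 (fun b hb => hu b (hP2sub hb))
      rw [hcard] at h1
      exact h1.trans (card_le_card hsubset)

/-- If there is a unit of large order then few `k`-th powers suffice. -/
theorem local_of_unit {n k : ℕ} [NeZero n] (hk : 1 ≤ k) (u : (ZMod n)ˣ) (hn : n ≤ 4 * orderOf u)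
    (hn1 : 1 < n) (t : ZMod n) : ∃ x : Fin (4 * k) → ℕ, ((∑ i, x i ^ k : ℕ) : ZMod n) = t := by
  classical
  have : Fact (1 < n) := ⟨hn1⟩
  -- the `k`-th powers of powers of `u`
  set K : Finset (ZMod n) := (range (orderOf (u ^ k))).image (fun j => (((u ^ k) ^ j : (ZMod n)ˣ) : ZMod n))
    with hK
  have hKcard : K.card = orderOf (u ^ k) := by
    rw [hK, card_image_of_injOn, card_range]
    intro i hi j hj hij
    rw [coe_range, Set.mem_Iio] at hi hj
    exact pow_injOn_Iio_orderOf hi hj (Units.ext hij)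
  have hKk : n ≤ 4 * k * K.card := by
    rw [hKcard, orderOf_pow]
    have h1 : Nat.gcd (orderOf u) k ∣ orderOf u := Nat.gcd_dvd_left _ _
    have h2 : Nat.gcd (orderOf u) k ≤ k := Nat.gcd_le_right _ (by omega)
    calc n ≤ 4 * orderOf u := hn
      _ = 4 * (Nat.gcd (orderOf u) k * (orderOf u / Nat.gcd (orderOf u) k)) := by
          rw [Nat.mul_div_cancel' h1]
      _ ≤ 4 * (k * (orderOf u / Nat.gcd (orderOf u) k)) :=
          Nat.mul_le_mul_left _ (Nat.mul_le_mul_right _ h2)
      _ = 4 * k * (orderOf u / Nat.gcd (orderOf u) k) := by ring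
  have h0K : (0 : ZMod n) ∉ K := by
    intro h
    rw [hK, mem_image] at h
    obtain ⟨j, _, hj⟩ := h
    exact (Units.ne_zero _) hj
  set B : Finset (ZMod n) := insert 0 K with hB
  have hBcard : B.card = K.card + 1 := card_insert_of_notMem h0K
  have hBpow : ∀ b ∈ B, ∃ y : ℕ, ((y ^ k : ℕ) : ZMod n) = b := by
    intro b hb
    rw [hB, mem_insert] at hb
    rcases hb with rfl | hb
    · exact ⟨0, by simp [Nat.zero_pow hk]⟩
    · rw [hK, mem_image] at hb
      obtain ⟨j, _, rfl⟩ := hb
      refine ⟨((u ^ j : (ZMod n)ˣ) : ZMod n).val, ?_⟩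
      rw [Nat.cast_pow, ZMod.natCast_zmod_val]
      push_cast
      rw [← pow_mul, ← pow_mul, mul_comm]
  have hBunit : ∀ b ∈ B, b ≠ 0 → IsUnit b := by
    intro b hb hb0
    rw [hB, mem_insert] at hb
    rcases hb with rfl | hb
    · exact absurd rfl hb0
    · rw [hK, mem_image] at hb
      obtain ⟨j, _, rfl⟩ := hb
      exact Units.isUnit _
  -- the sumsets
  set A : ℕ → Finset (ZMod n) := fun s => univ.filter (fun t => ∃ x : Fin s → ℕ,
    ((∑ i, x i ^ k : ℕ) : ZMod n) = t) with hA
  have hA0 : ∀ s, (0 : ZMod n) ∈ A s := by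
    intro s
    rw [hA]
    simp only [mem_filter, mem_univ, true_and]
    exact ⟨fun _ => 0, by simp [Nat.zero_pow hk]⟩
  have hstep : ∀ s, A s + B ⊆ A (s + 1) := by
    intro s z hz
    rw [mem_add] at hz
    obtain ⟨a, ha, b, hb, rfl⟩ := hz
    rw [hA] at ha ⊢
    simp only [mem_filter, mem_univ, true_and] at ha ⊢
    obtain ⟨x, rfl⟩ := ha
    obtain ⟨y, rfl⟩ := hBpow b hb
    refine ⟨Fin.snoc x y, ?_⟩
    rw [Fin.sum_univ_castSucc]
    simp
  have hcard : ∀ s, min n (s * K.card + 1) ≤ (A s).card := by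
    intro s
    induction s with
    | zero =>
      have : 1 ≤ (A 0).card := card_pos.2 ⟨0, hA0 0⟩
      omega
    | succ s ih =>
      have h1 := chowla B.card (A s) B le_rfl ⟨0, hA0 s⟩ (mem_insert_self _ _) hBunit
      have h2 := card_le_card (hstep s)
      rw [hBcard] at h1
      have h3 : (s + 1) * K.card = s * K.card + K.card := by ring
      omega
  have h1 := hcard (4 * k)
  have h2 : (A (4 * k)).card = n := by
    apply le_antisymm
    · have := card_le_univ (A (4 * k))
      rwa [ZMod.card] at this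
    · omega
  have h3 : A (4 * k) = univ := by
    apply eq_univ_of_card
    rw [h2, ZMod.card]
  have h4 : t ∈ A (4 * k) := by
    rw [h3]
    exact mem_univ t
  rw [hA] at h4
  simp only [mem_filter, mem_univ, true_and] at h4
  exact h4

theorem exists_unit_large_order (p a : ℕ) (hp : p.Prime) (ha : 1 ≤ a) :
    ∃ u : (ZMod (p ^ a))ˣ, p ^ a ≤ 4 * orderOf u := by
  have : Fact p.Prime := ⟨hp⟩
  have : NeZero (p ^ a) := ⟨(pow_pos hp.pos a).ne'⟩
  by_cases hp2 : p = 2
  · subst hp2
    obtain h1 | h2 : a = 1 ∨ 2 ≤ a := by omega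
    · refine ⟨1, ?_⟩
      rw [h1, orderOf_one]
      norm_num
    · obtain ⟨m, rfl⟩ := Nat.exists_eq_add_of_le h2
      have h5 : IsUnit (5 : ZMod (2 ^ (2 + m))) := by
        have h6 : ((5 : ℕ) : ZMod (2 ^ (2 + m))) = 5 := by norm_num
        rw [← h6, ZMod.isUnit_iff_coprime]
        apply Nat.Coprime.pow_right
        decide
      refine ⟨h5.unit, ?_⟩
      have h7 : orderOf h5.unit = 2 ^ m := by
        rw [← orderOf_injective _ Units.coeHom_injective h5.unit, Units.coeHom_apply,
          IsUnit.unit_spec]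
        have h8 := ZMod.orderOf_five m
        rw [show 2 + m = m + 2 by ring]
        exact h8
      rw [h7, pow_add]
      norm_num
  · haveI := ZMod.isCyclic_units_of_prime_pow p hp hp2 a
    obtain ⟨u, hu⟩ := isCyclic_iff_exists_orderOf_eq_natCard.mp
      (inferInstance : IsCyclic (ZMod (p ^ a))ˣ)
    refine ⟨u, ?_⟩
    rw [hu, Nat.card_eq_fintype_card, ZMod.card_units_eq_totient, Nat.totient_prime_pow hp ha]
    obtain ⟨b, rfl⟩ := Nat.exists_eq_add_of_le ha
    have h1 : 1 + b - 1 = b := by omega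
    rw [h1, pow_add, pow_one]
    have h2 := hp.two_le
    calc p * p ^ b ≤ 4 * (p - 1) * p ^ b := Nat.mul_le_mul_right _ (by omega)
      _ = 4 * (p ^ b * (p - 1)) := by ring

/-- Every residue modulo `q` is a sum of `4 k` `k`-th powers. -/
theorem local_sum {k : ℕ} (hk : 1 ≤ k) (q : ℕ) (hq : 1 ≤ q) (t : ℕ) :
    ∃ x : Fin (4 * k) → ℕ, ∑ i, x i ^ k ≡ t [MOD q] := by
  induction q using Nat.recOnPosPrimePosCoprime generalizing t with
  | zero => omega
  | one => exact ⟨fun _ => 0, Nat.modEq_one⟩
  | prime_pow p a hp ha =>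
    have : Fact p.Prime := ⟨hp⟩
    have : NeZero (p ^ a) := ⟨(pow_pos hp.pos a).ne'⟩
    obtain ⟨u, hu⟩ := exists_unit_large_order p a hp ha
    obtain ⟨x, hx⟩ := local_of_unit hk u hu (Nat.one_lt_pow ha.ne' hp.one_lt) (t : ZMod (p ^ a))
    exact ⟨x, (ZMod.natCast_eq_natCast_iff _ _ _).1 hx⟩
  | coprime a b ha hb hab iha ihb =>
    obtain ⟨x, hx⟩ := iha (by omega) t
    obtain ⟨y, hy⟩ := ihb (by omega) t
    refine ⟨fun i => (Nat.chineseRemainder hab (x i) (y i) : ℕ), ?_⟩
    rw [← Nat.modEq_and_modEq_iff_modEq_mul hab]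
    constructor
    · refine Nat.ModEq.trans ?_ hx
      apply Nat.ModEq.sum
      intro i _
      exact ((Nat.chineseRemainder hab (x i) (y i)).2.1).pow k
    · refine Nat.ModEq.trans ?_ hy
      apply Nat.ModEq.sum
      intro i _
      exact ((Nat.chineseRemainder hab (x i) (y i)).2.2).pow k

end Pool.Agent.Lib.MP_570bef_nt
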