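import Pool.Agent.Lib.MP_570bef_nt.Cyc
import Pool.Agent.Lib.MP_570bef_nt.Local

/-!
# A set with positive density in short intervals, plus few `k`-th powers, is almost everything
-/

set_option autoImplicit false

namespace Pool.Agent.Lib.MP_570bef_nt

open Finset RealInnerProductSpace

/-- Uniformly bounded representatives of the residue classes. -/
theorem exists_reps {k : ℕ} (hk : 1 ≤ k) (Q : ℕ) : ∃ C : ℕ, ∀ q, 1 ≤ q → q ≤ Q → ∀ t, t < q →
    ∃ j, IsSum k (4 * k) (t + q * j) ∧ t + q * j ≤ C := by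
  have h : ∀ q t : ℕ, ∃ j, 1 ≤ q → t < q → IsSum k (4 * k) (t + q * j) := by
    intro q t
    by_cases hq : 1 ≤ q ∧ t < q
    · obtain ⟨x, hx⟩ := local_sum hk q hq.1 t
      refine ⟨(∑ i, x i ^ k) / q, fun _ _ => ?_⟩
      have h1 : (∑ i, x i ^ k) % q = t := by
        rw [hx]
        exact Nat.mod_eq_of_lt hq.2
      have h2 : t + q * ((∑ i, x i ^ k) / q) = ∑ i, x i ^ k := by
        have := Nat.mod_add_div (∑ i, x i ^ k) q
        rwa [h1] at this
      rw [h2]
      exact ⟨x, rfl⟩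
    · exact ⟨0, fun h1 h2 => absurd ⟨h1, h2⟩ hq⟩
  choose J hJ using h
  refine ⟨∑ q ∈ range (Q + 1), ∑ t ∈ range (Q + 1), (t + q * J q t), ?_⟩
  intro q hq hqQ t ht
  refine ⟨J q t, hJ q t hq ht, ?_⟩
  calc t + q * J q t ≤ ∑ t ∈ range (Q + 1), (t + q * J q t) :=
        single_le_sum (f := fun t => t + q * J q t) (fun _ _ => Nat.zero_le _)
          (mem_range.2 (by omega))
    _ ≤ _ := single_le_sum (f := fun q => ∑ t ∈ range (Q + 1), (t + q * J q t))
          (fun _ _ => Nat.zero_le _) (mem_range.2 (by omega))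

theorem sum_blocks (f : ℕ → ℝ) (q : ℕ) : ∀ l : ℕ,
    ∑ j ∈ range (q * l), f j = ∑ t ∈ range q, ∑ y ∈ range l, f (t + q * y) := by
  intro l
  induction l with
  | zero => simp
  | succ l ih =>
    rw [Nat.mul_succ, Finset.sum_range_add, ih]
    simp_rw [sum_range_succ]
    rw [sum_add_distrib]
    congr 1
    apply sum_congr rfl
    intro t _
    rw [add_comm]

theorem count_blocks {B : Set ℕ} [DecidablePred (· ∈ B)] {d : ℝ} {w R : ℕ}
    (h : ∀ i ≤ R, d ≤ (((Ico i (i + w)).filter (· ∈ B)).card : ℝ)) : ∀ j i : ℕ, i + w * j ≤ R →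
    j * d ≤ (((Ico i (i + w * j)).filter (· ∈ B)).card : ℝ) := by
  intro j
  induction j with
  | zero =>
    intro i _
    simp
  | succ j ih =>
    intro i hi
    have h1 := ih i (by
      rw [Nat.mul_succ] at hi
      omega)
    have h2 := h (i + w * j) (by
      rw [Nat.mul_succ] at hi
      omega)
    have h3 : (Ico i (i + w * (j + 1))).filter (· ∈ B) =
        (Ico i (i + w * j)).filter (· ∈ B) ∪ (Ico (i + w * j) (i + w * j + w)).filter (· ∈ B) := by
      rw [← filter_union]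
      congr 1
      rw [Ico_union_Ico_eq_Ico (by omega) (by omega), Nat.mul_succ, add_assoc]
    have h4 : Disjoint ((Ico i (i + w * j)).filter (· ∈ B))
        ((Ico (i + w * j) (i + w * j + w)).filter (· ∈ B)) := by
      apply disjoint_filter_filter
      exact Ico_disjoint_Ico_consecutive _ _ _
    rw [h3, card_union_of_disjoint h4]
    push_cast
    linarith

/-- Counting backwards from `m`. -/
theorem count_back {B : Set ℕ} [DecidablePred (· ∈ B)] {δ a : ℝ} {lam R r : ℕ} (hδ : 0 ≤ δ)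
    (ha : 0 ≤ a) (hlam : 1 ≤ lam)
    (h : ∀ i ≤ R, δ * lam ≤ (((Ico i (i + 2 * lam)).filter (· ∈ B)).card : ℝ))
    (hr : 4 * lam ≤ r) {m : ℕ} (hm1 : r ≤ m) (hm2 : m < R) :
    δ / 8 * a * r ≤ ∑ j ∈ range r, (if m - j ∈ B then a else 0) := by
  set j₀ := r / (2 * lam) with hj₀
  have hlam0 : (0 : ℝ) < lam := by exact_mod_cast hlam
  have h1 : 2 * lam * j₀ ≤ r := Nat.mul_div_le r (2 * lam)
  have h2 : r < 2 * lam * (j₀ + 1) := Nat.lt_mul_div_succ r (by omega)
  have h3 := count_blocks h j₀ (m + 1 - r) (by omega)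
  have h4 : ((Ico (m + 1 - r) (m + 1 - r + 2 * lam * j₀)).filter (· ∈ B)).card ≤
      ((range r).filter (fun j => m - j ∈ B)).card := by
    apply card_le_card_of_injOn (fun i => m - i)
    · intro i hi
      obtain ⟨hi1, hi2⟩ := mem_filter.1 (mem_coe.1 hi)
      rw [mem_Ico] at hi1
      refine mem_coe.2 (mem_filter.2 ⟨mem_range.2 (show m - i < r by omega), ?_⟩)
      show m - (m - i) ∈ B
      rw [show m - (m - i) = i by omega]
      exact hi2
    · intro i hi j hj hij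
      have hi1 := mem_Ico.1 (mem_filter.1 (mem_coe.1 hi)).1
      have hj1 := mem_Ico.1 (mem_filter.1 (mem_coe.1 hj)).1
      have hij' : m - i = m - j := hij
      omega
  have h5 : (r : ℝ) / 8 ≤ j₀ * lam := by
    have h6 : (r : ℝ) ≤ 2 * lam * (j₀ + 1) := by exact_mod_cast h2.le
    have h7 : (4 : ℝ) * lam ≤ r := by exact_mod_cast hr
    linarith
  have h6 : ∑ j ∈ range r, (if m - j ∈ B then a else 0) =
      ((range r).filter (fun j => m - j ∈ B)).card * a := by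
    rw [← sum_filter, sum_const, nsmul_eq_mul]
  rw [h6]
  have h7 : δ / 8 * r ≤ ((range r).filter (fun j => m - j ∈ B)).card := by
    calc δ / 8 * r = δ * (r / 8) := by ring
      _ ≤ δ * (j₀ * lam) := mul_le_mul_of_nonneg_left h5 hδ
      _ = j₀ * (δ * lam) := by ring
      _ ≤ (((Ico (m + 1 - r) (m + 1 - r + 2 * lam * j₀)).filter (· ∈ B)).card : ℝ) := h3
      _ ≤ _ := by exact_mod_cast h4
  calc δ / 8 * a * r = δ / 8 * r * a := by ring
    _ ≤ _ := mul_le_mul_of_nonneg_right h7 ha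

variable {N : ℕ} [NeZero N]

theorem ev_T (D : ℤ) (l : ℕ) (b : (cyc N).E) (n : ZMod N) :
    ev ((cyc N).T D l b) n =
      (l : ℝ)⁻¹ * ∑ y ∈ range l, (l : ℝ)⁻¹ * ∑ y' ∈ range l, ev b (n + D * y - D * y') := by
  rw [Sys.T_apply]
  unfold Sys.M
  rw [ev_A]
  congr 1
  apply sum_congr rfl
  intro y _
  rw [ev_A]
  congr 1
  apply sum_congr rfl
  intro y' _
  exact congrArg (ev b) (by push_cast; ring)

theorem ev_T_nonneg {b : (cyc N).E} (hb : ∀ n, 0 ≤ ev b n) (D : ℤ) (l : ℕ) (n : ZMod N) :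
    0 ≤ ev ((cyc N).T D l b) n := by
  rw [ev_T]
  apply mul_nonneg (by positivity)
  apply sum_nonneg
  intro y _
  apply mul_nonneg (by positivity)
  apply sum_nonneg
  intro y' _
  exact hb _

theorem lower_sum {R q l : ℕ} (hl : 1 ≤ l) {B : Set ℕ}
    [DecidablePred (· ∈ B)] {a c : ℝ} (b : (cyc N).E)
    (hb : ∀ n : ℕ, n < R → ev b (n : ZMod N) = if n ∈ B then a else 0)
    (hc : ∀ m, q * l ≤ m → m < R →
      c * ((q * l : ℕ) : ℝ) ≤ ∑ j ∈ range (q * l), (if m - j ∈ B then a else 0))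
    {n : ℕ} (hn : q * l ≤ n) (hn2 : n + q * l ≤ R) :
    c * q ≤ ∑ t ∈ range q, ev ((cyc N).U (t : ℤ) ((cyc N).T (q : ℤ) l b)) (n : ZMod N) := by
  have hl0 : (0 : ℝ) < l := by exact_mod_cast hl
  have h1 : ∑ t ∈ range q, ev ((cyc N).U (t : ℤ) ((cyc N).T (q : ℤ) l b)) (n : ZMod N) =
      (l : ℝ)⁻¹ * ∑ y ∈ range l, (l : ℝ)⁻¹ *
        ∑ j ∈ range (q * l), ev b (((n + q * y : ℕ) : ZMod N) - (j : ℕ)) := by
    simp_rw [ev_U, ev_T, sum_blocks]
    rw [← mul_sum, sum_comm]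
    congr 1
    apply sum_congr rfl
    intro y _
    rw [← mul_sum]
    congr 1
    apply sum_congr rfl
    intro t _
    apply sum_congr rfl
    intro y' _
    exact congrArg (ev b) (by push_cast; ring)
  rw [h1, inv_mul_eq_div, le_div_iff₀ hl0]
  have h2 : ∀ y ∈ range l, c * q ≤ (l : ℝ)⁻¹ *
      ∑ j ∈ range (q * l), ev b (((n + q * y : ℕ) : ZMod N) - (j : ℕ)) := by
    intro y hy
    rw [mem_range] at hy
    have hqy : q * y + q ≤ q * l := by
      rw [← Nat.mul_succ]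
      exact Nat.mul_le_mul_left q hy
    rcases Nat.eq_zero_or_pos q with hq0 | hq0
    · subst hq0
      simp
    rw [inv_mul_eq_div, le_div_iff₀ hl0]
    have h3 := hc (n + q * y) (by omega) (by omega)
    push_cast at h3 ⊢
    rw [mul_assoc]
    refine h3.trans (le_of_eq ?_)
    apply sum_congr rfl
    intro j hj
    rw [mem_range] at hj
    rw [← hb (n + q * y - j) (by omega), Nat.cast_sub (by omega)]
    push_cast
    rfl
  have h3 := card_nsmul_le_sum (range l) _ (c * q) h2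
  rw [card_range, nsmul_eq_mul] at h3
  linarith

theorem norm_le_one_of_bdd {a : ℝ} (ha : a ^ 2 * N = 1) (v : (cyc N).E)
    (hv : ∀ n, ev v n ^ 2 ≤ a ^ 2) : ‖v‖ ≤ 1 := by
  have h1 : ‖v‖ ^ 2 ≤ 1 := by
    rw [norm_sq_ev]
    refine (sum_le_card_nsmul univ _ (a ^ 2) fun n _ => hv n).trans (le_of_eq ?_)
    rw [card_univ, ZMod.card, nsmul_eq_mul, mul_comm]
    exact ha
  exact (sq_le_one_iff₀ (norm_nonneg _)).1 h1

/-- The upper bound. -/
theorem upper {k R q l Y j t : ℕ} {ε : ℝ} (hRN : 2 * R ≤ N) (hl : 1 ≤ l)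
    (b z : (cyc N).E) (hb1 : ‖b‖ ≤ 1) (hz1 : ‖z‖ ≤ 1) (B : Set ℕ) (Z : Finset ℕ)
    (hb : ∀ i : ZMod N, ev b i ≠ 0 → i.val ∈ B ∧ i.val < R)
    (hz : ∀ i : ZMod N, ev z i ≠ 0 → i.val ∈ Z)
    (hZR : ∀ n ∈ Z, n < R)
    (hZ : ∀ n ∈ Z, ¬ ∃ b ∈ B, ∃ e, IsSum k (4 * k + 1) e ∧ n = b + e)
    (hclose : ‖(cyc N).A (fun y => ((q : ℤ) * y) ^ k) Y b - (cyc N).T (q : ℤ) l b‖ ≤ ε)
    (hsum : IsSum k (4 * k) (t + q * j)) (hsize : t + q * j + (q * Y) ^ k ≤ R)
    (hj : 2 * (j : ℝ) / l ≤ ε) :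
    ⟪(cyc N).U (t : ℤ) ((cyc N).T (q : ℤ) l b), z⟫ ≤ 2 * ε := by
  set V := (cyc N).T (q : ℤ) l b with hV
  set AA := (cyc N).A (fun y => ((q : ℤ) * y) ^ k) Y b with hAA
  set ρ : ℕ := t + q * j with hρ
  have h1 : ⟪(cyc N).U (ρ : ℤ) AA, z⟫ = 0 := by
    rw [inner_ev]
    apply sum_eq_zero
    intro n _
    by_cases hzn : ev z n = 0
    · rw [hzn, mul_zero]
    have hnZ := hz n hzn
    rw [ev_U, hAA, ev_A]
    have h2 : ∑ y ∈ range Y, ev b (n - ((ρ : ℤ) : ZMod N) - ((((q : ℤ) * y) ^ k : ℤ) : ZMod N)) =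
        0 := by
      apply sum_eq_zero
      intro y hy
      rw [mem_range] at hy
      by_contra hne
      set i : ZMod N := n - ((ρ : ℤ) : ZMod N) - ((((q : ℤ) * y) ^ k : ℤ) : ZMod N) with hi
      obtain ⟨hiB, hiR⟩ := hb i hne
      apply hZ n.val hnZ
      refine ⟨i.val, hiB, ρ + (q * y) ^ k, hsum.add (isSum_pow k _), ?_⟩
      have h3 : ((n.val : ℕ) : ZMod N) = ((i.val + (ρ + (q * y) ^ k) : ℕ) : ZMod N) := by
        push_cast
        rw [ZMod.natCast_zmod_val, ZMod.natCast_zmod_val, hi]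
        push_cast
        ring
      rw [ZMod.natCast_eq_natCast_iff'] at h3
      have h4 : (q * y) ^ k ≤ (q * Y) ^ k :=
        Nat.pow_le_pow_left (Nat.mul_le_mul_left q hy.le) k
      have h5 : n.val < R := hZR _ hnZ
      rwa [Nat.mod_eq_of_lt (by omega), Nat.mod_eq_of_lt (by omega)] at h3
    rw [h2, mul_zero, zero_mul]
  have h2 : ⟪(cyc N).U (ρ : ℤ) V, z⟫ ≤ ε := by
    have h3 : ⟪(cyc N).U (ρ : ℤ) V, z⟫ = -⟪(cyc N).U (ρ : ℤ) (AA - V), z⟫ := by
      rw [map_sub, inner_sub_left, h1]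
      ring
    rw [h3]
    have h4 := abs_real_inner_le_norm ((cyc N).U (ρ : ℤ) (AA - V)) z
    have h5 := neg_abs_le ⟪(cyc N).U (ρ : ℤ) (AA - V), z⟫
    rw [Sys.norm_U] at h4
    have h6 : ‖AA - V‖ * ‖z‖ ≤ ε * 1 :=
      mul_le_mul hclose hz1 (norm_nonneg _) ((norm_nonneg _).trans hclose)
    linarith
  have h3 : ‖(cyc N).U (t : ℤ) V - (cyc N).U (ρ : ℤ) V‖ ≤ ε := by
    have h4 : (cyc N).U (ρ : ℤ) V = (cyc N).U (t : ℤ) ((cyc N).U ((q : ℤ) * (j : ℤ)) V) := by
      rw [← (cyc N).U_add]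
      rw [hρ]
      push_cast
      rfl
    rw [h4, ← map_sub, Sys.norm_U, norm_sub_rev]
    refine (Sys.shift_T _ _ _ _).trans ?_
    rw [Int.cast_natCast, Nat.abs_cast]
    refine le_trans ?_ hj
    exact mul_le_of_le_one_right (by positivity) hb1
  have h4 : ⟪(cyc N).U (t : ℤ) V, z⟫ = ⟪(cyc N).U (ρ : ℤ) V, z⟫ +
      ⟪(cyc N).U (t : ℤ) V - (cyc N).U (ρ : ℤ) V, z⟫ := by
    rw [inner_sub_left]
    ring
  have h5 := real_inner_le_norm ((cyc N).U (t : ℤ) V - (cyc N).U (ρ : ℤ) V) z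
  have h6 : ‖(cyc N).U (t : ℤ) V - (cyc N).U (ρ : ℤ) V‖ * ‖z‖ ≤ ε * 1 :=
    mul_le_mul h3 hz1 (norm_nonneg _) ((norm_nonneg _).trans h3)
  linarith

open scoped Classical in
/-- A set with positive density in short intervals, plus few `k`-th powers, is almost
everything. -/
theorem fill (k : ℕ) (hk : 1 ≤ k) (δ : ℝ) (hδ : 0 < δ) (hδ1 : δ ≤ 1) (E : ℕ) (hE : 1 ≤ E) :
    ∃ K₁ lam₀ : ℕ, 32 ≤ K₁ ∧ ∀ lam ≥ lam₀, ∀ B : Set ℕ,
      (∀ i ≤ K₁ * lam, δ * lam ≤ (((Ico i (i + 2 * lam)).filter (· ∈ B)).card : ℝ)) →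
      E * ((range (K₁ * lam)).filter
        (fun n => ¬ ∃ b ∈ B, ∃ e, IsSum k (4 * k + 1) e ∧ n = b + e)).card ≤ K₁ * lam := by
  have hE1 : (1 : ℝ) ≤ E := by exact_mod_cast hE
  have hE0 : (0 : ℝ) < E := by linarith
  have hε1 : δ / (64 * E) ≤ 1 := by
    rw [div_le_one (by positivity)]
    linarith
  obtain ⟨Q, L₀, θ, hQ, hθ, hθ1, hst⟩ := stage k hk (δ / (64 * E)) (by positivity) hε1
  set ε : ℝ := δ / (64 * E) with hε
  have hε0 : 0 < ε := by positivity
  obtain ⟨C, hC⟩ := exists_reps hk Q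
  set c₁ : ℕ := ⌈4 / θ⌉₊ with hc₁
  have hc₁θ : 4 ≤ θ * c₁ := by
    have h1 := Nat.le_ceil (4 / θ)
    rw [div_le_iff₀ hθ] at h1
    linarith
  have hc₁1 : 1 ≤ c₁ := Nat.one_le_ceil_iff.2 (by positivity)
  have hc₁4 : 4 ≤ c₁ := by
    have h1 : (4 : ℝ) ≤ c₁ := hc₁θ.trans (mul_le_of_le_one_left (Nat.cast_nonneg _) hθ1)
    exact_mod_cast h1
  refine ⟨8 * E * Q * c₁, L₀ + C + ⌈2 * C / ε⌉₊ + 1, ?_, ?_⟩
  · have : 1 * 4 ≤ (E * Q) * c₁ := Nat.mul_le_mul (Nat.mul_pos hE hQ) hc₁4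
    rw [mul_assoc 8 E Q, mul_assoc]
    omega
  intro lam hlam B hB
  by_contra hcon
  rw [not_le] at hcon
  have hlam1 : 1 ≤ lam := by omega
  set L : ℕ := c₁ * lam with hL
  have hlamL : lam ≤ L := Nat.le_mul_of_pos_left _ hc₁1
  set R : ℕ := 8 * E * Q * c₁ * lam with hR
  have hRL : R = E * (8 * (Q * L)) := by rw [hR, hL]; ring
  have hLQL : L ≤ Q * L := Nat.le_mul_of_pos_left _ hQ
  have hR8 : 8 * (Q * L) ≤ R := by
    rw [hRL]
    exact Nat.le_mul_of_pos_left _ hE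
  have hR1 : 1 ≤ R := by omega
  set Z : Finset ℕ := (range R).filter
    (fun n => ¬ ∃ b ∈ B, ∃ e, IsSum k (4 * k + 1) e ∧ n = b + e) with hZ
  have hZcard : 8 * (Q * L) < Z.card := by
    have h1 : E * (8 * (Q * L)) < E * Z.card := by
      rw [← hRL]
      exact hcon
    exact Nat.lt_of_mul_lt_mul_left h1
  have : NeZero (2 * R) := ⟨by omega⟩
  set N : ℕ := 2 * R with hN
  have hN0 : (0 : ℝ) < N := by
    have : 0 < N := by omega
    exact_mod_cast this
  set a : ℝ := (Real.sqrt N)⁻¹ with ha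
  have ha0 : 0 < a := by positivity
  have ha2 : a ^ 2 * N = 1 := by
    rw [ha, inv_pow, Real.sq_sqrt hN0.le, inv_mul_cancel₀ hN0.ne']
  set b : (cyc N).E := mk (fun i => if i.val ∈ B ∧ i.val < R then a else 0) with hb
  set z : (cyc N).E := mk (fun i => if i.val ∈ Z then a else 0) with hz
  have hevb : ∀ i, ev b i = if i.val ∈ B ∧ i.val < R then a else 0 := fun i => rfl
  have hevz : ∀ i, ev z i = if i.val ∈ Z then a else 0 := fun i => rfl
  have hb1 : ‖b‖ ≤ 1 := by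
    apply norm_le_one_of_bdd ha2
    intro n
    rw [hevb]
    split_ifs
    · exact le_rfl
    · rw [zero_pow two_ne_zero]
      positivity
  have hz1 : ‖z‖ ≤ 1 := by
    apply norm_le_one_of_bdd ha2
    intro n
    rw [hevz]
    split_ifs
    · exact le_rfl
    · rw [zero_pow two_ne_zero]
      positivity
  obtain ⟨q, l, Y, hq1, hqQ, hθl, hlL, hY, hqY, hclose⟩ := hst (cyc N) b hb1 L (by omega)
  -- sizes
  have hlam0 : (0 : ℝ) < lam := by exact_mod_cast hlam1
  have hl4 : 4 * lam ≤ l := by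
    have h1 : (4 : ℝ) * lam ≤ l := by
      refine le_trans ?_ hθl
      rw [hL]
      push_cast
      calc (4 : ℝ) * lam ≤ θ * c₁ * lam := mul_le_mul_of_nonneg_right hc₁θ hlam0.le
        _ = θ * (c₁ * lam) := by ring
    exact_mod_cast h1
  have hl1 : 1 ≤ l := by omega
  have hl0 : (0 : ℝ) < l := by exact_mod_cast hl1
  have hqR : (1 : ℝ) ≤ q := by exact_mod_cast hq1
  have hqlQL : q * l ≤ Q * L := Nat.mul_le_mul hqQ hlL
  have hlql : l ≤ q * l := Nat.le_mul_of_pos_left _ hq1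
  have hqYl : (q * Y) ^ k ≤ l := by
    have h1 : (((q * Y) ^ k : ℕ) : ℝ) ≤ l := by
      push_cast
      rw [mul_pow]
      refine hqY.trans ?_
      exact mul_le_of_le_one_left hl0.le (by linarith)
    exact_mod_cast h1
  -- the upper bound
  have hupper : ∑ t ∈ range q, ⟪(cyc N).U (t : ℤ) ((cyc N).T (q : ℤ) l b), z⟫ ≤
      q * (2 * ε) := by
    have h1 : ∀ t ∈ range q, ⟪(cyc N).U (t : ℤ) ((cyc N).T (q : ℤ) l b), z⟫ ≤ 2 * ε := by
      intro t ht
      rw [mem_range] at ht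
      obtain ⟨j, hsum, hle⟩ := hC q hq1 hqQ t ht
      refine upper (k := k) (R := R) (Y := Y) (j := j) le_rfl hl1 b z hb1 hz1 B Z
        ?_ ?_ ?_ ?_ hclose hsum ?_ ?_
      · intro i hi
        by_contra hno
        apply hi
        rw [hevb, if_neg hno]
      · intro i hi
        by_contra hno
        apply hi
        rw [hevz, if_neg hno]
      · intro n hn
        exact mem_range.1 (mem_filter.1 hn).1
      · intro n hn
        exact (mem_filter.1 hn).2
      · omega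
      · rw [div_le_iff₀ hl0]
        have h2 : (2 * (C : ℝ)) / ε ≤ lam := by
          have h3 := Nat.le_ceil (2 * (C : ℝ) / ε)
          have h4 : ((⌈2 * (C : ℝ) / ε⌉₊ : ℕ) : ℝ) ≤ lam := by
            have : ⌈2 * (C : ℝ) / ε⌉₊ ≤ lam := by omega
            exact_mod_cast this
          linarith
        rw [div_le_iff₀ hε0] at h2
        have h3 : (j : ℝ) ≤ C := by
          have h4 : j ≤ q * j := Nat.le_mul_of_pos_left _ hq1
          have : j ≤ C := by omega
          exact_mod_cast this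
        have h4 : (lam : ℝ) ≤ l := by
          have : lam ≤ l := by omega
          exact_mod_cast this
        calc 2 * (j : ℝ) ≤ 2 * C := by linarith
          _ ≤ lam * ε := h2
          _ ≤ l * ε := mul_le_mul_of_nonneg_right h4 hε0.le
          _ = ε * l := mul_comm _ _
    refine (sum_le_card_nsmul _ _ _ h1).trans (le_of_eq ?_)
    rw [card_range, nsmul_eq_mul]
  -- the lower bound
  set Zm : Finset ℕ := Z.filter (fun n => q * l ≤ n ∧ n + q * l ≤ R) with hZm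
  have hZmcard : 6 * (Q * L) < Zm.card := by
    have h1 : Z ⊆ Zm ∪ (range (q * l) ∪ Ico (R - q * l) R) := by
      intro n hn
      rw [mem_union, mem_union, mem_range, mem_Ico, hZm, mem_filter]
      have h2 := mem_range.1 (mem_filter.1 hn).1
      by_cases h3 : q * l ≤ n ∧ n + q * l ≤ R
      · exact Or.inl ⟨hn, h3⟩
      · right
        omega
    have h2 := card_le_card h1
    have h3 := card_union_le Zm (range (q * l) ∪ Ico (R - q * l) R)
    have h4 := card_union_le (range (q * l)) (Ico (R - q * l) R)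
    rw [card_range, Nat.card_Ico] at h4
    omega
  have hlower : (Zm.card : ℝ) * (δ / 8 * a * q * a) ≤
      ∑ t ∈ range q, ⟪(cyc N).U (t : ℤ) ((cyc N).T (q : ℤ) l b), z⟫ := by
    have hbn : ∀ n, 0 ≤ ev b n := by
      intro n
      rw [hevb]
      split_ifs
      · exact ha0.le
      · exact le_rfl
    have hzn : ∀ n, 0 ≤ ev z n := by
      intro n
      rw [hevz]
      split_ifs
      · exact ha0.le
      · exact le_rfl
    simp_rw [inner_ev]
    rw [sum_comm]
    simp_rw [← sum_mul]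
    have hterm : ∀ n : ZMod N, 0 ≤
        (∑ t ∈ range q, ev ((cyc N).U (t : ℤ) ((cyc N).T (q : ℤ) l b)) n) * ev z n := by
      intro n
      apply mul_nonneg _ (hzn n)
      apply sum_nonneg
      intro t _
      rw [ev_U]
      exact ev_T_nonneg hbn _ _ _
    have hinj : Set.InjOn (fun n : ℕ => (n : ZMod N)) (Zm : Set ℕ) := by
      intro n hn m hm hnm
      have h1 := mem_range.1 (mem_filter.1 (mem_filter.1 (mem_coe.1 hn)).1).1
      have h2 := mem_range.1 (mem_filter.1 (mem_filter.1 (mem_coe.1 hm)).1).1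
      have h3 : ((n : ℕ) : ZMod N) = ((m : ℕ) : ZMod N) := hnm
      rw [ZMod.natCast_eq_natCast_iff', Nat.mod_eq_of_lt (by omega),
        Nat.mod_eq_of_lt (by omega)] at h3
      exact h3
    have h1 : ∑ n ∈ Zm.image (fun n : ℕ => (n : ZMod N)),
        (∑ t ∈ range q, ev ((cyc N).U (t : ℤ) ((cyc N).T (q : ℤ) l b)) n) * ev z n ≤
        ∑ n, (∑ t ∈ range q, ev ((cyc N).U (t : ℤ) ((cyc N).T (q : ℤ) l b)) n) * ev z n :=
      sum_le_univ_sum_of_nonneg hterm
    refine le_trans ?_ h1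
    rw [sum_image hinj]
    have h2 : ∀ n ∈ Zm, δ / 8 * a * q * a ≤
        (∑ t ∈ range q, ev ((cyc N).U (t : ℤ) ((cyc N).T (q : ℤ) l b)) ((n : ℕ) : ZMod N)) *
          ev z ((n : ℕ) : ZMod N) := by
      intro n hn
      obtain ⟨hnZ, hn1, hn2⟩ := mem_filter.1 hn
      have hnR := mem_range.1 (mem_filter.1 hnZ).1
      have hval : ((n : ℕ) : ZMod N).val = n := by
        rw [ZMod.val_natCast]
        exact Nat.mod_eq_of_lt (by omega)
      have hzval : ev z ((n : ℕ) : ZMod N) = a := by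
        rw [hevz, hval, if_pos hnZ]
      rw [hzval]
      apply mul_le_mul_of_nonneg_right _ ha0.le
      apply lower_sum (R := R) (B := B) (a := a) hl1 b
      · intro m hm
        have hval : ((m : ℕ) : ZMod N).val = m := by
          rw [ZMod.val_natCast]
          exact Nat.mod_eq_of_lt (by omega)
        rw [hevb, hval]
        by_cases hmB : m ∈ B
        · rw [if_pos ⟨hmB, hm⟩, if_pos hmB]
        · rw [if_neg (fun h => hmB h.1), if_neg hmB]
      · intro m hm1 hm2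
        exact count_back hδ.le ha0.le hlam1 hB (by omega) hm1 hm2
      · exact hn1
      · exact hn2
    have h3 := card_nsmul_le_sum Zm _ _ h2
    rwa [nsmul_eq_mul] at h3
  have hfin : (Zm.card : ℝ) * (δ / 8 * a * q * a) ≤ q * (2 * ε) := hlower.trans hupper
  have hZmR : (6 : ℝ) * (Q * L) < Zm.card := by exact_mod_cast hZmcard
  have hNR : (N : ℝ) = 16 * (E * (Q * L)) := by
    have : N = 16 * (E * (Q * L)) := by
      rw [hN, hRL]
      ring
    exact_mod_cast this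
  have hq0 : (0 : ℝ) < q := by linarith
  have h1 : E * ((Zm.card : ℝ) * a ^ 2) ≤ 1 / 4 := by
    rw [hε] at hfin
    have h2 : (Zm.card : ℝ) * (δ / 8 * a * q * a) = (Zm.card : ℝ) * a ^ 2 * (q * (δ / 8)) := by
      ring
    have h3 : (q : ℝ) * (2 * (δ / (64 * E))) = 1 / (4 * E) * (q * (δ / 8)) := by
      field_simp
      ring
    rw [h2, h3] at hfin
    have h4 := le_of_mul_le_mul_right hfin (by positivity)
    rw [le_div_iff₀ (by positivity)] at h4
    linarith
  have h2 : E * ((6 : ℝ) * (Q * L) * a ^ 2) < E * (Zm.card * a ^ 2) :=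
    mul_lt_mul_of_pos_left (mul_lt_mul_of_pos_right hZmR (by positivity)) hE0
  rw [hNR] at ha2
  nlinarith

end Pool.Agent.Lib.MP_570bef_nt
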