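import Pool.Agent.Lib.MP_570bef_nt.Hil

/-!
# Averages along many progressions with differences `E d`, `d < H`
-/

set_option autoImplicit false

namespace Pool.Agent.Lib.MP_570bef_nt

open Finset RealInnerProductSpace

theorem card_gcd_gt {H W : ℕ} (hW : 1 ≤ W) :
    ((((Ico 1 H) ×ˢ (Ico 1 H)).filter (fun p => W < Nat.gcd p.1 p.2)).card : ℝ) ≤
      (H : ℝ) ^ 2 / W := by
  have hW0 : (0 : ℝ) < W := by exact_mod_cast hW
  have h1 : ((Ico 1 H) ×ˢ (Ico 1 H)).filter (fun p => W < Nat.gcd p.1 p.2) ⊆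
      (Ioc W H).biUnion (fun w => ((Ico 1 H).filter (w ∣ ·)) ×ˢ ((Ico 1 H).filter (w ∣ ·))) := by
    intro p hp
    rw [mem_filter, mem_product, mem_Ico, mem_Ico] at hp
    rw [mem_biUnion]
    refine ⟨Nat.gcd p.1 p.2, ?_, ?_⟩
    · rw [mem_Ioc]
      refine ⟨hp.2, ?_⟩
      have := Nat.gcd_le_left p.2 (show 0 < p.1 by omega)
      omega
    · rw [mem_product, mem_filter, mem_filter, mem_Ico, mem_Ico]
      exact ⟨⟨hp.1.1, Nat.gcd_dvd_left _ _⟩, ⟨hp.1.2, Nat.gcd_dvd_right _ _⟩⟩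
  have h2 : (((Ico 1 H) ×ˢ (Ico 1 H)).filter (fun p => W < Nat.gcd p.1 p.2)).card ≤
      ∑ w ∈ Ioc W H, (H / w) * (H / w) := by
    refine (card_le_card h1).trans (card_biUnion_le.trans ?_)
    apply sum_le_sum
    intro w _
    rw [card_product]
    have h3 : ((Ico 1 H).filter (w ∣ ·)).card ≤ H / w := by
      rw [← Nat.Ioc_filter_dvd_card_eq_div H w]
      apply card_le_card
      intro x hx
      rw [mem_filter, mem_Ico] at hx
      rw [mem_filter, mem_Ioc]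
      exact ⟨⟨by omega, by omega⟩, hx.2⟩
    exact Nat.mul_le_mul h3 h3
  rcases le_or_gt W H with hWH | hWH
  · have h3 : ((∑ w ∈ Ioc W H, (H / w) * (H / w) : ℕ) : ℝ) ≤
        ∑ w ∈ Ioc W H, (H : ℝ) ^ 2 * ((w : ℝ) ^ 2)⁻¹ := by
      push_cast
      apply sum_le_sum
      intro w _
      have h4 : ((H / w : ℕ) : ℝ) ≤ (H : ℝ) / w := Nat.cast_div_le
      have h5 : (0 : ℝ) ≤ ((H / w : ℕ) : ℝ) := Nat.cast_nonneg _
      calc ((H / w : ℕ) : ℝ) * ((H / w : ℕ) : ℝ) ≤ ((H : ℝ) / w) * ((H : ℝ) / w) :=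
            mul_le_mul h4 h4 h5 (h5.trans h4)
        _ = (H : ℝ) ^ 2 * ((w : ℝ) ^ 2)⁻¹ := by
            rw [div_mul_div_comm, ← pow_two, ← pow_two, div_eq_mul_inv]
    have h4 := sum_Ioc_inv_sq_le_sub (α := ℝ) (show W ≠ 0 by omega) hWH
    have h5 : (0 : ℝ) ≤ (H : ℝ)⁻¹ := by positivity
    calc ((((Ico 1 H) ×ˢ (Ico 1 H)).filter (fun p => W < Nat.gcd p.1 p.2)).card : ℝ)
        ≤ ((∑ w ∈ Ioc W H, (H / w) * (H / w) : ℕ) : ℝ) := by exact_mod_cast h2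
      _ ≤ ∑ w ∈ Ioc W H, (H : ℝ) ^ 2 * ((w : ℝ) ^ 2)⁻¹ := h3
      _ = (H : ℝ) ^ 2 * ∑ w ∈ Ioc W H, ((w : ℝ) ^ 2)⁻¹ := by rw [mul_sum]
      _ ≤ (H : ℝ) ^ 2 * ((W : ℝ)⁻¹) := by
          apply mul_le_mul_of_nonneg_left _ (by positivity)
          linarith
      _ = (H : ℝ) ^ 2 / W := by rw [div_eq_mul_inv]
  · rw [Ioc_eq_empty (by omega), sum_empty] at h2
    have h3 : (((Ico 1 H) ×ˢ (Ico 1 H)).filter (fun p => W < Nat.gcd p.1 p.2)).card = 0 := by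
      omega
    rw [h3]
    push_cast
    positivity

/-- Bounded solutions of `a r + a' r' = m` for coprime `a, a'`. -/
theorem bezout_bounded {a a' : ℕ} (ha' : 1 ≤ a') (hcop : Nat.Coprime a a') (m : ℕ) :
    ∃ r r' : ℤ, a * r + a' * r' = m ∧ |(r : ℝ)| ≤ a' ∧ |(r' : ℝ)| ≤ m / a' + a := by
  have ha'0 : (0 : ℤ) < a' := by exact_mod_cast ha'
  have hb := Nat.gcd_eq_gcd_ab a a'
  rw [hcop] at hb
  set s := Nat.gcdA a a'
  set t := Nat.gcdB a a'
  set r : ℤ := (s * m) % a' with hr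
  have hr0 : 0 ≤ r := Int.emod_nonneg _ ha'0.ne'
  have hra : r < a' := Int.emod_lt_of_pos _ ha'0
  have hdvd : (a' : ℤ) ∣ m - a * r := by
    have h1 : s * m = a' * ((s * m) / a') + r := by
      rw [hr]
      exact (Int.mul_ediv_add_emod _ _).symm
    have h2 : (m : ℤ) = a * (s * m) + a' * (t * m) := by
      push_cast at hb
      linear_combination (m : ℤ) * hb
    refine ⟨a * ((s * m) / a') + t * m, ?_⟩
    have h3 : r = s * m - a' * ((s * m) / a') := by linarith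
    rw [h3]
    linear_combination h2
  obtain ⟨r', hr'⟩ := hdvd
  refine ⟨r, r', by linarith, ?_, ?_⟩
  · rw [abs_of_nonneg (by exact_mod_cast hr0)]
    exact_mod_cast hra.le
  · have ha'R : (0 : ℝ) < a' := by exact_mod_cast ha'
    have h1 : (a' : ℝ) * r' = m - a * r := by exact_mod_cast hr'.symm
    have h2 : (r' : ℝ) = (m - a * r) / a' := by
      rw [← h1]
      field_simp
    have hr0' : (0 : ℝ) ≤ r := by exact_mod_cast hr0
    have hra' : (r : ℝ) ≤ a' := by exact_mod_cast hra.le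
    have ha0 : (0 : ℝ) ≤ a := Nat.cast_nonneg a
    have hm0 : (0 : ℝ) ≤ m := Nat.cast_nonneg m
    have h3 : (a : ℝ) * r ≤ a * a' := mul_le_mul_of_nonneg_left hra' ha0
    have h4 : 0 ≤ (a : ℝ) * r := mul_nonneg ha0 hr0'
    rw [h2, abs_le]
    constructor
    · rw [le_div_iff₀ ha'R]
      have h5 : -((m : ℝ) / a' + a) * a' = -m - a * a' := by field_simp; ring
      rw [h5]
      linarith
    · rw [div_le_iff₀ ha'R]
      have h5 : ((m : ℝ) / a' + a) * a' = m + a * a' := by field_simp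
      rw [h5]
      nlinarith [mul_nonneg ha0 ha'R.le]

theorem gcd_step {κ ε : ℝ} (hκ : 0 < κ) (hε : 0 < ε) (hε1 : ε ≤ 1) :
    ∃ (W : ℕ) (c : ℝ), 1 ≤ W ∧ 0 < c ∧ c ≤ 1 ∧ ∀ (S : Sys) (v : S.E), ‖v‖ ≤ 1 →
      ∀ (E H Y : ℕ) (D : Finset ℕ), 1 ≤ H → (H : ℝ) ≤ c * Y → (∀ d ∈ D, 1 ≤ d ∧ d < H) →
      κ * H ≤ D.card → (∀ d ∈ D, ε ≤ ‖S.M ((E * d : ℕ) : ℤ) Y v‖) →
      ∃ w, 1 ≤ w ∧ w ≤ W ∧ ∀ Y' : ℕ, 1 ≤ Y' → (Y' : ℝ) ≤ c * H * Y →
        ε ^ 4 / 4 ≤ ‖S.M ((E * w : ℕ) : ℤ) Y' v‖ := by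
  set κ' : ℝ := ε ^ 4 * κ ^ 2 / 8 with hκ'
  have hκ'0 : 0 < κ' := by positivity
  set W : ℕ := ⌈κ'⁻¹⌉₊ + 1 with hW
  have hW1 : 1 ≤ W := by omega
  have hWR : (1 : ℝ) ≤ W := by exact_mod_cast hW1
  have hWκ : (W : ℝ)⁻¹ ≤ κ' := by
    have h1 : κ'⁻¹ ≤ W := by
      rw [hW]
      push_cast
      have := Nat.le_ceil κ'⁻¹
      linarith
    exact inv_le_of_inv_le₀ hκ'0 h1
  set c : ℝ := ε ^ 4 / (8 * (2 + W / κ')) with hc
  have hc0 : 0 < c := by positivity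
  have hε4 : ε ^ 4 ≤ 1 := pow_le_one₀ hε.le hε1
  have hWκ0 : 0 ≤ (W : ℝ) / κ' := by positivity
  have hc1 : c ≤ 1 := by
    rw [hc, div_le_one (by positivity)]
    nlinarith
  refine ⟨W, c, hW1, hc0, hc1, ?_⟩
  intro S v hv E H Y D hH hHY hD hcard hMD
  have hH0 : (0 : ℝ) < H := by exact_mod_cast hH
  have hY0 : (0 : ℝ) < Y := by
    by_contra hneg
    push Not at hneg
    have : c * Y ≤ 0 := mul_nonpos_of_nonneg_of_nonpos hc0.le hneg
    linarith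
  set P : ℕ → S.E := fun d => S.T ((E * d : ℕ) : ℤ) Y v with hP
  have hPnorm : ∀ d, ‖P d‖ ≤ 1 := fun d => (Sys.norm_T_le _ _ _).trans hv
  have hn : (0 : ℝ) < D.card := lt_of_lt_of_le (by positivity) hcard
  -- the square of the sum
  have h1 : ε ^ 4 * (D.card : ℝ) ^ 2 ≤ ∑ d ∈ D, ∑ d' ∈ D, ⟪P d, P d'⟫ := by
    have h2 : ε ^ 2 * D.card ≤ ⟪v, ∑ d ∈ D, P d⟫ := by
      rw [inner_sum]
      have h3 : ∀ d ∈ D, ε ^ 2 ≤ ⟪v, P d⟫ := by
        intro d hd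
        rw [hP]
        simp only
        rw [Sys.inner_T_self]
        exact pow_le_pow_left₀ hε.le (hMD d hd) 2
      have h4 := card_nsmul_le_sum D (fun d => ⟪v, P d⟫) (ε ^ 2) h3
      rw [nsmul_eq_mul] at h4
      linarith
    have h5 : ⟪v, ∑ d ∈ D, P d⟫ ≤ ‖∑ d ∈ D, P d‖ := by
      refine (real_inner_le_norm _ _).trans ?_
      exact mul_le_of_le_one_left (norm_nonneg _) hv
    have h6 : (ε ^ 2 * D.card) ^ 2 ≤ ‖∑ d ∈ D, P d‖ ^ 2 :=
      pow_le_pow_left₀ (by positivity) (h2.trans h5) 2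
    have h7 : ‖∑ d ∈ D, P d‖ ^ 2 = ∑ d ∈ D, ∑ d' ∈ D, ⟪P d, P d'⟫ := by
      rw [← real_inner_self_eq_norm_sq, sum_inner]
      simp_rw [inner_sum]
    calc ε ^ 4 * (D.card : ℝ) ^ 2 = (ε ^ 2 * D.card) ^ 2 := by ring
      _ ≤ _ := by rw [← h7]; exact h6
  -- a good pair
  obtain ⟨d, hd, d', hd', hgcd, hd'H, hpair⟩ : ∃ d ∈ D, ∃ d' ∈ D, Nat.gcd d d' ≤ W ∧
      κ' * H ≤ d' ∧ ε ^ 4 / 2 ≤ ⟪P d, P d'⟫ := by
    by_contra hno
    push Not at hno
    have hterm : ∀ d ∈ D, ∀ d' ∈ D, ⟪P d, P d'⟫ ≤ ε ^ 4 / 2 +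
        ((if W < Nat.gcd d d' then (1 : ℝ) else 0) + (if (d' : ℝ) < κ' * H then (1 : ℝ) else 0)) := by
      intro d hd d' hd'
      have hle : ⟪P d, P d'⟫ ≤ 1 := by
        refine (real_inner_le_norm _ _).trans ?_
        exact mul_le_one₀ (hPnorm d) (norm_nonneg _) (hPnorm d')
      have h0 : 0 ≤ ε ^ 4 / 2 := by positivity
      by_cases hg : W < Nat.gcd d d'
      · rw [if_pos hg]
        split_ifs <;> linarith
      · by_cases hs : (d' : ℝ) < κ' * H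
        · rw [if_neg hg, if_pos hs]
          linarith
        · rw [if_neg hg, if_neg hs]
          have := hno d hd d' hd' (by omega) (by linarith)
          linarith
    have hsum : ∑ d ∈ D, ∑ d' ∈ D, ⟪P d, P d'⟫ ≤
        (D.card : ℝ) ^ 2 * (ε ^ 4 / 2) + (∑ d ∈ D, ∑ d' ∈ D,
          (if W < Nat.gcd d d' then (1 : ℝ) else 0)) +
        (∑ _d ∈ D, ∑ d' ∈ D, (if (d' : ℝ) < κ' * H then (1 : ℝ) else 0)) := by
      refine (sum_le_sum fun d hd => sum_le_sum fun d' hd' => hterm d hd d' hd').trans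
        (le_of_eq ?_)
      simp_rw [sum_add_distrib]
      simp only [sum_const, nsmul_eq_mul]
      ring
    have hb1 : (∑ d ∈ D, ∑ d' ∈ D, (if W < Nat.gcd d d' then (1 : ℝ) else 0)) ≤
        (H : ℝ) ^ 2 / W := by
      rw [← sum_product' D D (fun d d' => if W < Nat.gcd d d' then (1 : ℝ) else 0)]
      rw [sum_boole]
      refine le_trans ?_ (card_gcd_gt (H := H) hW1)
      have : ((D ×ˢ D).filter (fun p => W < Nat.gcd p.1 p.2)).card ≤
          (((Ico 1 H) ×ˢ (Ico 1 H)).filter (fun p => W < Nat.gcd p.1 p.2)).card := by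
        apply card_le_card
        apply filter_subset_filter
        apply product_subset_product
        · intro x hx
          rw [mem_Ico]
          exact hD x hx
        · intro x hx
          rw [mem_Ico]
          exact hD x hx
      exact_mod_cast this
    have hDH : (D.card : ℝ) ≤ H := by
      have h2 : D ⊆ Ico 1 H := by
        intro x hx
        rw [mem_Ico]
        exact hD x hx
      have h3 := card_le_card h2
      rw [Nat.card_Ico] at h3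
      have h4 : D.card ≤ H := by omega
      exact_mod_cast h4
    have hb2 : (∑ _d ∈ D, ∑ d' ∈ D, (if (d' : ℝ) < κ' * H then (1 : ℝ) else 0)) ≤
        κ' * (H : ℝ) ^ 2 := by
      have h2 : (∑ d' ∈ D, (if (d' : ℝ) < κ' * H then (1 : ℝ) else 0)) ≤ κ' * H := by
        rw [sum_boole]
        have h3 : D.filter (fun d' : ℕ => (d' : ℝ) < κ' * (H : ℝ)) ⊆ Icc 1 ⌊κ' * (H : ℝ)⌋₊ := by
          intro x hx
          rw [mem_filter] at hx
          rw [mem_Icc]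
          exact ⟨(hD x hx.1).1, Nat.le_floor hx.2.le⟩
        have h4 := card_le_card h3
        rw [Nat.card_Icc] at h4
        have h5 : (((D.filter (fun d' : ℕ => (d' : ℝ) < κ' * (H : ℝ))).card : ℕ) : ℝ) ≤
            ((⌊κ' * (H : ℝ)⌋₊ : ℕ) : ℝ) := by
          have : (D.filter (fun d' : ℕ => (d' : ℝ) < κ' * (H : ℝ))).card ≤ ⌊κ' * (H : ℝ)⌋₊ := by
            omega
          exact_mod_cast this
        exact h5.trans (Nat.floor_le (by positivity))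
      rw [sum_const, nsmul_eq_mul]
      calc (D.card : ℝ) * (∑ d' ∈ D, (if (d' : ℝ) < κ' * H then (1 : ℝ) else 0))
          ≤ H * (κ' * H) := by
            apply mul_le_mul hDH h2 _ hH0.le
            exact sum_nonneg fun _ _ => by split_ifs <;> norm_num
        _ = κ' * (H : ℝ) ^ 2 := by ring
    have h2 : ε ^ 4 * (D.card : ℝ) ^ 2 ≤ (D.card : ℝ) ^ 2 * (ε ^ 4 / 2) + (H : ℝ) ^ 2 / W +
        κ' * (H : ℝ) ^ 2 := by linarith
    have h3 : (H : ℝ) ^ 2 / W ≤ κ' * (H : ℝ) ^ 2 := by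
      rw [div_eq_mul_inv, mul_comm]
      exact mul_le_mul_of_nonneg_right hWκ (by positivity)
    have h4 : (κ * H) ^ 2 ≤ (D.card : ℝ) ^ 2 := pow_le_pow_left₀ (by positivity) hcard 2
    have h5 : ε ^ 4 / 2 * (κ * H) ^ 2 ≤ 2 * κ' * (H : ℝ) ^ 2 := by
      have : ε ^ 4 / 2 * (κ * H) ^ 2 ≤ ε ^ 4 / 2 * (D.card : ℝ) ^ 2 :=
        mul_le_mul_of_nonneg_left h4 (by positivity)
      linarith
    rw [hκ'] at h5
    have h6 : 0 < ε ^ 4 * κ ^ 2 * (H : ℝ) ^ 2 := by positivity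
    nlinarith
  -- the gcd
  set g := Nat.gcd d d' with hg
  have hd1 := (hD d hd).1
  have hd'1 := (hD d' hd').1
  have hg0 : 0 < g := Nat.gcd_pos_of_pos_left _ hd1
  obtain ⟨a, ha⟩ : g ∣ d := Nat.gcd_dvd_left _ _
  obtain ⟨a', ha'⟩ : g ∣ d' := Nat.gcd_dvd_right _ _
  have ha'1 : 1 ≤ a' := by
    rcases Nat.eq_zero_or_pos a' with h0 | h0
    · rw [h0, mul_zero] at ha'
      omega
    · exact h0
  have hcop : Nat.Coprime a a' := by
    have h2 := Nat.gcd_mul_left g a a'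
    rw [← ha, ← ha', ← hg] at h2
    have h3 : g * Nat.gcd a a' = g * 1 := by rw [mul_one]; exact h2.symm
    exact Nat.eq_of_mul_eq_mul_left hg0 h3
  set u : S.E := S.M ((E * d' : ℕ) : ℤ) Y (S.M ((E * d : ℕ) : ℤ) Y v) with hu
  have hu' : u = S.M ((E * d : ℕ) : ℤ) Y (S.M ((E * d' : ℕ) : ℤ) Y v) := by
    rw [hu]
    unfold Sys.M
    rw [Sys.A_A]
  have hunorm : ε ^ 4 / 2 ≤ ‖u‖ := by
    refine hpair.trans ?_
    rw [hP]
    simp only
    rw [Sys.inner_T]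
    refine (real_inner_le_norm _ _).trans ?_
    calc ‖v‖ * ‖S.T ((E * d : ℕ) : ℤ) Y (S.T ((E * d' : ℕ) : ℤ) Y v)‖
        ≤ 1 * ‖S.M ((E * d : ℕ) : ℤ) Y (S.T ((E * d' : ℕ) : ℤ) Y v)‖ :=
          mul_le_mul hv (Sys.norm_T_le_M _ _ _) (norm_nonneg _) zero_le_one
      _ = ‖S.T ((E * d' : ℕ) : ℤ) Y (S.M ((E * d : ℕ) : ℤ) Y v)‖ := by
          rw [one_mul]
          unfold Sys.M
          rw [Sys.A_T]
      _ ≤ ‖u‖ := Sys.norm_T_le_M _ _ _
  refine ⟨g, hg0, hgcd, ?_⟩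
  intro Y' hY'1 hY'
  -- almost invariance of `u`
  have hinv : ∀ y < Y', ‖S.U (((E * g : ℕ) : ℤ) * y) u - u‖ ≤ ε ^ 4 / 4 := by
    intro m hm
    obtain ⟨r, r', hrr, hr, hr'⟩ := bezout_bounded ha'1 hcop m
    have h2 : ((E * g : ℕ) : ℤ) * m = ((E * d' : ℕ) : ℤ) * r' + ((E * d : ℕ) : ℤ) * r := by
      rw [ha, ha', ← hrr]
      push_cast
      ring
    have h3 : ‖S.U (((E * d : ℕ) : ℤ) * r) u - u‖ ≤ 2 * |(r : ℝ)| / Y := by
      rw [hu']
      refine (Sys.shift_M _ _ _ _).trans ?_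
      apply mul_le_of_le_one_right (by positivity)
      exact (Sys.norm_M_le _ _ _).trans hv
    have h4 : ‖S.U (((E * d' : ℕ) : ℤ) * r') u - u‖ ≤ 2 * |(r' : ℝ)| / Y := by
      rw [hu]
      refine (Sys.shift_M _ _ _ _).trans ?_
      apply mul_le_of_le_one_right (by positivity)
      exact (Sys.norm_M_le _ _ _).trans hv
    have h5 : ‖S.U (((E * g : ℕ) : ℤ) * m) u - u‖ ≤ 2 * |(r : ℝ)| / Y + 2 * |(r' : ℝ)| / Y := by
      rw [h2, S.U_add]
      have h6 : S.U (((E * d' : ℕ) : ℤ) * r') (S.U (((E * d : ℕ) : ℤ) * r) u) - u =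
          S.U (((E * d' : ℕ) : ℤ) * r') (S.U (((E * d : ℕ) : ℤ) * r) u - u) +
          (S.U (((E * d' : ℕ) : ℤ) * r') u - u) := by
        rw [map_sub]
        abel
      rw [h6]
      refine (norm_add_le _ _).trans ?_
      rw [Sys.norm_U]
      linarith
    refine h5.trans ?_
    -- numerical bounds
    have hda : a ≤ d := by
      rw [ha]
      exact Nat.le_mul_of_pos_left a hg0
    have hda' : a' ≤ d' := by
      rw [ha']
      exact Nat.le_mul_of_pos_left a' hg0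
    have haH : (a : ℝ) ≤ H := by
      have : a ≤ H := by have := (hD d hd).2; omega
      exact_mod_cast this
    have ha'H : (a' : ℝ) ≤ H := by
      have : a' ≤ H := by have := (hD d' hd').2; omega
      exact_mod_cast this
    have ha'0 : (0 : ℝ) < a' := by exact_mod_cast ha'1
    have hmY : (m : ℝ) ≤ c * H * Y := by
      have : (m : ℝ) ≤ Y' := by exact_mod_cast hm.le
      linarith
    have ha'low : κ' * H ≤ W * a' := by
      refine hd'H.trans ?_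
      rw [ha']
      have : g * a' ≤ W * a' := Nat.mul_le_mul_right _ hgcd
      exact_mod_cast this
    have h7 : (m : ℝ) / a' ≤ c * (W / κ') * Y := by
      rw [div_le_iff₀ ha'0]
      have h8 : (H : ℝ) ≤ W / κ' * a' := by
        rw [div_mul_eq_mul_div, le_div_iff₀ hκ'0]
        linarith
      calc (m : ℝ) ≤ c * H * Y := hmY
        _ ≤ c * (W / κ' * a') * Y := by gcongr
        _ = c * (W / κ') * Y * a' := by ring
    have h8 : |(r : ℝ)| + |(r' : ℝ)| ≤ c * (2 + W / κ') * Y := by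
      have h9 : |(r : ℝ)| ≤ c * Y := hr.trans (ha'H.trans hHY)
      have h10 : |(r' : ℝ)| ≤ c * (W / κ') * Y + c * Y := hr'.trans (by linarith)
      linarith
    have h9 : c * (2 + W / κ') = ε ^ 4 / 8 := by
      rw [hc]
      have : (2 + (W : ℝ) / κ') ≠ 0 := by positivity
      field_simp
    rw [h9] at h8
    have h10 : 2 * |(r : ℝ)| / Y + 2 * |(r' : ℝ)| / Y = 2 * (|(r : ℝ)| + |(r' : ℝ)|) / Y := by
      ring
    rw [h10, div_le_iff₀ hY0]
    linarith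
  have hclose := Sys.avg_close (S := S) (f := fun y => ((E * g : ℕ) : ℤ) * y) hY'1 hinv
  have h2 : ‖S.M ((E * g : ℕ) : ℤ) Y' u‖ ≤ ‖S.M ((E * g : ℕ) : ℤ) Y' v‖ := by
    rw [hu]
    have h3 : S.M ((E * g : ℕ) : ℤ) Y' (S.M ((E * d' : ℕ) : ℤ) Y (S.M ((E * d : ℕ) : ℤ) Y v)) =
        S.M ((E * d' : ℕ) : ℤ) Y (S.M ((E * d : ℕ) : ℤ) Y (S.M ((E * g : ℕ) : ℤ) Y' v)) := by
      unfold Sys.M
      rw [Sys.A_A, Sys.A_A _ _ Y' Y]
    rw [h3]
    exact (Sys.norm_M_le _ _ _).trans (Sys.norm_M_le _ _ _)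
  have h3 : ‖u‖ ≤ ‖S.M ((E * g : ℕ) : ℤ) Y' u‖ + ε ^ 4 / 4 := by
    have h4 : u = S.M ((E * g : ℕ) : ℤ) Y' u - (S.M ((E * g : ℕ) : ℤ) Y' u - u) := by abel
    calc ‖u‖ = ‖S.M ((E * g : ℕ) : ℤ) Y' u - (S.M ((E * g : ℕ) : ℤ) Y' u - u)‖ := by rw [← h4]
      _ ≤ ‖S.M ((E * g : ℕ) : ℤ) Y' u‖ + ‖S.M ((E * g : ℕ) : ℤ) Y' u - u‖ := norm_sub_le _ _
      _ ≤ _ := by
          have : ‖S.M ((E * g : ℕ) : ℤ) Y' u - u‖ ≤ ε ^ 4 / 4 := hclose
          linarith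
  linarith

end Pool.Agent.Lib.MP_570bef_nt
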