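import Mathlib

/-!
# Averages of an isometric action of the integers on a Hilbert space
-/

set_option autoImplicit false

namespace Pool.Agent.Lib.MP_570bef_nt

open Finset RealInnerProductSpace

/-- An isometric action of `ℤ` on a real inner product space. -/
structure Sys where
  E : Type
  [ng : NormedAddCommGroup E]
  [ip : InnerProductSpace ℝ E]
  U : ℤ → E →ₗᵢ[ℝ] E
  U_zero : ∀ v, U 0 v = v
  U_add : ∀ s t v, U (s + t) v = U s (U t v)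

attribute [instance] Sys.ng Sys.ip

namespace Sys

variable (S : Sys)

/-- The average of `U (f y)`, `y < Y`. -/
noncomputable def A (f : ℕ → ℤ) (Y : ℕ) : S.E →ₗ[ℝ] S.E :=
  (Y : ℝ)⁻¹ • ∑ y ∈ range Y, (S.U (f y)).toLinearMap

/-- The average along a progression. -/
noncomputable def M (D : ℤ) (Y : ℕ) : S.E →ₗ[ℝ] S.E := S.A (fun y => D * y) Y

/-- The self-adjoint average along a progression. -/
noncomputable def T (D : ℤ) (Y : ℕ) : S.E →ₗ[ℝ] S.E := (S.M (-D) Y).comp (S.M D Y)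

variable {S}

theorem A_apply (f : ℕ → ℤ) (Y : ℕ) (v : S.E) :
    S.A f Y v = (Y : ℝ)⁻¹ • ∑ y ∈ range Y, S.U (f y) v := by
  simp [A]

theorem T_apply (D : ℤ) (Y : ℕ) (v : S.E) : S.T D Y v = S.M (-D) Y (S.M D Y v) := rfl

theorem norm_U (t : ℤ) (v : S.E) : ‖S.U t v‖ = ‖v‖ := (S.U t).norm_map v

theorem U_comm (s t : ℤ) (v : S.E) : S.U s (S.U t v) = S.U t (S.U s v) := by
  rw [← S.U_add, add_comm, S.U_add]

theorem norm_sum_U_le {ι : Type*} (s : Finset ι) (f : ι → ℤ) (v : S.E) :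
    ‖∑ i ∈ s, S.U (f i) v‖ ≤ s.card * ‖v‖ := by
  refine (norm_sum_le _ _).trans ?_
  simp

theorem norm_A_le (f : ℕ → ℤ) (Y : ℕ) (v : S.E) : ‖S.A f Y v‖ ≤ ‖v‖ := by
  rw [A_apply, norm_smul, norm_inv, Real.norm_natCast]
  have h := norm_sum_U_le (S := S) (range Y) f v
  rw [card_range] at h
  rcases Nat.eq_zero_or_pos Y with h0 | h0
  · subst h0
    simp
  · rw [inv_mul_le_iff₀ (by exact_mod_cast h0)]
    exact h

theorem norm_M_le (D : ℤ) (Y : ℕ) (v : S.E) : ‖S.M D Y v‖ ≤ ‖v‖ := norm_A_le _ _ _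

theorem norm_T_le_M (D : ℤ) (Y : ℕ) (v : S.E) : ‖S.T D Y v‖ ≤ ‖S.M D Y v‖ := norm_M_le _ _ _

theorem norm_T_le (D : ℤ) (Y : ℕ) (v : S.E) : ‖S.T D Y v‖ ≤ ‖v‖ :=
  (norm_T_le_M D Y v).trans (norm_M_le D Y v)

theorem U_A (t : ℤ) (f : ℕ → ℤ) (Y : ℕ) (v : S.E) :
    S.U t (S.A f Y v) = S.A f Y (S.U t v) := by
  rw [A_apply, A_apply, map_smul, map_sum]
  simp_rw [U_comm t]

theorem U_M (t : ℤ) (D : ℤ) (Y : ℕ) (v : S.E) : S.U t (S.M D Y v) = S.M D Y (S.U t v) :=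
  U_A _ _ _ _

theorem U_T (t : ℤ) (D : ℤ) (Y : ℕ) (v : S.E) : S.U t (S.T D Y v) = S.T D Y (S.U t v) := by
  rw [T_apply, T_apply, U_M, U_M]

theorem A_A (f g : ℕ → ℤ) (Y Z : ℕ) (v : S.E) :
    S.A f Y (S.A g Z v) = S.A g Z (S.A f Y v) := by
  conv_lhs => rw [A_apply]
  conv_rhs => rw [A_apply f Y v, map_smul, map_sum]
  simp_rw [U_A]

theorem A_T (f : ℕ → ℤ) (Y : ℕ) (D : ℤ) (Z : ℕ) (v : S.E) :
    S.A f Y (S.T D Z v) = S.T D Z (S.A f Y v) := by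
  rw [T_apply, T_apply]
  unfold M
  rw [A_A, A_A f]

theorem T_T (D : ℤ) (Y : ℕ) (D' : ℤ) (Y' : ℕ) (v : S.E) :
    S.T D Y (S.T D' Y' v) = S.T D' Y' (S.T D Y v) := by
  conv_lhs => rw [T_apply D Y]
  conv_rhs => rw [T_apply D Y]
  unfold M
  rw [A_T, A_T]

theorem inner_U (t : ℤ) (v w : S.E) : ⟪S.U t v, w⟫ = ⟪v, S.U (-t) w⟫ := by
  have h : w = S.U t (S.U (-t) w) := by
    rw [← S.U_add, add_neg_cancel, S.U_zero]
  conv_lhs => rw [h]
  rw [LinearIsometry.inner_map_map]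

theorem inner_A (f : ℕ → ℤ) (Y : ℕ) (v w : S.E) :
    ⟪S.A f Y v, w⟫ = ⟪v, S.A (fun y => -f y) Y w⟫ := by
  rw [A_apply, A_apply, real_inner_smul_left, real_inner_smul_right, sum_inner, inner_sum]
  simp_rw [inner_U]

theorem inner_M (D : ℤ) (Y : ℕ) (v w : S.E) : ⟪S.M D Y v, w⟫ = ⟪v, S.M (-D) Y w⟫ := by
  unfold M
  rw [inner_A]
  simp_rw [neg_mul]

theorem inner_T_self (D : ℤ) (Y : ℕ) (v : S.E) : ⟪v, S.T D Y v⟫ = ‖S.M D Y v‖ ^ 2 := by
  rw [T_apply, ← inner_M, real_inner_self_eq_norm_sq]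

theorem inner_T (D : ℤ) (Y : ℕ) (v w : S.E) : ⟪S.T D Y v, w⟫ = ⟪v, S.T D Y w⟫ := by
  rw [T_apply, T_apply, inner_M, neg_neg, inner_M]

/-- `‖v - T v‖² ≤ ‖v‖² - ‖T v‖²`. -/
theorem norm_sub_T (D : ℤ) (Y : ℕ) (v : S.E) :
    ‖v - S.T D Y v‖ ^ 2 ≤ ‖v‖ ^ 2 - ‖S.T D Y v‖ ^ 2 := by
  rw [norm_sub_sq_real, inner_T_self]
  have h1 := norm_T_le_M D Y v
  have h2 : ‖S.T D Y v‖ ^ 2 ≤ ‖S.M D Y v‖ ^ 2 :=
    pow_le_pow_left₀ (norm_nonneg _) h1 2
  linarith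

theorem avg_close {f : ℕ → ℤ} {Y : ℕ} (hY : 1 ≤ Y) {w : S.E} {r : ℝ}
    (h : ∀ y < Y, ‖S.U (f y) w - w‖ ≤ r) : ‖S.A f Y w - w‖ ≤ r := by
  have hY0 : (0 : ℝ) < Y := by exact_mod_cast hY
  have h1 : S.A f Y w - w = (Y : ℝ)⁻¹ • ∑ y ∈ range Y, (S.U (f y) w - w) := by
    rw [A_apply, sum_sub_distrib, smul_sub, sum_const, card_range, ← Nat.cast_smul_eq_nsmul ℝ,
      smul_smul, inv_mul_cancel₀ hY0.ne', one_smul]
  rw [h1, norm_smul, norm_inv, Real.norm_natCast, inv_mul_le_iff₀ hY0]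
  refine (norm_sum_le _ _).trans ?_
  refine (sum_le_card_nsmul _ _ r fun y hy => h y (mem_range.1 hy)).trans ?_
  simp

theorem shift_A (f : ℕ → ℤ) (m Y : ℕ) (v : S.E) :
    ‖S.A (fun y => f (y + m)) Y v - S.A f Y v‖ ≤ 2 * m / Y * ‖v‖ := by
  rcases Nat.eq_zero_or_pos Y with h0 | h0
  · subst h0
    simp [A_apply]
  have hY0 : (0 : ℝ) < Y := by exact_mod_cast h0
  have h1 : ∑ y ∈ range Y, S.U (f (y + m)) v - ∑ y ∈ range Y, S.U (f y) v =
      ∑ x ∈ range m, S.U (f (Y + x)) v - ∑ x ∈ range m, S.U (f x) v := by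
    have h2 := Finset.sum_range_add (fun y => S.U (f y) v) Y m
    have h3 := Finset.sum_range_add (fun y => S.U (f y) v) m Y
    rw [add_comm m Y, h2] at h3
    have h4 : ∑ y ∈ range Y, S.U (f (y + m)) v = ∑ y ∈ range Y, S.U (f (m + y)) v := by
      simp_rw [add_comm]
    rw [h4]
    rw [sub_eq_sub_iff_add_eq_add, add_comm, ← h3, add_comm]
  rw [A_apply, A_apply, ← smul_sub, h1, norm_smul, norm_inv, Real.norm_natCast]
  have h2 : ‖∑ x ∈ range m, S.U (f (Y + x)) v - ∑ x ∈ range m, S.U (f x) v‖ ≤ 2 * m * ‖v‖ := by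
    refine (norm_sub_le _ _).trans ?_
    have h3 := norm_sum_U_le (S := S) (range m) (fun x => f (Y + x)) v
    have h4 := norm_sum_U_le (S := S) (range m) f v
    rw [card_range] at h3 h4
    linarith
  rw [inv_mul_le_iff₀ hY0]
  refine h2.trans (le_of_eq ?_)
  field_simp

theorem U_mul_M (D : ℤ) (m Y : ℕ) (v : S.E) :
    S.U (D * m) (S.M D Y v) = S.A (fun y => D * ((y + m : ℕ) : ℤ)) Y v := by
  unfold M
  rw [A_apply, A_apply, map_smul, map_sum]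
  congr 1
  apply sum_congr rfl
  intro y _
  rw [← S.U_add]
  congr 2
  push_cast
  ring

/-- Almost invariance under shifts by multiples of the difference. -/
theorem shift_M (D : ℤ) (m : ℤ) (Y : ℕ) (v : S.E) :
    ‖S.U (D * m) (S.M D Y v) - S.M D Y v‖ ≤ 2 * |(m : ℝ)| / Y * ‖v‖ := by
  have key : ∀ n : ℕ, ‖S.U (D * n) (S.M D Y v) - S.M D Y v‖ ≤ 2 * (n : ℝ) / Y * ‖v‖ := by
    intro n
    rw [U_mul_M]
    exact shift_A (fun y => D * y) n Y v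
  obtain ⟨n, rfl | rfl⟩ := m.eq_nat_or_neg
  · simpa using key n
  · have h1 : S.U (D * -(n : ℤ)) (S.M D Y v) - S.M D Y v =
        S.U (D * -(n : ℤ)) (S.M D Y v - S.U (D * n) (S.M D Y v)) := by
      rw [map_sub, ← S.U_add]
      rw [show D * -(n : ℤ) + D * n = 0 by ring, S.U_zero]
    rw [h1, norm_U, norm_sub_rev]
    simpa using key n

theorem shift_T (D : ℤ) (m : ℤ) (Y : ℕ) (v : S.E) :
    ‖S.U (D * m) (S.T D Y v) - S.T D Y v‖ ≤ 2 * |(m : ℝ)| / Y * ‖v‖ := by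
  have h1 : S.T D Y v = S.M D Y (S.M (-D) Y v) := by
    rw [T_apply]
    unfold M
    rw [A_A]
  rw [h1]
  refine (shift_M D m Y _).trans ?_
  apply mul_le_mul_of_nonneg_left (norm_M_le _ _ _)
  positivity

/-- The van der Corput inequality. -/
theorem van_der_corput (f : ℕ → ℤ) {Y H : ℕ} (hY : 1 ≤ Y) (hH : 1 ≤ H) {v : S.E}
    (hv : ‖v‖ ≤ 1) :
    ‖S.A f Y v‖ ^ 2 ≤ 2 * (2 * H / Y) ^ 2 + 2 * ((H : ℝ)⁻¹ ^ 2 *
      ∑ h ∈ range H, ∑ h' ∈ range H, |⟪S.A (fun y => f (y + h) - f (y + h')) Y v, v⟫|) := by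
  have hY0 : (0 : ℝ) < Y := by exact_mod_cast hY
  have hH0 : (0 : ℝ) < H := by exact_mod_cast hH
  set S' : S.E := (H : ℝ)⁻¹ • ∑ h ∈ range H, S.A (fun y => f (y + h)) Y v with hS'
  have h1 : ‖S.A f Y v - S'‖ ≤ 2 * H / Y := by
    have h2 : S.A f Y v - S' =
        (H : ℝ)⁻¹ • ∑ h ∈ range H, (S.A f Y v - S.A (fun y => f (y + h)) Y v) := by
      rw [sum_sub_distrib, smul_sub, sum_const, card_range, ← Nat.cast_smul_eq_nsmul ℝ,
        smul_smul, inv_mul_cancel₀ hH0.ne', one_smul]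
    rw [h2, norm_smul, norm_inv, Real.norm_natCast, inv_mul_le_iff₀ hH0]
    refine (norm_sum_le _ _).trans ?_
    have h3 : ∀ h ∈ range H, ‖S.A f Y v - S.A (fun y => f (y + h)) Y v‖ ≤ 2 * H / Y := by
      intro h hh
      rw [norm_sub_rev]
      refine (shift_A f h Y v).trans ?_
      have h4 : (h : ℝ) ≤ H := by
        exact_mod_cast (mem_range.1 hh).le
      calc 2 * (h : ℝ) / Y * ‖v‖ ≤ 2 * (h : ℝ) / Y * 1 :=
            mul_le_mul_of_nonneg_left hv (by positivity)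
        _ ≤ 2 * H / Y := by
            rw [mul_one]
            gcongr
    refine (sum_le_card_nsmul _ _ _ h3).trans ?_
    simp
  have h2 : ‖S'‖ ^ 2 ≤ (H : ℝ)⁻¹ ^ 2 *
      ∑ h ∈ range H, ∑ h' ∈ range H, |⟪S.A (fun y => f (y + h) - f (y + h')) Y v, v⟫| := by
    -- rewrite `S'` as an average over `y`
    have h3 : S' = (Y : ℝ)⁻¹ • (H : ℝ)⁻¹ • ∑ y ∈ range Y, ∑ h ∈ range H, S.U (f (y + h)) v := by
      rw [hS']
      simp_rw [A_apply]
      rw [← smul_sum, smul_comm, sum_comm]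
    have h4 : ‖∑ y ∈ range Y, ∑ h ∈ range H, S.U (f (y + h)) v‖ ^ 2 ≤
        Y * ∑ y ∈ range Y, ‖∑ h ∈ range H, S.U (f (y + h)) v‖ ^ 2 := by
      have h5 := norm_sum_le (range Y) (fun y => ∑ h ∈ range H, S.U (f (y + h)) v)
      calc ‖∑ y ∈ range Y, ∑ h ∈ range H, S.U (f (y + h)) v‖ ^ 2
          ≤ (∑ y ∈ range Y, ‖∑ h ∈ range H, S.U (f (y + h)) v‖) ^ 2 :=
            pow_le_pow_left₀ (norm_nonneg _) h5 2
        _ ≤ (range Y).card * ∑ y ∈ range Y, ‖∑ h ∈ range H, S.U (f (y + h)) v‖ ^ 2 :=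
            sq_sum_le_card_mul_sum_sq
        _ = Y * ∑ y ∈ range Y, ‖∑ h ∈ range H, S.U (f (y + h)) v‖ ^ 2 := by
            rw [card_range]
    have h6 : ∑ y ∈ range Y, ‖∑ h ∈ range H, S.U (f (y + h)) v‖ ^ 2 =
        Y * ∑ h ∈ range H, ∑ h' ∈ range H,
          ⟪S.A (fun y => f (y + h) - f (y + h')) Y v, v⟫ := by
      have h7 : ∀ y, ‖∑ h ∈ range H, S.U (f (y + h)) v‖ ^ 2 =
          ∑ h ∈ range H, ∑ h' ∈ range H, ⟪S.U (f (y + h) - f (y + h')) v, v⟫ := by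
        intro y
        rw [← real_inner_self_eq_norm_sq, sum_inner]
        apply sum_congr rfl
        intro h _
        rw [inner_sum]
        apply sum_congr rfl
        intro h' _
        rw [real_inner_comm, inner_U, ← S.U_add, real_inner_comm]
        congr 3
        ring
      simp_rw [h7]
      rw [sum_comm, mul_sum]
      apply sum_congr rfl
      intro h _
      rw [sum_comm, mul_sum]
      apply sum_congr rfl
      intro h' _
      rw [A_apply, real_inner_smul_left, sum_inner, ← mul_assoc, mul_inv_cancel₀ hY0.ne', one_mul]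
    rw [h3, norm_smul, norm_smul, norm_inv, norm_inv, Real.norm_natCast, Real.norm_natCast,
      mul_pow, mul_pow]
    have h8 : ∑ h ∈ range H, ∑ h' ∈ range H,
        ⟪S.A (fun y => f (y + h) - f (y + h')) Y v, v⟫ ≤
        ∑ h ∈ range H, ∑ h' ∈ range H,
          |⟪S.A (fun y => f (y + h) - f (y + h')) Y v, v⟫| :=
      sum_le_sum fun h _ => sum_le_sum fun h' _ => le_abs_self _
    rw [h6] at h4
    calc ((Y : ℝ)⁻¹) ^ 2 * (((H : ℝ)⁻¹) ^ 2 *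
          ‖∑ y ∈ range Y, ∑ h ∈ range H, S.U (f (y + h)) v‖ ^ 2)
        ≤ ((Y : ℝ)⁻¹) ^ 2 * (((H : ℝ)⁻¹) ^ 2 * (Y * (Y * ∑ h ∈ range H, ∑ h' ∈ range H,
          ⟪S.A (fun y => f (y + h) - f (y + h')) Y v, v⟫))) := by gcongr
      _ = ((H : ℝ)⁻¹) ^ 2 * ∑ h ∈ range H, ∑ h' ∈ range H,
          ⟪S.A (fun y => f (y + h) - f (y + h')) Y v, v⟫ := by
          field_simp
      _ ≤ _ := by gcongr
  have h5 : ‖S.A f Y v‖ ≤ ‖S'‖ + 2 * H / Y := by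
    have h6 : S.A f Y v = S' + (S.A f Y v - S') := by abel
    rw [h6]
    exact (norm_add_le _ _).trans (by linarith)
  have h6 : ‖S.A f Y v‖ ^ 2 ≤ (‖S'‖ + 2 * H / Y) ^ 2 :=
    pow_le_pow_left₀ (norm_nonneg _) h5 2
  nlinarith [sq_nonneg (‖S'‖ - 2 * H / Y)]

end Sys

end Pool.Agent.Lib.MP_570bef_nt
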