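import Pool.Agent.Lib.MP_570bef_nt.Basic

/-!
# Residues modulo `M ^ k` of sums of `k`-th powers of integers below `M`
-/

set_option autoImplicit false

namespace Pool.Agent.Lib.MP_570bef_nt

theorem IsSumMod.add {k s t M m n : ℕ} (h1 : IsSumMod k s M m) (h2 : IsSumMod k t M n) :
    IsSumMod k (s + t) M (m + n) := by
  obtain ⟨x, hx, hxs⟩ := h1
  obtain ⟨y, hy, hys⟩ := h2
  refine ⟨Fin.append x y, ?_, ?_⟩
  · intro i
    induction i using Fin.addCases with
    | left i => rw [Fin.append_left]; exact hx i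
    | right i => rw [Fin.append_right]; exact hy i
  · rw [Fin.sum_univ_add]
    simp only [Fin.append_left, Fin.append_right]
    exact hxs.add hys

theorem isSumMod_zero {k M : ℕ} (hk : 1 ≤ k) (hM : 1 ≤ M) (s : ℕ) : IsSumMod k s M 0 := by
  refine ⟨fun _ => 0, fun _ => hM, ?_⟩
  simp [Nat.zero_pow hk, Nat.ModEq]

theorem IsSumMod.mono {k s t M n : ℕ} (hk : 1 ≤ k) (hM : 1 ≤ M) (h : IsSumMod k s M n)
    (hst : s ≤ t) : IsSumMod k t M n := by
  obtain ⟨u, rfl⟩ := Nat.exists_eq_add_of_le hst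
  exact h.add (isSumMod_zero hk hM u)

theorem isSumMod_self {k M : ℕ} (hM : 2 ≤ M) (n : ℕ) : IsSumMod k n M n :=
  ⟨fun _ => 1, fun _ => hM, by simp [Nat.ModEq]⟩

theorem IsSumMod.congr {k s M m n : ℕ} (h : IsSumMod k s M m) (hmn : m ≡ n [MOD M ^ k]) :
    IsSumMod k s M n := by
  obtain ⟨x, hx, hxs⟩ := h
  exact ⟨x, hx, hxs.trans hmn⟩

/-- All large integers give all residues. -/
theorem residues_of_linear {k s n₀ : ℕ} (hk : 1 ≤ k) (hs : 1 ≤ s)
    (h : ∀ n ≥ n₀, IsSum k s n) : ∀ M > n₀, ∀ r, IsSumMod k s M r := by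
  intro M hM r
  have hM1 : 1 ≤ M := by omega
  have hm0 : 0 < M ^ k := pow_pos (by omega) k
  have hMk : M ≤ M ^ k := Nat.le_self_pow (by omega) M
  have hr1 : r % M ^ k < M ^ k := Nat.mod_lt _ hm0
  by_cases hr : n₀ ≤ r % M ^ k
  · obtain ⟨x, hx⟩ := h _ hr
    refine ⟨x, fun i => ?_, ?_⟩
    · by_contra hlt
      push Not at hlt
      have h1 : x i ^ k ≤ ∑ i, x i ^ k :=
        Finset.single_le_sum (f := fun i => x i ^ k) (fun _ _ => Nat.zero_le _)
          (Finset.mem_univ i)
      have h2 : M ^ k ≤ x i ^ k := Nat.pow_le_pow_left hlt k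
      omega
    · rw [← hx]
      exact Nat.mod_modEq _ _
  · push Not at hr
    rcases eq_or_lt_of_le hk with hk1 | hk2
    · subst hk1
      rw [pow_one] at hr
      have h1 : IsSumMod 1 1 M (r % M) := by
        refine ⟨fun _ => r % M, fun _ => Nat.mod_lt _ hM1, ?_⟩
        simp [Nat.ModEq]
      have h2 : IsSumMod 1 1 M r := by
        apply h1.congr
        rw [pow_one]
        exact Nat.mod_modEq _ _
      exact h2.mono le_rfl hM1 hs
    · have hn : n₀ ≤ M := hM.le
      obtain ⟨x, hx⟩ := h (r % M ^ k + M ^ k) ((hn.trans hMk).trans (Nat.le_add_left _ _))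
      have h3 : ∀ i, x i ≤ M := by
        intro i
        by_contra hlt
        push Not at hlt
        have h1 : x i ^ k ≤ ∑ i, x i ^ k :=
          Finset.single_le_sum (f := fun i => x i ^ k) (fun _ _ => Nat.zero_le _)
            (Finset.mem_univ i)
        have h2 : (M + 1) ^ k ≤ x i ^ k := Nat.pow_le_pow_left hlt k
        have h4 : M ^ k + M ≤ (M + 1) ^ k := by
          obtain ⟨l, rfl⟩ := Nat.exists_eq_add_of_le hk2
          have h5 : M ^ (1 + 1 + l) = M * M ^ (1 + l) := by ring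
          have h6 : (M + 1) ^ (1 + 1 + l) = (M + 1) * (M + 1) ^ (1 + l) := by ring
          have h7 : M ^ (1 + l) + 1 ≤ (M + 1) ^ (1 + l) :=
            Nat.pow_lt_pow_left (Nat.lt_succ_self M) (by omega)
          change M ^ (1 + 1 + l) + M ≤ (M + 1) ^ (1 + 1 + l)
          rw [h5, h6]
          have h8 := Nat.mul_le_mul_left (M + 1) h7
          have h9 : (M + 1) * (M ^ (1 + l) + 1) = M * M ^ (1 + l) + M + (M ^ (1 + l) + 1) := by
            ring
          omega
        have h5 : r % M ^ k < M := hr.trans hM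
        omega
      refine ⟨fun i => if x i = M then 0 else x i, fun i => ?_, ?_⟩
      · dsimp only
        split_ifs with hi
        · omega
        · exact lt_of_le_of_ne (h3 i) hi
      · have h4 : ∑ i, (if x i = M then 0 else x i) ^ k ≡ ∑ i, x i ^ k [MOD M ^ k] := by
          apply Nat.ModEq.sum
          intro i _
          split_ifs with hi
          · rw [hi, Nat.zero_pow hk]
            simp [Nat.ModEq]
          · exact Nat.ModEq.refl _
        refine h4.trans ?_
        rw [← hx]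
        have h5 : r % M ^ k + M ^ k ≡ r % M ^ k [MOD M ^ k] := by simp [Nat.ModEq]
        exact h5.trans (Nat.mod_modEq _ _)

theorem finite_window (k s x L : ℕ) : {n : ℕ | x ≤ n ∧ n < x + L ∧ IsSum k s n}.Finite :=
  (Set.finite_Ico x (x + L)).subset fun _ hn => ⟨hn.1, hn.2.1⟩

theorem countSums_mono {k s t : ℕ} (hk : 1 ≤ k) (hst : s ≤ t) (x L : ℕ) :
    countSums k s x L ≤ countSums k t x L := by
  apply Set.ncard_le_ncard _ (finite_window k t x L)
  exact fun n hn => ⟨hn.1, hn.2.1, hn.2.2.mono hk hst⟩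

theorem ncard_Ico (x L : ℕ) : (Set.Ico x (x + L)).ncard = L := by
  rw [← Finset.coe_Ico, Set.ncard_coe_finset]
  simp

theorem countSums_eq {k s x L : ℕ} (h : ∀ n, x ≤ n → n < x + L → IsSum k s n) :
    countSums k s x L = L := by
  have h1 : {n : ℕ | x ≤ n ∧ n < x + L ∧ IsSum k s n} = Set.Ico x (x + L) := by
    ext n
    constructor
    · exact fun hn => ⟨hn.1, hn.2.1⟩
    · exact fun hn => ⟨hn.1, hn.2, h n hn.1 hn.2⟩
  unfold countSums
  rw [h1, ncard_Ico]

/-- Integer roots. -/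
theorem exists_root {c : ℕ} (hc : 1 ≤ c) (A N : ℕ) (hN : (A + 2) ^ c ≤ N) :
    ∃ X, A ≤ X ∧ X ^ c ≤ N ∧ N ≤ X ^ (2 * c) := by
  classical
  have hAN : A + 2 ≤ N := (Nat.le_self_pow (by omega) _).trans hN
  set X := Nat.findGreatest (fun X => X ^ c ≤ N) N with hX
  have h1 : X ^ c ≤ N :=
    Nat.findGreatest_spec (P := fun X => X ^ c ≤ N) (m := A + 2) hAN hN
  have h2 : A + 2 ≤ X := Nat.le_findGreatest hAN hN
  refine ⟨X, by omega, h1, ?_⟩
  have h3 : N < (X + 1) ^ c := by
    by_contra hlt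
    push Not at hlt
    have h4 : X + 1 ≤ N := (Nat.le_self_pow (by omega) _).trans hlt
    exact Nat.findGreatest_is_greatest (P := fun X => X ^ c ≤ N) (n := N) (k := X + 1)
      (Nat.lt_succ_self X) h4 hlt
  refine h3.le.trans ?_
  rw [pow_mul]
  apply Nat.pow_le_pow_left
  nlinarith

end Pool.Agent.Lib.MP_570bef_nt
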