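import Pool.Agent.Lib.MP_570bef_nt.Window
import Pool.Agent.Lib.MP_570bef_nt.Ascent
import Pool.Agent.Lib.MP_570bef_nt.Residues

/-!
# Slowly decaying density
-/

set_option autoImplicit false

namespace Pool.Agent.Lib.MP_570bef_nt

open Filter

/-- The window property of a function `ω`. -/
def Window (ω : ℕ → ℕ → ℕ) : Prop :=
  ∀ k N, 1 ≤ k → 1 ≤ ω k N → ∃ K, 32 ≤ K ∧ K * K ≤ N ∧ 2 ^ K ≤ N ∧ ∀ lam, N ≤ K * lam →
    ∀ s x : ℕ, lam ≤ ω k N * countSums k s x lam →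
      ∀ n, K * lam ≤ 4 * n → n < K * lam → (IsSum k (2 * s + 4 * k + 3) (2 * x + n) ∧
        ∀ t, n + 1 ≤ ω k N * countSums k t 0 (n + 1) → IsSum k (s + t + 4 * k + 2) (x + n))

theorem exists_omega : ∃ ω : ℕ → ℕ → ℕ, (∀ k, Monotone (ω k)) ∧
    (∀ k, Tendsto (ω k) atTop atTop) ∧ Window ω := by
  have h : ∀ k m : ℕ, ∃ K T : ℕ, 1 ≤ k → 1 ≤ m → 32 ≤ K ∧ ∀ lam ≥ T, ∀ s x : ℕ,
      lam ≤ m * countSums k s x lam →
      ∀ n, K * lam ≤ 4 * n → n < K * lam → (IsSum k (2 * s + 4 * k + 3) (2 * x + n) ∧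
        ∀ t, n + 1 ≤ m * countSums k t 0 (n + 1) → IsSum k (s + t + 4 * k + 2) (x + n)) := by
    intro k m
    by_cases hkm : 1 ≤ k ∧ 1 ≤ m
    · obtain ⟨K, T, h⟩ := window k hkm.1 m hkm.2
      exact ⟨K, T, fun _ _ => h⟩
    · exact ⟨0, 0, fun h1 h2 => absurd ⟨h1, h2⟩ hkm⟩
  choose K T hKT using h
  classical
  set θ : ℕ → ℕ → ℕ := fun k m => (T k m + 1) * K k m + K k m * K k m + 2 ^ K k m with hθ
  set ω : ℕ → ℕ → ℕ := fun k N => Nat.findGreatest (fun m => 1 ≤ m ∧ θ k m ≤ N) N with hω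
  refine ⟨ω, ?_, ?_, ?_⟩
  · intro k N N' hN
    apply Nat.findGreatest_mono _ hN
    intro m hm
    exact ⟨hm.1, hm.2.trans hN⟩
  · intro k
    rw [tendsto_atTop_atTop]
    intro m
    refine ⟨max (m + 1) (θ k (m + 1)), fun N hN => ?_⟩
    have h1 : m + 1 ≤ ω k N := by
      apply Nat.le_findGreatest
      · exact (le_max_left _ _).trans hN
      · exact ⟨by omega, (le_max_right _ _).trans hN⟩
    omega
  · intro k N hk hωN
    have h1 : 1 ≤ ω k N ∧ θ k (ω k N) ≤ N := by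
      have h2 : ω k N ≠ 0 := by omega
      exact Nat.findGreatest_of_ne_zero rfl h2
    obtain ⟨h2, h3⟩ := h1
    obtain ⟨h4, h5⟩ := hKT k (ω k N) hk h2
    have h6 : (T k (ω k N) + 1) * K k (ω k N) + K k (ω k N) * K k (ω k N) +
        2 ^ K k (ω k N) ≤ N := h3
    have h2p : 0 < 2 ^ K k (ω k N) := pow_pos (by norm_num) _
    refine ⟨K k (ω k N), h4, by omega, by omega, ?_⟩
    intro lam hlam s x hcount n hn1 hn2
    refine h5 lam ?_ s x hcount n hn1 hn2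
    have h7 : (T k (ω k N) + 1) * K k (ω k N) ≤ lam * K k (ω k N) := by
      rw [mul_comm lam]
      omega
    have h8 := Nat.le_of_mul_le_mul_right h7 (by omega)
    omega

/-- From one interval to a long interval. -/
theorem ascent_one {k S U L J : ℕ} (hk : 2 ≤ k) (hL : (k ^ k) ^ 2 ≤ L)
    (h : ∀ v ≤ L, IsSum k S (U + v)) : ∀ v ≤ L ^ 2 ^ J, IsSum k (S + k * (J + 1)) (U + v) := by
  intro v hv
  have hk0 : (0 : ℝ) < k := by
    have : 0 < k := by omega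
    exact_mod_cast this
  have h1 := ascent (k := k) (g := 1) (S := S) (U := U) (R := (L : ℝ)) hk le_rfl
    (Nat.cast_nonneg L) (fun v _ hv => h v (by exact_mod_cast hv)) (k * (J + 1))
  apply h1 v (one_dvd v)
  rw [Nat.cast_one, mul_one]
  set W : ℝ := (k : ℝ) ^ k with hW
  have hW1 : 1 ≤ W := by
    apply one_le_pow₀
    have : 1 ≤ k := by omega
    exact_mod_cast this
  have hW0 : 0 < W := by linarith
  have hLW : W ^ 2 ≤ L := by
    rw [hW]
    exact_mod_cast hL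
  have hL0 : (0 : ℝ) ≤ L := Nat.cast_nonneg L
  have hL1 : (1 : ℝ) ≤ L := by nlinarith
  have hLW1 : (L : ℝ) ≤ (L / W) ^ 2 := by
    rw [div_pow, le_div_iff₀ (by positivity)]
    nlinarith
  have hLW2 : 1 ≤ (L : ℝ) / W := by
    rw [le_div_iff₀ hW0]
    nlinarith
  have hexp : ((2 ^ (J + 1) : ℕ) : ℝ) ≤ ((k : ℝ) / (k - 1)) ^ (k * (J + 1)) := by
    push_cast
    exact two_pow_le hk (J + 1)
  have h3 : (L / W) ^ (2 ^ (J + 1)) ≤ (L / W) ^ (((k : ℝ) / (k - 1)) ^ (k * (J + 1))) := by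
    rw [← Real.rpow_natCast (L / W) (2 ^ (J + 1))]
    exact Real.rpow_le_rpow_of_exponent_le hLW2 hexp
  have h4 : (v : ℝ) ≤ (L : ℝ) ^ 2 ^ J := by exact_mod_cast hv
  calc (v : ℝ) ≤ (L : ℝ) ^ 2 ^ J := h4
    _ ≤ ((L / W) ^ 2) ^ 2 ^ J := pow_le_pow_left₀ hL0 hLW1 _
    _ = (L / W) ^ (2 ^ (J + 1)) := by
        rw [← pow_mul]
        congr 1
        rw [pow_succ, mul_comm]
    _ ≤ (L / W) ^ (((k : ℝ) / (k - 1)) ^ (k * (J + 1))) := h3
    _ ≤ W * (L / W) ^ (((k : ℝ) / (k - 1)) ^ (k * (J + 1))) :=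
        le_mul_of_one_le_left (Real.rpow_nonneg (by linarith) _) hW1

theorem pow_lt_two_pow_eventually (c : ℕ) : ∃ X₀ : ℕ, ∀ X ≥ X₀, X ^ c < 2 ^ (X - 3) := by
  have h1 := tendsto_pow_const_div_const_pow_of_one_lt c (one_lt_two (α := ℝ))
  have h2 : ∀ᶠ n : ℕ in atTop, (n : ℝ) ^ c / 2 ^ n < 1 / 8 :=
    h1.eventually (gt_mem_nhds (by norm_num))
  obtain ⟨X₀, hX₀⟩ := eventually_atTop.1 h2
  refine ⟨X₀ + 3, fun X hX => ?_⟩
  have h3 := hX₀ X (by omega)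
  rw [div_lt_iff₀ (by positivity)] at h3
  have h4 : (2 : ℝ) ^ X = 8 * 2 ^ (X - 3) := by
    have : X = 3 + (X - 3) := by omega
    conv_lhs => rw [this, pow_add]
    norm_num
  rw [h4] at h3
  have h5 : (X : ℝ) ^ c < 2 ^ (X - 3) := by linarith
  exact_mod_cast h5

/-- The exponent used in the ascent. -/
theorem exponent_bound (c : ℕ) : 2 * (c + 1) ≤ 2 ^ (Nat.log 2 (c + 1) + 2) := by
  have h1 := Nat.lt_pow_succ_log_self (b := 2) (by norm_num) (c + 1)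
  rw [pow_succ]
  rw [Nat.succ_eq_add_one] at h1
  omega

/-- **Short intervals.** -/
theorem short_omega {ω : ℕ → ℕ → ℕ} (hω : Window ω) (c k s : ℕ) (hk : 1 ≤ k)
    (h : ∃ X₀, ∀ X ≥ X₀, ∃ x L, X ≤ L ∧ x + L ≤ X ^ c ∧ L ≤ ω k L * countSums k s x L) :
    ∃ n₀, ∀ n ≥ n₀, IsSum k (2 * s + (10 + Nat.log 2 (c + 1)) * k) n := by
  rcases eq_or_lt_of_le hk with hk1 | hk2
  · refine ⟨0, fun n _ => ?_⟩
    have h1 : IsSum k 1 (n ^ k) := isSum_pow k n
    rw [← hk1, pow_one] at h1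
    rw [← hk1]
    exact h1.mono le_rfl (by omega)
  obtain ⟨X₀, hX₀⟩ := h
  obtain ⟨X₁, hX₁⟩ := pow_lt_two_pow_eventually c
  refine ⟨(X₀ + X₁ + (k ^ k) ^ 2 + 10 + 2) ^ (c + 1), fun n hn => ?_⟩
  obtain ⟨X, hX, hXn, hnX⟩ := exists_root (show 1 ≤ c + 1 by omega)
    (X₀ + X₁ + (k ^ k) ^ 2 + 10) n hn
  obtain ⟨x, L, hXL, hxL, hcount⟩ := hX₀ X (by omega)
  have hωL : 1 ≤ ω k L := by
    by_contra hno
    have : ω k L = 0 := by omega
    rw [this, zero_mul] at hcount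
    omega
  obtain ⟨K, hK4, _, hK2, hK⟩ := hω k L hk hωL
  have hL1 : 1 ≤ L := by omega
  -- an interval of length `L`
  set q := K * L / 4 with hq
  have hq1 : 4 * q ≤ K * L := Nat.mul_div_le (K * L) 4
  have hq2 : K * L < 4 * (q + 1) := Nat.lt_mul_div_succ (K * L) (by norm_num)
  have hKL : 32 * L ≤ K * L := Nat.mul_le_mul_right L hK4
  have hint : ∀ v ≤ L, IsSum k (2 * s + 4 * k + 3) (2 * x + (q + 1) + v) := by
    intro v hv
    have h1 := (hK L (Nat.le_mul_of_pos_left L (by omega)) s x hcount (q + 1 + v) (by omega)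
      (by omega)).1
    rwa [← add_assoc] at h1
  have hasc := ascent_one (J := Nat.log 2 (c + 1) + 2) hk2 (by omega) hint
  -- sizes
  have hKX : K + 3 < X := by
    by_contra hno
    push Not at hno
    have h1 := hX₁ X (by omega)
    have h2 : 2 ^ (X - 3) ≤ 2 ^ K := Nat.pow_le_pow_right (by norm_num) (by omega)
    omega
  have hU : 2 * x + (q + 1) ≤ n := by
    have h1 : q + 1 ≤ K * L := by omega
    have h2 : 2 * x + K * L ≤ (K + 2) * X ^ c := by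
      calc 2 * x + K * L ≤ (K + 2) * (x + L) := by
            rw [Nat.mul_add, Nat.add_mul K 2 x, Nat.add_mul K 2 L]
            omega
        _ ≤ (K + 2) * X ^ c := Nat.mul_le_mul_left _ hxL
    have h3 : (K + 2) * X ^ c ≤ X * X ^ c := Nat.mul_le_mul_right _ (by omega)
    have h4 : X * X ^ c = X ^ (c + 1) := by ring
    omega
  have h1 : n - (2 * x + (q + 1)) ≤ L ^ 2 ^ (Nat.log 2 (c + 1) + 2) := by
    calc n - (2 * x + (q + 1)) ≤ n := Nat.sub_le _ _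
      _ ≤ X ^ (2 * (c + 1)) := hnX
      _ ≤ L ^ (2 * (c + 1)) := Nat.pow_le_pow_left hXL _
      _ ≤ _ := Nat.pow_le_pow_right hL1 (exponent_bound c)
  have h2 := hasc _ h1
  rw [Nat.add_sub_cancel' hU] at h2
  refine h2.mono hk ?_
  have h3 : (10 + Nat.log 2 (c + 1)) * k = 10 * k + k * Nat.log 2 (c + 1) := by ring
  have h4 : k * (Nat.log 2 (c + 1) + 2 + 1) = k * Nat.log 2 (c + 1) + 3 * k := by ring
  omega

/-- **Density.** -/
theorem density_omega {ω : ℕ → ℕ → ℕ} (hmono : ∀ k, Monotone (ω k)) (hω : Window ω)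
    (k s : ℕ) (hk : 1 ≤ k)
    (h : ∃ N₀, ∀ N ≥ N₀, N ≤ ω k N * countSums k s 0 N) :
    ∃ n₀, ∀ n ≥ n₀, IsSum k (2 * s + 4 * k + 2) n := by
  obtain ⟨N₀, hN₀⟩ := h
  refine ⟨(N₀ + 2) * (N₀ + 2), fun n hn => ?_⟩
  have hn0 : N₀ ≤ n := by nlinarith
  have hn4 : 4 ≤ n := by nlinarith
  have hωn : 1 ≤ ω k (n + 1) := by
    by_contra hno
    have h1 : ω k (n + 1) = 0 := by omega
    have h2 := hN₀ (n + 1) (by omega)
    rw [h1, zero_mul] at h2
    omega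
  obtain ⟨K, hK4, hKK, _, hK⟩ := hω k (n + 1) hk hωn
  have h1 : K * (n / K) ≤ n := Nat.mul_div_le n K
  have h2 : n < K * (n / K + 1) := Nat.lt_mul_div_succ n (by omega)
  have hKn : K ≤ n := by
    have : K * 2 ≤ K * K := Nat.mul_le_mul_left K (by omega)
    omega
  have h3 : N₀ ≤ n / K + 1 := by
    by_contra hno
    push Not at hno
    have h4 : K < N₀ + 2 := by
      by_contra hno2
      push Not at hno2
      have h5 : K - 1 ≤ n / K := by
        rw [Nat.le_div_iff_mul_le (by omega), Nat.sub_mul]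
        omega
      omega
    have h5 : K * (n / K + 1) ≤ (N₀ + 2) * (N₀ + 2) := Nat.mul_le_mul (by omega) (by omega)
    omega
  have h4 : n / K + 1 ≤ n := by
    have h5 : n / K ≤ n / 32 := Nat.div_le_div_left hK4 (by norm_num)
    omega
  have h5 := hN₀ (n / K + 1) h3
  have h6 : n / K + 1 ≤ ω k (n + 1) * countSums k s 0 (n / K + 1) :=
    h5.trans (Nat.mul_le_mul_right _ (hmono k (by omega)))
  have h7 := (hK (n / K + 1) h2 s 0 h6 n (by
    rw [Nat.mul_add]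
    omega) h2).2 s (hN₀ (n + 1) (by omega))
  rwa [zero_add, ← two_mul] at h7

end Pool.Agent.Lib.MP_570bef_nt
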