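import Pool.Agent.Lib.MP_570bef_nt.Weyl

/-!
# Polynomial averages are close to averages along a progression
-/

set_option autoImplicit false

namespace Pool.Agent.Lib.MP_570bef_nt

open Finset RealInnerProductSpace

theorem exists_root2 {K k l Z : ℕ} (hK : 1 ≤ K) (hk : 1 ≤ k) (hZ : 1 ≤ Z) (h : K * Z ^ k ≤ l) :
    ∃ Y, Z ≤ Y ∧ K * Y ^ k ≤ l ∧ l < K * (2 * Y) ^ k := by
  classical
  have hle : ∀ Y, K * Y ^ k ≤ l → Y ≤ l := by
    intro Y hY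
    calc Y ≤ Y ^ k := Nat.le_self_pow (by omega) Y
      _ ≤ K * Y ^ k := Nat.le_mul_of_pos_left _ hK
      _ ≤ l := hY
  set Y := Nat.findGreatest (fun Y => K * Y ^ k ≤ l) l with hY
  have h1 : K * Y ^ k ≤ l :=
    Nat.findGreatest_spec (P := fun Y => K * Y ^ k ≤ l) (m := Z) (hle Z h) h
  have h2 : Z ≤ Y := Nat.le_findGreatest (hle Z h) h
  refine ⟨Y, h2, h1, ?_⟩
  have h3 : l < K * (Y + 1) ^ k := by
    by_contra hlt
    push Not at hlt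
    exact Nat.findGreatest_is_greatest (P := fun Y => K * Y ^ k ≤ l) (n := l) (k := Y + 1)
      (Nat.lt_succ_self Y) (hle _ hlt) hlt
  refine h3.trans_le ?_
  apply Nat.mul_le_mul_left
  apply Nat.pow_le_pow_left
  omega

/-- Energy increment. -/
theorem energy (S : Sys) {v x u : S.E} (hvxu : v = x + u) (hx : ‖x‖ ≤ 1)
    (hu : ‖u‖ ≤ 1) (hxu : 0 ≤ ⟪x, u⟫) (D : ℤ) (Y : ℕ) {r e : ℝ} (hr : ‖S.T D Y x - x‖ ≤ r)
    (he : 0 ≤ e) (hM : e ≤ ‖S.M D Y u‖) : ‖x‖ ^ 2 - 6 * r + e ^ 4 ≤ ‖S.T D Y v‖ ^ 2 := by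
  have h1 : ‖S.T D Y v‖ ^ 2 = ‖S.T D Y x‖ ^ 2 + 2 * ⟪S.T D Y x, S.T D Y u⟫ +
      ‖S.T D Y u‖ ^ 2 := by
    rw [hvxu, map_add, norm_add_sq_real]
  have hTx : ‖S.T D Y x‖ ≤ 1 := (Sys.norm_T_le _ _ _).trans hx
  have hTu : ‖S.T D Y u‖ ≤ 1 := (Sys.norm_T_le _ _ _).trans hu
  have hr0 : 0 ≤ r := (norm_nonneg _).trans hr
  -- first term
  have h2 : ‖x‖ ^ 2 - 2 * r ≤ ‖S.T D Y x‖ ^ 2 := by
    have h3 : ‖x‖ ≤ ‖S.T D Y x‖ + r := by
      have h4 : ‖x‖ ≤ ‖S.T D Y x‖ + ‖S.T D Y x - x‖ := by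
        have := norm_sub_le (S.T D Y x) (S.T D Y x - x)
        rw [sub_sub_cancel] at this
        exact this
      linarith
    have h5 := norm_nonneg x
    have h6 := norm_nonneg (S.T D Y x)
    nlinarith
  -- second term
  have h3 : -(2 * r) ≤ ⟪S.T D Y x, S.T D Y u⟫ := by
    have h4 : ⟪S.T D Y x, S.T D Y u⟫ = ⟪S.T D Y x - x, S.T D Y u⟫ + ⟪S.T D Y x - x, u⟫ +
        ⟪x, u⟫ := by
      rw [inner_sub_left, inner_sub_left, Sys.inner_T D Y x u]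
      ring
    have h5 : -r ≤ ⟪S.T D Y x - x, S.T D Y u⟫ := by
      have h6 := abs_real_inner_le_norm (S.T D Y x - x) (S.T D Y u)
      have h7 := neg_abs_le ⟪S.T D Y x - x, S.T D Y u⟫
      have h8 : ‖S.T D Y x - x‖ * ‖S.T D Y u‖ ≤ r * 1 :=
        mul_le_mul hr hTu (norm_nonneg _) hr0
      linarith
    have h6 : -r ≤ ⟪S.T D Y x - x, u⟫ := by
      have h6 := abs_real_inner_le_norm (S.T D Y x - x) u
      have h7 := neg_abs_le ⟪S.T D Y x - x, u⟫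
      have h8 : ‖S.T D Y x - x‖ * ‖u‖ ≤ r * 1 :=
        mul_le_mul hr hu (norm_nonneg _) hr0
      linarith
    linarith
  -- third term
  have h4 : e ^ 4 ≤ ‖S.T D Y u‖ ^ 2 := by
    have h5 : e ^ 2 ≤ ‖S.T D Y u‖ := by
      have h6 : e ^ 2 ≤ ⟪u, S.T D Y u⟫ := by
        rw [Sys.inner_T_self]
        exact pow_le_pow_left₀ he hM 2
      refine h6.trans ((real_inner_le_norm _ _).trans ?_)
      exact mul_le_of_le_one_left (norm_nonneg _) hu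
    calc e ^ 4 = (e ^ 2) ^ 2 := by ring
      _ ≤ ‖S.T D Y u‖ ^ 2 := pow_le_pow_left₀ (by positivity) h5 2
  linarith

theorem stage_step (k : ℕ) (hk : 1 ≤ k) (ε : ℝ) (hε : 0 < ε) (hε1 : ε ≤ 1) :
    ∃ δ : ℝ, 0 < δ ∧ ∀ Q : ℕ, 1 ≤ Q → ∃ (Q' L₁ : ℕ) (θ : ℝ), 1 ≤ Q' ∧ 0 < θ ∧ θ ≤ 1 ∧
      ∀ (S : Sys) (v : S.E), ‖v‖ ≤ 1 → ∀ q l : ℕ, 1 ≤ q → q ≤ Q → L₁ ≤ l →
      (∃ Y : ℕ, 1 ≤ Y ∧ (q : ℝ) ^ k * (Y : ℝ) ^ k ≤ ε * l ∧
        ‖S.A (fun y => ((q : ℤ) * y) ^ k) Y v - S.T (q : ℤ) l v‖ ≤ ε) ∨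
      (∃ q' l' : ℕ, 1 ≤ q' ∧ q' ≤ Q' ∧ θ * l ≤ l' ∧ l' ≤ l ∧
        ‖S.T (q : ℤ) l v‖ ^ 2 + δ ≤ ‖S.T (q' : ℤ) l' v‖ ^ 2) := by
  obtain ⟨W, c, e, Y₀, hW, hc, hc1, he, he1, hweyl⟩ := weyl k hk (ε / 2) (by positivity)
    (by linarith)
  refine ⟨e ^ 4 / 2, by positivity, ?_⟩
  intro Q hQ
  set ρ : ℝ := min (ε / 4) (e ^ 4 / 48) with hρ
  have hρ0 : 0 < ρ := lt_min (by positivity) (by positivity)
  have hρε : ρ ≤ ε / 4 := min_le_left _ _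
  have hρe : ρ ≤ e ^ 4 / 48 := min_le_right _ _
  set P : ℕ := ⌈1 / ρ⌉₊ with hP
  have hPρ : 1 ≤ ρ * P := by
    have h1 := Nat.le_ceil (1 / ρ)
    rw [div_le_iff₀ hρ0] at h1
    linarith
  have hP1 : 1 ≤ P := Nat.one_le_ceil_iff.2 (by positivity)
  set K₀ : ℕ := Q ^ k * k.factorial * W with hK₀
  have hK₀1 : 1 ≤ K₀ := Nat.mul_pos (Nat.mul_pos (pow_pos (by omega) k) k.factorial_pos) hW
  set K : ℕ := K₀ * P with hK
  have hK1 : 1 ≤ K := Nat.mul_pos hK₀1 hP1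
  set Z : ℕ := Y₀ + ⌈2 / c⌉₊ + 1 with hZ
  have hKR : (1 : ℝ) ≤ K := by exact_mod_cast hK1
  have h2k : (1 : ℝ) ≤ 2 ^ k := one_le_pow₀ (by norm_num)
  refine ⟨K₀, K * Z ^ k, c / (2 * K * 2 ^ k), hK₀1, by positivity, ?_, ?_⟩
  · rw [div_le_one (by positivity)]
    have : 1 ≤ 2 * (K : ℝ) * 2 ^ k := by nlinarith
    linarith
  intro S v hv q l hq hqQ hl
  obtain ⟨Y, hZY, hKY, hlK⟩ := exists_root2 hK1 hk (show 1 ≤ Z by omega) hl
  have hY₀Y : Y₀ ≤ Y := by omega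
  have hY1 : 1 ≤ Y := by omega
  have hY1R : (1 : ℝ) ≤ Y := by exact_mod_cast hY1
  have hcY : 2 ≤ c * Y := by
    have h1 := Nat.le_ceil (2 / c)
    have h2 : ((⌈2 / c⌉₊ : ℕ) : ℝ) ≤ Y := by
      have : ⌈2 / c⌉₊ ≤ Y := by omega
      exact_mod_cast this
    have h3 : 2 / c ≤ Y := h1.trans h2
    rw [div_le_iff₀ hc] at h3
    linarith
  have hYk : (Y : ℝ) ≤ (Y : ℝ) ^ k := by
    calc (Y : ℝ) = (Y : ℝ) ^ 1 := (pow_one _).symm
      _ ≤ (Y : ℝ) ^ k := pow_le_pow_right₀ hY1R hk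
  have hcYk : 2 ≤ c * (Y : ℝ) ^ k := hcY.trans (mul_le_mul_of_nonneg_left hYk hc.le)
  have hYk1 : 1 ≤ Y ^ k := Nat.one_le_pow _ _ hY1
  have hl1 : 1 ≤ l := by
    have : 1 ≤ K * Y ^ k := Nat.mul_pos hK1 hYk1
    omega
  have hl0 : (0 : ℝ) < l := by exact_mod_cast hl1
  have hq0 : (0 : ℝ) < q := by exact_mod_cast hq
  have hq1R : (1 : ℝ) ≤ q := by exact_mod_cast hq
  -- the basic size inequality
  have hsize : (K₀ : ℝ) * (Y : ℝ) ^ k ≤ ρ * l := by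
    have h1 : ((K * Y ^ k : ℕ) : ℝ) ≤ l := by exact_mod_cast hKY
    rw [hK] at h1
    push_cast at h1
    calc (K₀ : ℝ) * (Y : ℝ) ^ k = (K₀ : ℝ) * (Y : ℝ) ^ k * 1 := (mul_one _).symm
      _ ≤ (K₀ : ℝ) * (Y : ℝ) ^ k * (ρ * P) := mul_le_mul_of_nonneg_left hPρ (by positivity)
      _ = ρ * (K₀ * P * (Y : ℝ) ^ k) := by ring
      _ ≤ ρ * l := mul_le_mul_of_nonneg_left h1 hρ0.le
  have hqk : (q : ℝ) ^ k ≤ K₀ := by
    have h1 : q ^ k ≤ K₀ := by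
      calc q ^ k ≤ Q ^ k := Nat.pow_le_pow_left hqQ k
        _ ≤ Q ^ k * (k.factorial * W) := Nat.le_mul_of_pos_right _ (Nat.mul_pos k.factorial_pos hW)
        _ = K₀ := by rw [hK₀, mul_assoc]
    exact_mod_cast h1
  have hqkY : (q : ℝ) ^ k * (Y : ℝ) ^ k ≤ ρ * l :=
    (mul_le_mul_of_nonneg_right hqk (by positivity)).trans hsize
  obtain ⟨j, hj⟩ : ∃ j, k = j + 1 := ⟨k - 1, by omega⟩
  set x : S.E := S.T (q : ℤ) l v with hx
  set u : S.E := v - x with hu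
  have hvxu : v = x + u := by rw [hu]; abel
  have hxn : ‖x‖ ≤ 1 := (Sys.norm_T_le _ _ _).trans hv
  have hun : ‖u‖ ≤ 1 := by
    have h1 := Sys.norm_sub_T (q : ℤ) l v
    have h2 : ‖u‖ ^ 2 ≤ ‖v‖ ^ 2 - ‖x‖ ^ 2 := h1
    have h3 : ‖v‖ ^ 2 ≤ 1 := pow_le_one₀ (norm_nonneg _) hv
    have h4 : ‖u‖ ^ 2 ≤ 1 := by
      have := sq_nonneg ‖x‖
      linarith
    exact (sq_le_one_iff₀ (norm_nonneg _)).1 h4
  have hxu : 0 ≤ ⟪x, u⟫ := by
    rw [hu, inner_sub_right, real_inner_self_eq_norm_sq]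
    have h1 : ⟪x, v⟫ = ‖S.M (q : ℤ) l v‖ ^ 2 := by
      rw [real_inner_comm, hx, Sys.inner_T_self]
    have h2 : ‖x‖ ^ 2 ≤ ‖S.M (q : ℤ) l v‖ ^ 2 :=
      pow_le_pow_left₀ (norm_nonneg _) (Sys.norm_T_le_M _ _ _) 2
    linarith
  -- almost invariance of `x`
  have hinv : ∀ m : ℤ, |(m : ℝ)| ≤ ρ * l → ‖S.U ((q : ℤ) * m) x - x‖ ≤ 2 * ρ := by
    intro m hm
    refine (Sys.shift_T _ _ _ _).trans ?_
    calc 2 * |(m : ℝ)| / l * ‖v‖ ≤ 2 * |(m : ℝ)| / l * 1 :=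
          mul_le_mul_of_nonneg_left hv (by positivity)
      _ ≤ 2 * ρ := by
        rw [mul_one, div_le_iff₀ hl0]
        linarith
  by_cases hA : ε / 2 ≤ ‖S.A (fun y => ((q : ℤ) * y) ^ k) Y u‖
  · right
    have hP' : IsP k (((q ^ k : ℕ) : ℤ)) (fun y => ((q : ℤ) * y) ^ k) := by
      push_cast
      exact isP_pow q k
    obtain ⟨w, hw1, hwW, hM⟩ := hweyl S u hun (q ^ k) _ hP' Y hY₀Y hA
    set q' : ℕ := q ^ k * k.factorial * w with hq'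
    set l' : ℕ := ⌊c * (Y : ℝ) ^ k⌋₊ with hl'
    have hl'le : (l' : ℝ) ≤ c * (Y : ℝ) ^ k := Nat.floor_le (by positivity)
    have hl'lt : c * (Y : ℝ) ^ k < l' + 1 := Nat.lt_floor_add_one _
    have hl'half : c * (Y : ℝ) ^ k / 2 ≤ l' := by linarith
    have hl'1R : (1 : ℝ) ≤ l' := by linarith
    have hl'1 : 1 ≤ l' := by exact_mod_cast hl'1R
    have hl'Y : (l' : ℝ) ≤ (Y : ℝ) ^ k := hl'le.trans (mul_le_of_le_one_left (by positivity) hc1)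
    have hq'1 : 1 ≤ q' := Nat.mul_pos (Nat.mul_pos (pow_pos (by omega) k) k.factorial_pos) hw1
    have hq'K : q' ≤ K₀ :=
      Nat.mul_le_mul (Nat.mul_le_mul_right _ (Nat.pow_le_pow_left hqQ k)) hwW
    have hq'Y : (q' : ℝ) * l' ≤ ρ * l := by
      have h1 : (q' : ℝ) ≤ K₀ := by exact_mod_cast hq'K
      calc (q' : ℝ) * l' ≤ K₀ * (Y : ℝ) ^ k := mul_le_mul h1 hl'Y (by positivity) (by positivity)
        _ ≤ ρ * l := hsize
    refine ⟨q', l', hq'1, hq'K, ?_, ?_, ?_⟩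
    · have h1 : (l : ℝ) ≤ K * (2 ^ k * (Y : ℝ) ^ k) := by
        have h2 : (l : ℝ) ≤ ((K * (2 * Y) ^ k : ℕ) : ℝ) := by exact_mod_cast hlK.le
        push_cast at h2
        rw [mul_pow] at h2
        exact h2
      rw [div_mul_eq_mul_div, div_le_iff₀ (by positivity)]
      calc c * l ≤ c * (K * (2 ^ k * (Y : ℝ) ^ k)) := mul_le_mul_of_nonneg_left h1 hc.le
        _ = (c * (Y : ℝ) ^ k / 2) * (2 * K * 2 ^ k) := by ring
        _ ≤ l' * (2 * K * 2 ^ k) := mul_le_mul_of_nonneg_right hl'half (by positivity)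
    · have h1 : (l' : ℝ) ≤ ((Y ^ k : ℕ) : ℝ) := by
        push_cast
        exact hl'Y
      have h2 : l' ≤ Y ^ k := by exact_mod_cast h1
      have h3 : Y ^ k ≤ K * Y ^ k := Nat.le_mul_of_pos_left _ hK1
      omega
    · -- the energy increment
      have hdvd : q' = q * (q ^ j * k.factorial * w) := by
        rw [hq', hj, pow_succ]
        ring
      have hshift : ∀ y < l', ‖S.U ((q' : ℤ) * y) x - x‖ ≤ 2 * ρ := by
        intro y hy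
        have h1 : (q' : ℤ) * y = (q : ℤ) * (((q ^ j * k.factorial * w * y : ℕ)) : ℤ) := by
          rw [hdvd]
          push_cast
          ring
        rw [h1]
        apply hinv
        rw [Int.cast_natCast, Nat.abs_cast]
        refine le_trans ?_ hq'Y
        have h2 : q ^ j * k.factorial * w * y ≤ q' * l' := by
          apply Nat.mul_le_mul _ hy.le
          rw [hdvd]
          exact Nat.le_mul_of_pos_left _ hq
        exact_mod_cast h2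
      have hshift' : ∀ y < l', ‖S.U (-(q' : ℤ) * y) x - x‖ ≤ 2 * ρ := by
        intro y hy
        have h1 : -(q' : ℤ) * y = (q : ℤ) * (-(((q ^ j * k.factorial * w * y : ℕ)) : ℤ)) := by
          rw [hdvd]
          push_cast
          ring
        rw [h1]
        apply hinv
        rw [Int.cast_neg, abs_neg, Int.cast_natCast, Nat.abs_cast]
        refine le_trans ?_ hq'Y
        have h2 : q ^ j * k.factorial * w * y ≤ q' * l' := by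
          apply Nat.mul_le_mul _ hy.le
          rw [hdvd]
          exact Nat.le_mul_of_pos_left _ hq
        exact_mod_cast h2
      have h1 : ‖S.M (q' : ℤ) l' x - x‖ ≤ 2 * ρ := Sys.avg_close hl'1 hshift
      have h2 : ‖S.M (-(q' : ℤ)) l' x - x‖ ≤ 2 * ρ := Sys.avg_close hl'1 hshift'
      have h3 : ‖S.T (q' : ℤ) l' x - x‖ ≤ 4 * ρ := by
        have h4 : S.T (q' : ℤ) l' x - x = S.M (-(q' : ℤ)) l' (S.M (q' : ℤ) l' x - x) +
            (S.M (-(q' : ℤ)) l' x - x) := by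
          rw [Sys.T_apply, map_sub]
          abel
        rw [h4]
        refine (norm_add_le _ _).trans ?_
        have h5 := Sys.norm_M_le (-(q' : ℤ)) l' (S.M (q' : ℤ) l' x - x)
        linarith
      have h4 := energy S hvxu hxn hun hxu (q' : ℤ) l' h3 he.le (hM l' hl'1 hl'le)
      linarith
  · left
    push Not at hA
    refine ⟨Y, hY1, ?_, ?_⟩
    · refine hqkY.trans ?_
      apply mul_le_mul_of_nonneg_right _ hl0.le
      linarith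
    · have h1 : ‖S.A (fun y => ((q : ℤ) * y) ^ k) Y x - x‖ ≤ 2 * ρ := by
        apply Sys.avg_close hY1
        intro y hy
        have h2 : ((q : ℤ) * y) ^ k = (q : ℤ) * (((q ^ j * y ^ k : ℕ)) : ℤ) := by
          rw [hj]
          push_cast
          ring
        rw [h2]
        apply hinv
        rw [Int.cast_natCast, Nat.abs_cast]
        refine le_trans ?_ hqkY
        have h3 : q ^ j * y ^ k ≤ q ^ k * Y ^ k := by
          apply Nat.mul_le_mul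
          · exact Nat.pow_le_pow_right hq (by omega)
          · exact Nat.pow_le_pow_left hy.le k
        exact_mod_cast h3
      have h2 : S.A (fun y => ((q : ℤ) * y) ^ k) Y v - x =
          S.A (fun y => ((q : ℤ) * y) ^ k) Y u + (S.A (fun y => ((q : ℤ) * y) ^ k) Y x - x) := by
        rw [hvxu, map_add]
        abel
      rw [h2]
      refine (norm_add_le _ _).trans ?_
      linarith

/-- Polynomial averages are close to averages along a progression, at some scale. -/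
theorem stage (k : ℕ) (hk : 1 ≤ k) (ε : ℝ) (hε : 0 < ε) (hε1 : ε ≤ 1) :
    ∃ (Q L₀ : ℕ) (θ : ℝ), 1 ≤ Q ∧ 0 < θ ∧ θ ≤ 1 ∧
      ∀ (S : Sys) (v : S.E), ‖v‖ ≤ 1 → ∀ L : ℕ, L₀ ≤ L →
      ∃ q l Y : ℕ, 1 ≤ q ∧ q ≤ Q ∧ θ * L ≤ l ∧ l ≤ L ∧ 1 ≤ Y ∧
        (q : ℝ) ^ k * (Y : ℝ) ^ k ≤ ε * l ∧
        ‖S.A (fun y => ((q : ℤ) * y) ^ k) Y v - S.T (q : ℤ) l v‖ ≤ ε := by
  obtain ⟨δ, hδ, hstep⟩ := stage_step k hk ε hε hε1
  have key : ∀ n : ℕ, ∀ Q₀ : ℕ, 1 ≤ Q₀ → ∃ (Q L₀ : ℕ) (θ : ℝ), 1 ≤ Q ∧ 0 < θ ∧ θ ≤ 1 ∧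
      ∀ (S : Sys) (v : S.E), ‖v‖ ≤ 1 → ∀ q₀ L : ℕ, 1 ≤ q₀ → q₀ ≤ Q₀ → L₀ ≤ L →
      1 - n * δ ≤ ‖S.T (q₀ : ℤ) L v‖ ^ 2 →
      ∃ q l Y : ℕ, 1 ≤ q ∧ q ≤ Q ∧ θ * L ≤ l ∧ l ≤ L ∧ 1 ≤ Y ∧
        (q : ℝ) ^ k * (Y : ℝ) ^ k ≤ ε * l ∧
        ‖S.A (fun y => ((q : ℤ) * y) ^ k) Y v - S.T (q : ℤ) l v‖ ≤ ε := by
    intro n
    induction n with
    | zero =>
      intro Q₀ hQ₀
      obtain ⟨Q', L₁, θ, hQ', hθ, hθ1, h⟩ := hstep Q₀ hQ₀
      refine ⟨Q₀, L₁, 1, hQ₀, one_pos, le_rfl, ?_⟩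
      intro S v hv q₀ L hq₀ hq₀Q hL hE
      rcases h S v hv q₀ L hq₀ hq₀Q hL with ⟨Y, hY1, hY2, hY3⟩ | ⟨q', l', _, _, _, _, h5⟩
      · exact ⟨q₀, L, Y, hq₀, hq₀Q, by simp, le_rfl, hY1, hY2, hY3⟩
      · exfalso
        have h6 : ‖S.T (q' : ℤ) l' v‖ ^ 2 ≤ 1 :=
          pow_le_one₀ (norm_nonneg _) ((Sys.norm_T_le _ _ _).trans hv)
        push_cast at hE
        linarith
    | succ n ih =>
      intro Q₀ hQ₀
      obtain ⟨Q', L₁, θ, hQ', hθ, hθ1, h⟩ := hstep Q₀ hQ₀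
      obtain ⟨Q, L₂, θ₂, hQ, hθ₂, hθ₂1, h2⟩ := ih Q' hQ'
      refine ⟨max Q₀ Q, max L₁ ⌈L₂ / θ⌉₊, θ * θ₂, le_max_of_le_left hQ₀, by positivity,
        mul_le_one₀ hθ1 hθ₂.le hθ₂1, ?_⟩
      intro S v hv q₀ L hq₀ hq₀Q hL hE
      have hL0 : (0 : ℝ) ≤ L := Nat.cast_nonneg L
      rcases h S v hv q₀ L hq₀ hq₀Q ((le_max_left _ _).trans hL) with
        ⟨Y, hY1, hY2, hY3⟩ | ⟨q', l', h3, h4, h5, h6, h7⟩
      · refine ⟨q₀, L, Y, hq₀, hq₀Q.trans (le_max_left _ _), ?_, le_rfl, hY1, hY2, hY3⟩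
        have : θ * θ₂ ≤ 1 := mul_le_one₀ hθ1 hθ₂.le hθ₂1
        exact mul_le_of_le_one_left hL0 this
      · have h8 : L₂ ≤ l' := by
          have h9 : (⌈(L₂ : ℝ) / θ⌉₊ : ℝ) ≤ L := by
            exact_mod_cast (le_max_right _ _).trans hL
          have h10 : (L₂ : ℝ) / θ ≤ L := (Nat.le_ceil _).trans h9
          rw [div_le_iff₀ hθ] at h10
          have h11 : (L₂ : ℝ) ≤ l' := by linarith
          exact_mod_cast h11
        obtain ⟨q, l, Y, g1, g2, g3, g4, g5, g6, g7⟩ := h2 S v hv q' l' h3 h4 h8 (by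
          push_cast at hE
          linarith)
        refine ⟨q, l, Y, g1, g2.trans (le_max_right _ _), ?_, g4.trans h6, g5, g6, g7⟩
        calc θ * θ₂ * L = θ₂ * (θ * L) := by ring
          _ ≤ θ₂ * l' := mul_le_mul_of_nonneg_left h5 hθ₂.le
          _ ≤ l := g3
  obtain ⟨n, hn⟩ := exists_nat_ge (1 / δ)
  obtain ⟨Q, L₀, θ, hQ, hθ, hθ1, h⟩ := key n 1 le_rfl
  refine ⟨Q, L₀, θ, hQ, hθ, hθ1, ?_⟩
  intro S v hv L hL
  refine h S v hv 1 L le_rfl le_rfl hL ?_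
  have h1 : 1 ≤ n * δ := by
    rw [div_le_iff₀ hδ] at hn
    exact hn
  have h2 : 0 ≤ ‖S.T ((1 : ℕ) : ℤ) L v‖ ^ 2 := by positivity
  linarith

end Pool.Agent.Lib.MP_570bef_nt
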