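import Pool.Agent.Lib.MP_570bef_nt.GcdStep

/-!
# Large polynomial averages force large averages along a progression
-/

set_option autoImplicit false

namespace Pool.Agent.Lib.MP_570bef_nt

open Finset RealInnerProductSpace

/-- `f` is a polynomial sequence of degree `k` with leading coefficient `lam`. -/
def IsP : ℕ → ℤ → (ℕ → ℤ) → Prop
  | 0, lam, f => ∀ y, f y = lam
  | k + 1, lam, f => ∀ a : ℕ, IsP k (lam * (k + 1) * a) (fun y => f (y + a) - f y)

theorem IsP.shift {k : ℕ} : ∀ {lam : ℤ} {f : ℕ → ℤ}, IsP k lam f → ∀ m : ℕ,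
    IsP k lam (fun y => f (y + m)) := by
  induction k with
  | zero =>
    intro lam f h m y
    exact h _
  | succ k ih =>
    intro lam f h m a
    have h1 := ih (h a) m
    have h2 : (fun y => f (y + a + m) - f (y + m)) = (fun y => f (y + m + a) - f (y + m)) := by
      funext y
      rw [add_right_comm]
    show IsP k _ (fun y => f (y + a + m) - f (y + m))
    rw [h2]
    exact h1

theorem IsP.add {k : ℕ} : ∀ {l l' : ℤ} {f g : ℕ → ℤ}, IsP k l f → IsP k l' g →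
    IsP k (l + l') (fun y => f y + g y) := by
  induction k with
  | zero =>
    intro l l' f g h h' y
    show f y + g y = l + l'
    rw [h y, h' y]
  | succ k ih =>
    intro l l' f g h h' a
    have h1 := ih (h a) (h' a)
    have h2 : (fun y => (f (y + a) + g (y + a)) - (f y + g y)) =
        (fun y => (f (y + a) - f y) + (g (y + a) - g y)) := by
      funext y
      ring
    show IsP k _ (fun y => (f (y + a) + g (y + a)) - (f y + g y))
    rw [h2, show (l + l') * (k + 1) * a = l * (k + 1) * a + l' * (k + 1) * a by ring]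
    exact h1

theorem IsP.smul {k : ℕ} : ∀ {l : ℤ} {f : ℕ → ℤ}, IsP k l f → ∀ c : ℤ,
    IsP k (c * l) (fun y => c * f y) := by
  induction k with
  | zero =>
    intro l f h c y
    show c * f y = c * l
    rw [h y]
  | succ k ih =>
    intro l f h c a
    have h1 := ih (h a) c
    have h2 : (fun y => c * f (y + a) - c * f y) = (fun y => c * (f (y + a) - f y)) := by
      funext y
      ring
    show IsP k _ (fun y => c * f (y + a) - c * f y)
    rw [h2, show c * l * (k + 1) * a = c * (l * (k + 1) * a) by ring]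
    exact h1

theorem IsP.mul_id {k : ℕ} : ∀ {l : ℤ} {f : ℕ → ℤ}, IsP k l f →
    IsP (k + 1) l (fun y => (y : ℤ) * f y) := by
  induction k with
  | zero =>
    intro l f h a y
    show ((y + a : ℕ) : ℤ) * f (y + a) - (y : ℤ) * f y = l * ((0 : ℕ) + 1) * a
    rw [h, h]
    push_cast
    ring
  | succ k ih =>
    intro l f h a
    have h1 := (ih (h a)).add ((h.shift a).smul (a : ℤ))
    have h2 : (fun y : ℕ => ((y + a : ℕ) : ℤ) * f (y + a) - (y : ℤ) * f y) =
        (fun y : ℕ => (y : ℤ) * (f (y + a) - f y) + (a : ℤ) * f (y + a)) := by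
      funext y
      push_cast
      ring
    show IsP (k + 1) _ (fun y : ℕ => ((y + a : ℕ) : ℤ) * f (y + a) - (y : ℤ) * f y)
    rw [h2, show l * (((k + 1 : ℕ) : ℤ) + 1) * a = l * (k + 1) * a + a * l by push_cast; ring]
    exact h1

theorem isP_pow (q : ℕ) (k : ℕ) : IsP k ((q : ℤ) ^ k) (fun y => ((q : ℤ) * y) ^ k) := by
  induction k with
  | zero =>
    intro y
    simp
  | succ k ih =>
    have h1 := (ih.mul_id).smul (q : ℤ)
    have h2 : (fun y : ℕ => ((q : ℤ) * y) ^ (k + 1)) =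
        (fun y : ℕ => (q : ℤ) * ((y : ℤ) * ((q : ℤ) * y) ^ k)) := by
      funext y
      ring
    rw [h2, pow_succ' (q : ℤ) k]
    exact h1

/-- A large average has many large correlations. -/
theorem good_differences (S : Sys) (f : ℕ → ℤ) {Y H : ℕ} (hY : 1 ≤ Y) {v : S.E} (hv : ‖v‖ ≤ 1)
    {ε : ℝ} (hε : 0 < ε) (hε1 : ε ≤ 1) (hA : ε ≤ ‖S.A f Y v‖) (hHY : (H : ℝ) ≤ ε / 4 * Y)
    (hH16 : 16 / ε ^ 2 ≤ H) :
    ∃ D₀ : Finset ℕ, ε ^ 2 / 32 * H ≤ D₀.card ∧ ∀ a ∈ D₀, 1 ≤ a ∧ a < H ∧ ∃ m : ℕ,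
      ε ^ 2 / 32 ≤ ‖S.A (fun y => f (y + m + a) - f (y + m)) Y v‖ := by
  have hY0 : (0 : ℝ) < Y := by exact_mod_cast hY
  have hε2 : ε ^ 2 ≤ 1 := pow_le_one₀ hε.le hε1
  have hε20 : 0 < ε ^ 2 := by positivity
  have h16 : 16 ≤ 16 / ε ^ 2 := by
    rw [le_div_iff₀ hε20]
    linarith
  have hH1R : (1 : ℝ) ≤ H := by linarith
  have hH0 : (0 : ℝ) < H := by linarith
  have hHN : 1 ≤ H := by exact_mod_cast hH1R
  have hHH : 0 < (H : ℝ) ^ 2 := by positivity
  -- the correlations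
  set τ : ℕ → ℕ → ℝ := fun h h' => |⟪S.A (fun y => f (y + h) - f (y + h')) Y v, v⟫| with hτ
  have hτ1 : ∀ h h', τ h h' ≤ ‖S.A (fun y => f (y + h) - f (y + h')) Y v‖ := by
    intro h h'
    refine (abs_real_inner_le_norm _ _).trans ?_
    exact mul_le_of_le_one_right (norm_nonneg _) hv
  have hτle : ∀ h h', τ h h' ≤ 1 := fun h h' => (hτ1 h h').trans ((Sys.norm_A_le _ _ _).trans hv)
  have hτsymm : ∀ h h', τ h h' = τ h' h := by
    intro h h'
    simp only [hτ]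
    rw [Sys.inner_A, real_inner_comm]
    simp_rw [neg_sub]
  have hvdc := Sys.van_der_corput f hY hHN hv
  have h1 : ε ^ 2 / 4 * (H : ℝ) ^ 2 ≤ ∑ h ∈ range H, ∑ h' ∈ range H, τ h h' := by
    have h2 : ε ^ 2 ≤ ‖S.A f Y v‖ ^ 2 := pow_le_pow_left₀ hε.le hA 2
    have h3 : 2 * (H : ℝ) / Y ≤ ε / 2 := by
      rw [div_le_iff₀ hY0]
      linarith
    have h4 : (2 * (H : ℝ) / Y) ^ 2 ≤ (ε / 2) ^ 2 := pow_le_pow_left₀ (by positivity) h3 2
    have h4' : (ε / 2) ^ 2 = ε ^ 2 / 4 := by ring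
    have h5 : ε ^ 2 / 4 ≤ (H : ℝ)⁻¹ ^ 2 * ∑ h ∈ range H, ∑ h' ∈ range H, τ h h' := by
      have : (H : ℝ)⁻¹ ^ 2 * ∑ h ∈ range H, ∑ h' ∈ range H, τ h h' = (H : ℝ)⁻¹ ^ 2 *
        ∑ h ∈ range H, ∑ h' ∈ range H,
          |⟪S.A (fun y => f (y + h) - f (y + h')) Y v, v⟫| := rfl
      rw [this]
      linarith
    rw [inv_pow, inv_mul_eq_div, le_div_iff₀ hHH] at h5
    exact h5
  -- split according to the order of `h, h'`
  have h2 : ∑ h ∈ range H, ∑ h' ∈ range H, τ h h' ≤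
      H + 2 * ∑ h ∈ range H, ∑ h' ∈ range H, (if h' < h then τ h h' else 0) := by
    have h3 : ∀ h h', τ h h' ≤ (if h = h' then 1 else 0) + ((if h' < h then τ h h' else 0) +
        (if h < h' then τ h' h else 0)) := by
      intro h h'
      rcases lt_trichotomy h h' with hlt | heq | hgt
      · rw [if_neg hlt.ne, if_neg (by omega), if_pos hlt, hτsymm h h']
        simp
      · subst heq
        simp [hτle]
      · rw [if_neg (by omega), if_pos hgt, if_neg (by omega)]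
        simp
    have h4 : ∑ h ∈ range H, ∑ h' ∈ range H, τ h h' ≤ ∑ h ∈ range H, ∑ h' ∈ range H,
        ((if h = h' then 1 else 0) + ((if h' < h then τ h h' else 0) +
        (if h < h' then τ h' h else 0))) :=
      sum_le_sum fun h _ => sum_le_sum fun h' _ => h3 h h'
    refine h4.trans (le_of_eq ?_)
    simp_rw [sum_add_distrib]
    have h5 : ∑ h ∈ range H, ∑ h' ∈ range H, (if h < h' then τ h' h else 0) =
        ∑ h ∈ range H, ∑ h' ∈ range H, (if h' < h then τ h h' else 0) := by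
      rw [sum_comm]
    have h6 : ∑ h ∈ range H, ∑ h' ∈ range H, (if h = h' then (1 : ℝ) else 0) = H := by
      have h7 : ∀ h ∈ range H, ∑ h' ∈ range H, (if h = h' then (1 : ℝ) else 0) = 1 := by
        intro h hh
        rw [sum_ite_eq, if_pos hh]
      rw [sum_congr rfl h7]
      simp
    rw [h5, h6]
    ring
  have hH16' : (H : ℝ) ≤ ε ^ 2 / 16 * (H : ℝ) ^ 2 := by
    rw [div_le_iff₀ hε20] at hH16
    have : 16 * (H : ℝ) ≤ H * ε ^ 2 * H := mul_le_mul_of_nonneg_right hH16 hH0.le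
    nlinarith
  have hpos : 0 ≤ ε ^ 2 * (H : ℝ) ^ 2 := by positivity
  have h3 : ε ^ 2 / 16 * (H : ℝ) ^ 2 ≤
      ∑ h ∈ range H, ∑ h' ∈ range H, (if h' < h then τ h h' else 0) := by
    linarith
  -- the set of good differences
  classical
  refine ⟨(Ico 1 H).filter (fun a => ∃ m : ℕ,
    ε ^ 2 / 32 ≤ ‖S.A (fun y => f (y + m + a) - f (y + m)) Y v‖), ?_, ?_⟩
  swap
  · intro a ha
    rw [mem_filter, mem_Ico] at ha
    exact ⟨ha.1.1, ha.1.2, ha.2⟩
  set D₀ : Finset ℕ := (Ico 1 H).filter (fun a => ∃ m : ℕ,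
    ε ^ 2 / 32 ≤ ‖S.A (fun y => f (y + m + a) - f (y + m)) Y v‖) with hD₀
  have h5 : ∑ h ∈ range H, ∑ h' ∈ range H, (if h' < h then τ h h' else 0) ≤
      ε ^ 2 / 32 * (H : ℝ) ^ 2 + H * D₀.card := by
    have h6 : ∀ h ∈ range H, ∀ h' ∈ range H, (if h' < h then τ h h' else 0) ≤ ε ^ 2 / 32 +
        (if h' < h ∧ h - h' ∈ D₀ then 1 else 0) := by
      intro h hh h' hh'
      rw [mem_range] at hh hh'
      by_cases hlt : h' < h
      · rw [if_pos hlt]
        by_cases hmem : h - h' ∈ D₀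
        · rw [if_pos ⟨hlt, hmem⟩]
          have := hτle h h'
          linarith
        · rw [if_neg (fun h => hmem h.2), add_zero]
          by_contra hcon
          push Not at hcon
          apply hmem
          rw [hD₀, mem_filter, mem_Ico]
          refine ⟨⟨by omega, by omega⟩, h', ?_⟩
          have hfun : (fun y => f (y + h) - f (y + h')) =
              (fun y => f (y + h' + (h - h')) - f (y + h')) := by
            funext y
            rw [show y + h' + (h - h') = y + h by omega]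
          have hfin := hcon.le.trans (hτ1 h h')
          rw [hfun] at hfin
          exact hfin
      · rw [if_neg hlt, if_neg (fun h => hlt h.1)]
        positivity
    refine (sum_le_sum fun h hh => sum_le_sum fun h' hh' => h6 h hh h' hh').trans ?_
    simp_rw [sum_add_distrib]
    apply add_le_add
    · simp only [sum_const, card_range, nsmul_eq_mul]
      apply le_of_eq
      ring
    · rw [sum_comm]
      have h7 : ∀ h' ∈ range H, ∑ h ∈ range H, (if h' < h ∧ h - h' ∈ D₀ then (1 : ℝ) else 0) ≤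
          D₀.card := by
        intro h' _
        rw [sum_boole]
        have : ((range H).filter (fun h => h' < h ∧ h - h' ∈ D₀)).card ≤ D₀.card := by
          apply card_le_card_of_injOn (fun h => h - h')
          · intro h hh
            exact (mem_filter.1 hh).2.2
          · intro x hx y hy hxy
            have h1 := (mem_filter.1 hx).2.1
            have h2 := (mem_filter.1 hy).2.1
            simp only at hxy
            omega
        exact_mod_cast this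
      refine (sum_le_sum h7).trans (le_of_eq ?_)
      simp
  have h7 : ε ^ 2 / 32 * (H : ℝ) ^ 2 ≤ H * D₀.card := by
    linarith
  have h8 : (ε ^ 2 / 32 * H) * (H : ℝ) ≤ (D₀.card : ℝ) * (H : ℝ) := by
    rw [mul_assoc, ← pow_two, mul_comm (D₀.card : ℝ)]
    exact h7
  exact le_of_mul_le_mul_right h8 hH0

theorem weyl_base (ε : ℝ) (S : Sys) (v : S.E) (hv : ‖v‖ ≤ 1)
    (lam : ℕ) (f : ℕ → ℤ) (hf : IsP 1 (lam : ℤ) f) (Y : ℕ) (hY : 1 ≤ Y)
    (hA : ε ≤ ‖S.A f Y v‖) (Y' : ℕ) (hY'1 : 1 ≤ Y') (hY' : (Y' : ℝ) ≤ ε / 4 * Y) :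
    ε / 2 ≤ ‖S.M (lam : ℤ) Y' v‖ := by
  have hY0 : (0 : ℝ) < Y := by exact_mod_cast hY
  have hfy : ∀ y : ℕ, f y = f 0 + lam * y := by
    intro y
    have h1 := hf y 0
    simp only [zero_add, Nat.cast_zero] at h1
    linarith
  have hA' : ‖S.A f Y v‖ = ‖S.M (lam : ℤ) Y v‖ := by
    have h1 : S.A f Y v = S.U (f 0) (S.M (lam : ℤ) Y v) := by
      unfold Sys.M
      rw [Sys.A_apply, Sys.A_apply, map_smul, map_sum]
      congr 1
      apply sum_congr rfl
      intro y _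
      rw [← S.U_add, hfy]
    rw [h1, Sys.norm_U]
  rw [hA'] at hA
  have hclose := Sys.avg_close (S := S) (f := fun y => (lam : ℤ) * y) hY'1
    (w := S.M (lam : ℤ) Y v) (r := ε / 2) (by
      intro y hy
      refine (Sys.shift_M _ _ _ _).trans ?_
      have h1 : (y : ℝ) ≤ ε / 4 * Y := by
        have : (y : ℝ) ≤ Y' := by exact_mod_cast hy.le
        linarith
      have h2 : |(((y : ℕ) : ℤ) : ℝ)| = y := by
        rw [Int.cast_natCast, Nat.abs_cast]
      rw [h2]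
      have h3 : 2 * (y : ℝ) / Y ≤ ε / 2 := by
        rw [div_le_iff₀ hY0]
        linarith
      calc 2 * (y : ℝ) / Y * ‖v‖ ≤ 2 * (y : ℝ) / Y * 1 :=
            mul_le_mul_of_nonneg_left hv (by positivity)
        _ ≤ ε / 2 := by rw [mul_one]; exact h3)
  have h2 : ‖S.M (lam : ℤ) Y' (S.M (lam : ℤ) Y v)‖ ≤ ‖S.M (lam : ℤ) Y' v‖ := by
    have h3 : S.M (lam : ℤ) Y' (S.M (lam : ℤ) Y v) = S.M (lam : ℤ) Y (S.M (lam : ℤ) Y' v) := by
      unfold Sys.M
      rw [Sys.A_A]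
    rw [h3]
    exact Sys.norm_M_le _ _ _
  have h3 : ‖S.M (lam : ℤ) Y v‖ ≤ ‖S.M (lam : ℤ) Y' (S.M (lam : ℤ) Y v)‖ + ε / 2 := by
    have h4 : S.M (lam : ℤ) Y v = S.M (lam : ℤ) Y' (S.M (lam : ℤ) Y v) -
        (S.M (lam : ℤ) Y' (S.M (lam : ℤ) Y v) - S.M (lam : ℤ) Y v) := by abel
    calc ‖S.M (lam : ℤ) Y v‖ = ‖S.M (lam : ℤ) Y' (S.M (lam : ℤ) Y v) -
        (S.M (lam : ℤ) Y' (S.M (lam : ℤ) Y v) - S.M (lam : ℤ) Y v)‖ := by rw [← h4]
      _ ≤ ‖S.M (lam : ℤ) Y' (S.M (lam : ℤ) Y v)‖ +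
          ‖S.M (lam : ℤ) Y' (S.M (lam : ℤ) Y v) - S.M (lam : ℤ) Y v‖ := norm_sub_le _ _
      _ ≤ _ := by
        have : ‖S.M (lam : ℤ) Y' (S.M (lam : ℤ) Y v) - S.M (lam : ℤ) Y v‖ ≤ ε / 2 := hclose
        linarith
  linarith

/-- If a polynomial average is large, then so are the averages along a progression. -/
theorem weyl (k : ℕ) (hk : 1 ≤ k) : ∀ ε : ℝ, 0 < ε → ε ≤ 1 →
    ∃ (W : ℕ) (c ε' : ℝ) (Y₀ : ℕ), 1 ≤ W ∧ 0 < c ∧ c ≤ 1 ∧ 0 < ε' ∧ ε' ≤ 1 ∧
      ∀ (S : Sys) (v : S.E), ‖v‖ ≤ 1 → ∀ (lam : ℕ) (f : ℕ → ℤ), IsP k (lam : ℤ) f →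
      ∀ Y : ℕ, Y₀ ≤ Y → ε ≤ ‖S.A f Y v‖ →
      ∃ w, 1 ≤ w ∧ w ≤ W ∧ ∀ Y' : ℕ, 1 ≤ Y' → (Y' : ℝ) ≤ c * (Y : ℝ) ^ k →
        ε' ≤ ‖S.M ((lam * k.factorial * w : ℕ) : ℤ) Y' v‖ := by
  induction k, hk using Nat.le_induction with
  | base =>
    intro ε hε hε1
    refine ⟨1, ε / 4, ε / 2, 1, le_rfl, by positivity, by linarith, by positivity, by linarith, ?_⟩
    intro S v hv lam f hf Y hY hA
    refine ⟨1, le_rfl, le_rfl, ?_⟩
    intro Y' hY'1 hY'
    rw [pow_one] at hY'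
    simp only [Nat.factorial_one, mul_one]
    exact weyl_base ε S v hv lam f hf Y hY hA Y' hY'1 hY'
  | succ k hk ih =>
    intro ε hε hε1
    obtain ⟨W1, c1, e1, Y1, hW1, hc1, hc1', he1, he1', IH⟩ :=
      ih (ε ^ 2 / 32) (by positivity) (by nlinarith)
    have hW1R : (1 : ℝ) ≤ W1 := by exact_mod_cast hW1
    obtain ⟨W2, c2, hW2, hc2, hc2', G⟩ := gcd_step (κ := ε ^ 2 / (32 * W1)) (ε := e1)
      (by positivity) he1 he1'
    set η : ℝ := min (ε / 4) (c2 * c1 / 2) with hη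
    have hη0 : 0 < η := lt_min (by positivity) (by positivity)
    have hηε : η ≤ ε / 4 := min_le_left _ _
    have hηc : η ≤ c2 * c1 / 2 := min_le_right _ _
    have hη1 : η ≤ 1 := by linarith
    set Y₀ : ℕ := max Y1 (⌈2 / c1⌉₊ + ⌈(16 / ε ^ 2 + 1) / η⌉₊ + 1) with hY₀
    refine ⟨W1 * W2, c2 * η * c1 / 4, e1 ^ 4 / 4, Y₀, Nat.mul_pos hW1 hW2, by positivity, ?_,
      by positivity, ?_, ?_⟩
    · have : c2 * η * c1 ≤ 1 := by
        apply mul_le_one₀ (mul_le_one₀ hc2' hη0.le hη1) hc1.le hc1'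
      linarith
    · have : e1 ^ 4 ≤ 1 := pow_le_one₀ he1.le he1'
      linarith
    intro S v hv lam f hf Y hY hA
    have hYY1 : Y1 ≤ Y := (le_max_left _ _).trans hY
    have hYb : ⌈2 / c1⌉₊ + ⌈(16 / ε ^ 2 + 1) / η⌉₊ + 1 ≤ Y := (le_max_right _ _).trans hY
    have hYR : 2 / c1 + (16 / ε ^ 2 + 1) / η + 1 ≤ Y := by
      have h1 := Nat.le_ceil (2 / c1)
      have h2 := Nat.le_ceil ((16 / ε ^ 2 + 1) / η)
      have h3 : ((⌈2 / c1⌉₊ + ⌈(16 / ε ^ 2 + 1) / η⌉₊ + 1 : ℕ) : ℝ) ≤ Y := by exact_mod_cast hYb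
      push_cast at h3
      linarith
    have hq1 : 0 ≤ 2 / c1 := by positivity
    have hq2 : 0 ≤ (16 / ε ^ 2 + 1) / η := by positivity
    have hY1R : (1 : ℝ) ≤ Y := by linarith
    have hY0 : (0 : ℝ) < Y := by linarith
    have hYN : 1 ≤ Y := by exact_mod_cast hY1R
    have hc1Y : 2 ≤ c1 * Y := by
      have h1 : 2 / c1 ≤ Y := by linarith
      rw [div_le_iff₀ hc1] at h1
      linarith
    have hηY : 16 / ε ^ 2 + 1 ≤ η * Y := by
      have h1 : (16 / ε ^ 2 + 1) / η ≤ Y := by linarith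
      rw [div_le_iff₀ hη0] at h1
      linarith
    set H : ℕ := ⌊η * Y⌋₊ with hH
    have hHle : (H : ℝ) ≤ η * Y := Nat.floor_le (by positivity)
    have hHlt : η * Y < H + 1 := Nat.lt_floor_add_one _
    have hH16 : 16 / ε ^ 2 ≤ H := by linarith
    have hε2 : ε ^ 2 ≤ 1 := pow_le_one₀ hε.le hε1
    have h16 : 16 ≤ 16 / ε ^ 2 := by
      rw [le_div_iff₀ (by positivity)]
      linarith
    have hH1R : (1 : ℝ) ≤ H := by linarith
    have hH0 : (0 : ℝ) < H := by linarith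
    have hHN : 1 ≤ H := by exact_mod_cast hH1R
    have hHhalf : η * Y / 2 ≤ H := by linarith
    have hHε : (H : ℝ) ≤ ε / 4 * Y := hHle.trans (mul_le_mul_of_nonneg_right hηε hY0.le)
    obtain ⟨D₀, hcard, hD₀⟩ := good_differences S f hYN hv hε hε1 hA hHε hH16
    -- apply the induction hypothesis
    have hex : ∀ a : ℕ, ∃ w, a ∈ D₀ → (1 ≤ w ∧ w ≤ W1 ∧ ∀ Y' : ℕ, 1 ≤ Y' →
        (Y' : ℝ) ≤ c1 * (Y : ℝ) ^ k →
        e1 ≤ ‖S.M ((lam * (k + 1) * a * k.factorial * w : ℕ) : ℤ) Y' v‖) := by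
      intro a
      by_cases ha : a ∈ D₀
      · obtain ⟨_, _, m, hm⟩ := hD₀ a ha
        have h1 : IsP k ((lam * (k + 1) * a : ℕ) : ℤ) (fun y => f (y + m + a) - f (y + m)) := by
          have h2 := (hf a).shift m
          push_cast
          exact h2
        obtain ⟨w, hw1, hw2, hw⟩ := IH S v hv (lam * (k + 1) * a) _ h1 Y hYY1 hm
        exact ⟨w, fun _ => ⟨hw1, hw2, hw⟩⟩
      · exact ⟨0, fun h => absurd h ha⟩
    choose ω hω using hex
    -- pigeonhole
    obtain ⟨w, hw, hwcard⟩ : ∃ w ∈ Icc 1 W1,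
        ε ^ 2 / (32 * W1) * H ≤ (D₀.filter (fun a => ω a = w)).card := by
      by_contra hno
      push Not at hno
      have h1 : D₀.card = ∑ w ∈ Icc 1 W1, (D₀.filter (fun a => ω a = w)).card := by
        apply card_eq_sum_card_fiberwise
        intro a ha
        have := hω a ha
        exact mem_coe.2 (mem_Icc.2 ⟨this.1, this.2.1⟩)
      have h2 : (D₀.card : ℝ) < ∑ w ∈ Icc 1 W1, ε ^ 2 / (32 * W1) * H := by
        rw [h1]
        push_cast
        apply sum_lt_sum_of_nonempty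
        · exact ⟨1, mem_Icc.2 ⟨le_rfl, hW1⟩⟩
        · intro w hw
          exact hno w hw
      rw [sum_const, Nat.card_Icc, nsmul_eq_mul] at h2
      have h3 : (((W1 + 1 - 1 : ℕ) : ℝ)) * (ε ^ 2 / (32 * W1) * H) = ε ^ 2 / 32 * H := by
        rw [Nat.add_sub_cancel]
        have : (W1 : ℝ) ≠ 0 := by positivity
        field_simp
      rw [h3] at h2
      linarith
    rw [mem_Icc] at hw
    set Z : ℕ := ⌊c1 * (Y : ℝ) ^ k⌋₊ with hZ
    have hYk : (Y : ℝ) ≤ (Y : ℝ) ^ k := by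
      calc (Y : ℝ) = (Y : ℝ) ^ 1 := (pow_one _).symm
        _ ≤ (Y : ℝ) ^ k := pow_le_pow_right₀ hY1R hk
    have hZle : (Z : ℝ) ≤ c1 * (Y : ℝ) ^ k := Nat.floor_le (by positivity)
    have hZlt : c1 * (Y : ℝ) ^ k < Z + 1 := Nat.lt_floor_add_one _
    have hcYk : c1 * Y ≤ c1 * (Y : ℝ) ^ k := mul_le_mul_of_nonneg_left hYk hc1.le
    have hZhalf : c1 * (Y : ℝ) ^ k / 2 ≤ Z := by linarith
    have hZ1R : (1 : ℝ) ≤ Z := by linarith
    have hZ1 : 1 ≤ Z := by exact_mod_cast hZ1R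
    have hHZ : (H : ℝ) ≤ c2 * Z := by
      calc (H : ℝ) ≤ η * Y := hHle
        _ ≤ c2 * c1 / 2 * Y := mul_le_mul_of_nonneg_right hηc hY0.le
        _ = c2 * (c1 * Y / 2) := by ring
        _ ≤ c2 * Z := by
            apply mul_le_mul_of_nonneg_left _ hc2.le
            linarith
    obtain ⟨w2, hw2, hw2', hfin⟩ := G S v hv (lam * (k + 1).factorial * w) H Z
      (D₀.filter (fun a => ω a = w)) hHN hHZ
      (fun d hd => by
        have := hD₀ d (mem_filter.1 hd).1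
        exact ⟨this.1, this.2.1⟩)
      hwcard
      (fun d hd => by
        obtain ⟨hd1, hd2⟩ := mem_filter.1 hd
        have h1 := (hω d hd1).2.2 Z hZ1 hZle
        rw [hd2] at h1
        have h2 : lam * (k + 1) * d * k.factorial * w = lam * (k + 1).factorial * w * d := by
          rw [Nat.factorial_succ]
          ring
        rw [h2] at h1
        exact h1)
    refine ⟨w * w2, Nat.mul_pos hw.1 hw2, Nat.mul_le_mul hw.2 hw2', ?_⟩
    intro Y' hY'1 hY'
    have h1 := hfin Y' hY'1 (by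
      refine hY'.trans ?_
      calc c2 * η * c1 / 4 * (Y : ℝ) ^ (k + 1) = c2 * (η * Y / 2) * (c1 * (Y : ℝ) ^ k / 2) := by
            ring
        _ ≤ c2 * H * Z := by gcongr)
    rw [mul_assoc (lam * (k + 1).factorial) w w2] at h1
    exact h1

end Pool.Agent.Lib.MP_570bef_nt
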