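import Pool.Agent.Lib.MP_570bef_nt.Fill

/-!
# From a positive proportion in one interval to a whole interval
-/

set_option autoImplicit false

namespace Pool.Agent.Lib.MP_570bef_nt

open Finset

theorem succ_pow_le (y k : ℕ) (hk : 1 ≤ k) : (y + 1) ^ k ≤ y ^ k + k * (y + 1) ^ (k - 1) := by
  induction k, hk using Nat.le_induction with
  | base => simp
  | succ k hk ih =>
    have h1 : k + 1 - 1 = k := rfl
    rw [h1]
    have h2 : (y + 1) ^ k = (y + 1) ^ (k - 1) * (y + 1) := by
      rw [← pow_succ]
      congr 1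
      omega
    calc (y + 1) ^ (k + 1) = y * (y + 1) ^ k + (y + 1) ^ k := by ring
      _ ≤ y * (y ^ k + k * (y + 1) ^ (k - 1)) + (y + 1) ^ k :=
          Nat.add_le_add_right (Nat.mul_le_mul_left y ih) _
      _ = y ^ (k + 1) + k * ((y + 1) ^ (k - 1) * y) + (y + 1) ^ k := by ring
      _ ≤ y ^ (k + 1) + k * ((y + 1) ^ (k - 1) * (y + 1)) + (y + 1) ^ k := by
          apply Nat.add_le_add_right
          apply Nat.add_le_add_left
          apply Nat.mul_le_mul_left
          apply Nat.mul_le_mul_left
          omega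
      _ = y ^ (k + 1) + k * (y + 1) ^ k + (y + 1) ^ k := by rw [← h2]
      _ = y ^ (k + 1) + (k + 1) * (y + 1) ^ k := by ring

/-- The gaps between `k`-th powers up to `K₁ * lam` are at most `lam`. -/
theorem exists_pow_near {k K₁ : ℕ} (hk : 1 ≤ k) (hK₁ : 1 ≤ K₁) :
    ∃ T : ℕ, ∀ lam ≥ T, ∀ i ≤ K₁ * lam, ∃ y : ℕ, i ≤ y ^ k ∧ y ^ k ≤ i + lam := by
  set P : ℕ := K₁ * k * 2 ^ (k - 1) with hP
  refine ⟨k * P ^ (k - 1), fun lam hlam i hi => ?_⟩
  have hex : ∃ y : ℕ, i ≤ y ^ k := ⟨i, Nat.le_self_pow (by omega) i⟩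
  classical
  set y := Nat.find hex with hy
  have h1 : i ≤ y ^ k := Nat.find_spec hex
  refine ⟨y, h1, ?_⟩
  rcases Nat.eq_zero_or_pos y with h0 | h0
  · rw [h0, Nat.zero_pow hk]
    omega
  obtain ⟨z, hz⟩ : ∃ z, y = z + 1 := ⟨y - 1, by omega⟩
  have h2 : z ^ k < i := by
    by_contra hlt
    push Not at hlt
    have := Nat.find_min' hex hlt
    omega
  have h3 := succ_pow_le z k hk
  rw [hz]
  have h4 : k * (z + 1) ^ (k - 1) ≤ lam := by
    rcases le_or_gt (z + 1) P with hzP | hzP
    · exact (Nat.mul_le_mul_left k (Nat.pow_le_pow_left hzP _)).trans hlam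
    · have hP1 : 1 ≤ P := Nat.mul_pos (Nat.mul_pos hK₁ hk) (pow_pos (by norm_num) _)
      have hz1 : 1 ≤ z := by omega
      have h5 : K₁ * (k * (z + 1) ^ (k - 1)) ≤ K₁ * lam := by
        calc K₁ * (k * (z + 1) ^ (k - 1)) ≤ K₁ * (k * (2 * z) ^ (k - 1)) := by
              apply Nat.mul_le_mul_left
              apply Nat.mul_le_mul_left
              apply Nat.pow_le_pow_left
              omega
          _ = P * z ^ (k - 1) := by rw [hP, Nat.mul_pow]; ring
          _ ≤ z * z ^ (k - 1) := Nat.mul_le_mul_right _ (by omega)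
          _ = z ^ k := by
              rw [← pow_succ']
              congr 1
              omega
          _ ≤ K₁ * lam := by omega
      exact Nat.le_of_mul_le_mul_left h5 hK₁
  omega

theorem card_eq_countSums (k s x lam : ℕ) [DecidablePred (fun a => IsSum k s (x + a))] :
    ((range lam).filter (fun a => IsSum k s (x + a))).card = countSums k s x lam := by
  unfold countSums
  have h1 : {n : ℕ | x ≤ n ∧ n < x + lam ∧ IsSum k s n} =
      ((((range lam).filter (fun a => IsSum k s (x + a))).image
        (fun a => x + a) : Finset ℕ) : Set ℕ) := by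
    ext n
    rw [mem_coe, mem_image]
    constructor
    · rintro ⟨h1, h2, h3⟩
      refine ⟨n - x, ?_, by omega⟩
      rw [mem_filter, mem_range]
      refine ⟨by omega, ?_⟩
      rwa [show x + (n - x) = n by omega]
    · rintro ⟨a, ha, rfl⟩
      rw [mem_filter, mem_range] at ha
      exact ⟨by omega, by omega, ha.2⟩
  rw [h1, Set.ncard_coe_finset, card_image_of_injective]
  intro a b hab
  have : x + a = x + b := hab
  omega

/-- Two sets, one of them with few missing elements. -/
theorem exists_add {R n : ℕ} (hn : n < R) (P Q : ℕ → Prop) [DecidablePred P] [DecidablePred Q]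
    (h : ((range R).filter (fun v => ¬ Q v)).card < ((range (n + 1)).filter P).card) :
    ∃ a ≤ n, P a ∧ Q (n - a) := by
  by_contra hno
  push Not at hno
  have h2 : ((range (n + 1)).filter P).card ≤ ((range R).filter (fun v => ¬ Q v)).card := by
    apply card_le_card_of_injOn (fun a => n - a)
    · intro a ha
      obtain ⟨h1, h2⟩ := mem_filter.1 (mem_coe.1 ha)
      rw [mem_range] at h1
      refine mem_coe.2 (mem_filter.2 ⟨mem_range.2 ?_, hno a (by omega) h2⟩)
      show n - a < R
      omega
    · intro a ha b hb hab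
      have h1 := mem_range.1 (mem_filter.1 (mem_coe.1 ha)).1
      have h2 := mem_range.1 (mem_filter.1 (mem_coe.1 hb)).1
      have hab' : n - a = n - b := hab
      omega
  omega

theorem window (k : ℕ) (hk : 1 ≤ k) (m : ℕ) (hm : 1 ≤ m) :
    ∃ K T : ℕ, 32 ≤ K ∧ ∀ lam ≥ T, ∀ s x : ℕ, lam ≤ m * countSums k s x lam →
      ∀ n, K * lam ≤ 4 * n → n < K * lam → (IsSum k (2 * s + 4 * k + 3) (2 * x + n) ∧
        ∀ t, n + 1 ≤ m * countSums k t 0 (n + 1) → IsSum k (s + t + 4 * k + 2) (x + n)) := by
  classical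
  have hm0 : (0 : ℝ) < m := by exact_mod_cast hm
  obtain ⟨K, lam₀, hK, hfill⟩ := fill k hk (1 / m) (by positivity) (by
    rw [div_le_one hm0]
    exact_mod_cast hm) (32 * m) (by omega)
  obtain ⟨T, hT⟩ := exists_pow_near hk (show 1 ≤ K by omega)
  refine ⟨K, max lam₀ T + 1, hK, ?_⟩
  intro lam hlam s x hcount n hn1 hn2
  have hlam1 : 1 ≤ lam := by omega
  set A : Finset ℕ := (range lam).filter (fun a => IsSum k s (x + a)) with hA
  have hAcard : A.card = countSums k s x lam := card_eq_countSums k s x lam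
  set B : Set ℕ := {b | ∃ a ∈ A, ∃ y : ℕ, b = a + y ^ k} with hB
  have hBsum : ∀ b ∈ B, IsSum k (s + 1) (x + b) := by
    rintro b ⟨a, ha, y, rfl⟩
    rw [hA, mem_filter] at ha
    rw [← add_assoc]
    exact ha.2.add (isSum_pow k y)
  have hhyp : ∀ i ≤ K * lam, 1 / (m : ℝ) * lam ≤
      (((Ico i (i + 2 * lam)).filter (· ∈ B)).card : ℝ) := by
    intro i hi
    obtain ⟨y, hy1, hy2⟩ := hT lam (by omega) i hi
    have h1 : A.card ≤ ((Ico i (i + 2 * lam)).filter (· ∈ B)).card := by
      apply card_le_card_of_injOn (fun a => a + y ^ k)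
      · intro a ha
        have ha' := mem_coe.1 ha
        have ha2 := mem_range.1 (mem_filter.1 ha').1
        refine mem_coe.2 (mem_filter.2 ⟨mem_Ico.2 ⟨?_, ?_⟩, ⟨a, ha', y, rfl⟩⟩)
        · show i ≤ a + y ^ k
          omega
        · show a + y ^ k < i + 2 * lam
          omega
      · intro a _ b _ hab
        have : a + y ^ k = b + y ^ k := hab
        omega
    rw [one_div, inv_mul_eq_div, div_le_iff₀ hm0]
    have h2 : lam ≤ ((Ico i (i + 2 * lam)).filter (· ∈ B)).card * m := by
      calc lam ≤ m * countSums k s x lam := hcount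
        _ = A.card * m := by rw [hAcard, mul_comm]
        _ ≤ _ := Nat.mul_le_mul_right _ h1
    exact_mod_cast h2
  have h1 := hfill lam (by omega) B (by
    intro i hi
    convert hhyp i hi)
  set R : ℕ := K * lam with hR
  have hR1 : 1 ≤ R := Nat.mul_pos (by omega) hlam1
  -- few missing elements
  have hmiss : 32 * m * ((range R).filter (fun v => ¬ IsSum k (s + 4 * k + 2) (x + v))).card ≤
      R := by
    refine le_trans ?_ h1
    apply Nat.mul_le_mul_left
    apply card_le_card
    intro v hv
    obtain ⟨hv1, hv2⟩ := mem_filter.1 hv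
    refine mem_filter.2 ⟨hv1, ?_⟩
    rintro ⟨b, hb, e, he, rfl⟩
    apply hv2
    have h2 := (hBsum b hb).add he
    rwa [show s + 1 + (4 * k + 1) = s + 4 * k + 2 by ring, add_assoc x b e] at h2
  constructor
  · -- use `B`
    have hBn : 8 * lam ≤ n := by
      have : 32 * lam ≤ K * lam := Nat.mul_le_mul_right lam hK
      omega
    set j := (n + 1) / (2 * lam) with hj
    have hj1 : 2 * lam * j ≤ n + 1 := Nat.mul_div_le (n + 1) (2 * lam)
    have hj2 : n + 1 < 2 * lam * (j + 1) := Nat.lt_mul_div_succ (n + 1) (by omega)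
    have hcb := count_blocks (B := B) (R := K * lam) hhyp j 0 (by omega)
    rw [zero_add] at hcb
    have h2 : j * lam ≤ m * ((range (n + 1)).filter (· ∈ B)).card := by
      have h3 : (((Ico 0 (2 * lam * j)).filter (· ∈ B)).card : ℝ) ≤
          ((range (n + 1)).filter (· ∈ B)).card := by
        have : ((Ico 0 (2 * lam * j)).filter (· ∈ B)).card ≤
            ((range (n + 1)).filter (· ∈ B)).card := by
          apply card_le_card
          intro v hv
          obtain ⟨hv1, hv2⟩ := mem_filter.1 hv
          rw [mem_Ico] at hv1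
          exact mem_filter.2 ⟨mem_range.2 (by omega), hv2⟩
        exact_mod_cast this
      have h4 : (j : ℝ) * lam ≤ m * ((range (n + 1)).filter (· ∈ B)).card := by
        have h5 : (j : ℝ) * (1 / m * lam) * m = j * lam := by field_simp
        rw [← h5, mul_comm (m : ℝ)]
        exact mul_le_mul_of_nonneg_right (hcb.trans h3) hm0.le
      exact_mod_cast h4
    have h3 : ((range R).filter (fun v => ¬ IsSum k (s + 4 * k + 2) (x + v))).card <
        ((range (n + 1)).filter (· ∈ B)).card := by
      have h4 : n + 1 ≤ 4 * (j * lam) := by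
        have h5 : 2 * lam * (j + 1) = 2 * (j * lam) + 2 * lam := by ring
        omega
      have h5 : m * ((range R).filter (fun v => ¬ IsSum k (s + 4 * k + 2) (x + v))).card <
          m * ((range (n + 1)).filter (· ∈ B)).card := by
        rw [mul_assoc] at hmiss
        omega
      exact Nat.lt_of_mul_lt_mul_left h5
    obtain ⟨a, han, ha, hna⟩ := exists_add hn2 (· ∈ B) (fun v => IsSum k (s + 4 * k + 2) (x + v)) h3
    have h4 := (hBsum a ha).add hna
    rwa [show s + 1 + (s + 4 * k + 2) = 2 * s + 4 * k + 3 by ring,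
      show x + a + (x + (n - a)) = 2 * x + n by omega] at h4
  · intro t ht
    rw [← card_eq_countSums] at ht
    have h3 : ((range R).filter (fun v => ¬ IsSum k (s + 4 * k + 2) (x + v))).card <
        ((range (n + 1)).filter (fun a => IsSum k t (0 + a))).card := by
      have h5 : m * ((range R).filter (fun v => ¬ IsSum k (s + 4 * k + 2) (x + v))).card <
          m * ((range (n + 1)).filter (fun a => IsSum k t (0 + a))).card := by
        rw [mul_assoc] at hmiss
        omega
      exact Nat.lt_of_mul_lt_mul_left h5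
    obtain ⟨a, han, ha, hna⟩ := exists_add hn2 (fun a => IsSum k t (0 + a))
      (fun v => IsSum k (s + 4 * k + 2) (x + v)) h3
    have h4 := ha.add hna
    rwa [show t + (s + 4 * k + 2) = s + t + 4 * k + 2 by ring,
      show 0 + a + (x + (n - a)) = x + n by omega] at h4

end Pool.Agent.Lib.MP_570bef_nt
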